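import Mathlib
import Pool.Agent.T6.H81.BH.Defs

/-!
Smooth divisors of type `(1, 1, 1)` in products of three projective spaces of dimensions at least
two: definitions, and the statements of the modules.
-/

set_option autoImplicit false

namespace Pool.Agent.T6.H81.BI

open Finset Module Matrix
open Pool.Agent.H548.WM (ht bx mem_bx Rep)
open Pool.Agent.H548.BL (lat)
open Pool.Agent.H548.TL (evz tf g1 g2 g3 s12 s23 Tx Sm InU InV tri)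
open Pool.Agent.T6.H5.TW (fl MultiDeg)
open Pool.Agent.T6.H81.BG (Pt Bx Zr cf)
open Pool.Agent.T6.H81.BH (cx)

/-! ### Fibred sets with regions -/

/-- A set `P` of points which is fibred in lattices, for every block, with a bound for the number
of the points with a small block in a region of boxes. -/
structure FT {m : ℕ} (n r : Fin m → ℕ) (P : Pt n → Prop) (Q : Fin m → Pt n → Prop)
    (ι : Fin m → Type) [∀ v, Fintype (ι v)] (w : ∀ v, Pt n → ι v → Fin (n v) → ℤ)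
    (Reg : Fin m → (Fin m → ℕ) → Prop) : Prop where
  card : ∀ v, Fintype.card (ι v) + r v = n v
  r2 : ∀ v, 2 ≤ r v
  upd_Q : ∀ v (x : Pt n) (z : Fin (n v) → ℤ), Q v (Function.update x v z) ↔ Q v x
  upd_w : ∀ v (x : Pt n) (z : Fin (n v) → ℤ), w v (Function.update x v z) = w v x
  li : ∀ v (x : Pt n), Q v x → LinearIndependent ℤ (w v x)
  fib : ∀ v (x : Pt n), P x → Q v x ∧ x v ∈ lat (w v x)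
  gen : ∀ v, ∃ D : ℕ, ∀ x : Pt n, Q v x → ∃ g : MvPolynomial (Fin (n v)) ℤ,
    g.totalDegree ≤ D ∧ (∃ z ∈ lat (w v x), MvPolynomial.eval z g ≠ 0) ∧
    ∀ z ∈ lat (w v x), MvPolynomial.eval z g ≠ 0 → P (Function.update x v z)
  nq : ∀ v, ∃ C δ : ℝ, 0 ≤ C ∧ 0 < δ ∧ ∀ X : Fin m → ℕ, (∀ u, 1 ≤ X u) → Reg v X →
    ∃ ρ : ℕ, 1 ≤ ρ ∧ ρ ≤ X v ∧
      ((Bx n (Function.update X v ρ) fun x => Q v x ∧ x v ∈ lat (w v x)).card : ℝ) ≤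
        C * (∏ u ∈ univ.erase v, (X u : ℝ) ^ r u) * (ρ : ℝ) ^ (r v - 1) * (X v : ℝ) ^ (1 - δ)

/-- The region of the boxes for the block `v`. The block `v0` is the strong one. -/
def Rg (v0 : Fin 3) (k : ℕ) (δ : ℝ) (v : Fin 3) (X : Fin 3 → ℕ) : Prop :=
  (v = v0 ∧ ∀ u, (X u : ℝ) ≤ (X v : ℝ) ^ (1 + 1 / (k : ℝ))) ∨
  (v ≠ v0 ∧ ∏ u ∈ univ.erase v, (X u : ℝ) ≤ (X v : ℝ) ^ (2 - δ))

/-- Module RED: from the regions to all boxes with a maximal side. -/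
def StmtRED : Prop := ∀ k : ℕ, 1 ≤ k → ∃ δ' : ℝ, 0 < δ' ∧ δ' ≤ 1 / ((k : ℝ) + 1) ∧
  ∀ (r : Fin 3 → ℕ) (F : (Fin 3 → ℕ) → ℝ) (v0 : Fin 3),
  (∀ v : Fin 3, ∃ (S : (Fin 3 → ℕ) → ℝ) (C δ : ℝ), 0 < δ ∧ ∀ X : Fin 3 → ℕ, (∀ u, 1 ≤ X u) →
    Rg v0 k δ' v X → |F X - S (Function.update X v 0) * (X v : ℝ) ^ r v| ≤
      C * (∏ u, (X u : ℝ) ^ r u) * (X v : ℝ) ^ (-δ)) →
  ∀ v : Fin 3, ∃ (S : (Fin 3 → ℕ) → ℝ) (C δ : ℝ), 0 < δ ∧ ∀ X : Fin 3 → ℕ, (∀ u, 1 ≤ X u) →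
    (∀ u, X u ≤ 2 * X v) → |F X - S (Function.update X v 0) * (X v : ℝ) ^ r v| ≤
      C * (∏ u, (X u : ℝ) ^ r u) * (X v : ℝ) ^ (-δ)

/-! ### Trilinear forms -/

/-- Module W0: the span of all vectors `T i j`. -/
def StmtW0 : Prop := ∀ (N1 N2 N3 : ℕ) (T : Fin N1 → Fin N2 → Fin N3 → ℤ), 2 ≤ N1 → 3 ≤ N2 →
  4 ≤ N3 → Sm ℂ T → ∃ f : Fin 4 → Fin N1 × Fin N2,
    LinearIndependent ℤ (fun a k => T (f a).1 (f a).2 k)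

open Classical in
/-- Module PR: the number of the pairs in the kernels. -/
def StmtPR : Prop := ∀ (N1 N2 N3 : ℕ) (T : Fin N1 → Fin N2 → Fin N3 → ℤ), 1 ≤ N1 → 3 ≤ N2 →
  3 ≤ N3 →
  (∃ C : ℝ, 0 ≤ C ∧ ∀ A ρ : ℕ, 1 ≤ A → 1 ≤ ρ →
    ((((bx N1 A ×ˢ bx N3 ρ).filter fun t => 3 ≤ (cx T t.1).rank ∧
      g2 T t.1 t.2 = 0).card : ℕ) : ℝ) ≤ C * ((A : ℝ) ^ N1 * (ρ : ℝ) ^ (N3 - 3))) ∧
  ((∃ f : Fin 4 → Fin N1 × Fin N2, LinearIndependent ℤ (fun a k => T (f a).1 (f a).2 k)) →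
    ∃ C : ℝ, 0 ≤ C ∧ ∀ A ρ R : ℕ, 1 ≤ A → 1 ≤ R → R ≤ ρ →
    ((((bx N1 A ×ˢ bx N3 ρ).filter fun t => 3 ≤ (cx T t.1).rank ∧
      g2 T t.1 t.2 = 0).card : ℕ) : ℝ) ≤
      C * ((A : ℝ) ^ N1 * (ρ : ℝ) ^ (N3 - 3) / R +
        (R : ℝ) ^ N3 * (A : ℝ) ^ (N1 - 1) * (ρ : ℝ) ^ (N3 - 3)))

/-- Module SP: a vector which is in the row spaces of all matrices. -/
def StmtSP : Prop := ∀ (N1 N3 : ℕ) (T : Fin N1 → Fin 3 → Fin N3 → ℤ) (v : Fin N3 → ℤ),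
  2 ≤ N1 → 4 ≤ N3 → Sm ℂ T → v ≠ 0 → ∃ f : MvPolynomial (Fin N1) ℤ, f ≠ 0 ∧
    ∀ x : Fin N1 → ℤ, evz f x ≠ 0 → ∃ z : Fin N3 → ℤ, Tx T x *ᵥ z = 0 ∧ v ⬝ᵥ z ≠ 0

/-- Module CH4: the way from a point of `U` to a point where `G` is not zero. -/
def StmtCH4 : Prop := ∀ (N1 N2 N3 : ℕ) (T : Fin N1 → Fin N2 → Fin N3 → ℤ), 3 ≤ N1 → 3 ≤ N2 →
  4 ≤ N3 → Sm ℂ T → ∀ G : MvPolynomial (Fin N1 ⊕ Fin N2 ⊕ Fin N3) ℤ,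
  (∃ (x : Fin N1 → ℂ) (y : Fin N2 → ℂ) (z : Fin N3 → ℂ), InV T G x y z) →
  ∀ (x : Fin N1 → ℤ) (y : Fin N2 → ℤ) (z : Fin N3 → ℤ), InU T x y z →
    3 ≤ (cx T x).rank → 3 ≤ (cx (s12 T) y).rank → 3 ≤ (cx (s12 (s23 T)) z).rank →
    ∃ (x1 x2 : Fin N1 → ℤ) (y1 y2 : Fin N2 → ℤ) (z1 z2 : Fin N3 → ℤ),
      tf T x1 y z = 0 ∧ g2 T x1 z ≠ 0 ∧ tf T x1 y1 z = 0 ∧ g3 T x1 y1 ≠ 0 ∧
      tf T x1 y1 z1 = 0 ∧ g1 T y1 z1 ≠ 0 ∧ tf T x2 y1 z1 = 0 ∧ g2 T x2 z1 ≠ 0 ∧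
      tf T x2 y2 z1 = 0 ∧ g3 T x2 y2 ≠ 0 ∧ tf T x2 y2 z2 = 0 ∧
      evz G (tri x2 y2 z2) ≠ 0

end Pool.Agent.T6.H81.BI
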