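import Mathlib
import Pool.Agent.T6.H81.BI.Defs
import Pool.Agent.T6.H81.BH.CH3
import Pool.Agent.T6.H81.BH.TLow

/-! Module CH4: the way from a point of `U` to a point where `G` is not zero. -/

set_option autoImplicit false

namespace Pool.Agent.T6.H81.BI

open Finset Module Matrix
open Pool.Agent.H548.TL (evz tf g1 g2 g3 s12 s23 Tx Sm InU InV tri)
open Pool.Agent.T6.H81.BH (cx)

namespace CH4

open Pool.Agent.T6.H81.BH.CH3 (sep exists_rows exists_minor rank_of_minor)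
open Pool.Agent.T6.H81.BH.TLow (exists_mp evz_mul)
open Pool.Agent.H548.TL (exists_ker Tx_mulVec vecMul_Tx Tx_add Tx_map g1_s12 g2_s12 g3_s12 g3_s23
  tf_g1 tf_g2 tf_g3 evz_int gen_pairs)

/-- The complex matrix of an integral matrix. -/
noncomputable def co {m n : ℕ} (M : Matrix (Fin m) (Fin n) ℤ) : Matrix (Fin m) (Fin n) ℂ :=
  M.map (Int.castRingHom ℂ)

theorem co_Tx {N1 N2 N3 : ℕ} (T : Fin N1 → Fin N2 → Fin N3 → ℤ) (x : Fin N1 → ℤ) :
    co (Tx T x) = cx T x := by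
  unfold co
  rw [Tx_map]
  rfl

theorem rank_cast {m n r : ℕ} (M : Matrix (Fin m) (Fin n) ℤ) (h : r ≤ (co M).rank) :
    r ≤ M.rank := by
  obtain ⟨g, c, hgc⟩ := exists_minor _ h
  apply rank_of_minor (g := g) (c := c)
  intro h0
  apply hgc
  unfold co
  rw [submatrix_map, ← RingHom.mapMatrix_apply, ← RingHom.map_det, h0, map_zero]

theorem co_dot {m n : ℕ} (M : Matrix (Fin m) (Fin n) ℤ) (z : Fin n → ℤ) (i : Fin m) :
    (co M) i ⬝ᵥ (fun k => ((z k : ℤ) : ℂ)) = (((M *ᵥ z) i : ℤ) : ℂ) := by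
  unfold co mulVec dotProduct
  simp

theorem rank_LI {r n : ℕ} (w : Fin r → Fin n → ℤ) (h : LinearIndependent ℤ w) :
    r ≤ (Matrix.of w).rank := by
  let φ : (Fin n → ℤ) →ₗ[ℤ] (Fin n → ℚ) :=
    { toFun := fun v k => ((v k : ℤ) : ℚ)
      map_add' := by intro a b; funext k; simp
      map_smul' := by intro a b; funext k; simp }
  have hφ : LinearMap.ker φ = ⊥ := by
    rw [LinearMap.ker_eq_bot']
    intro v hv
    funext k
    have := congrFun hv k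
    have h2 : ((v k : ℤ) : ℚ) = 0 := this
    exact_mod_cast h2
  have h1 := h.map' φ hφ
  rw [LinearIndependent.iff_fractionRing ℤ ℚ] at h1
  have h2 : r ≤ ((Matrix.of w).map (Int.castRingHom ℚ)).rank := by
    have h3 : LinearIndependent ℚ ((Matrix.of w).map (Int.castRingHom ℚ)).row := h1
    rw [h3.rank_matrix, Fintype.card_fin]
  obtain ⟨g, c, hgc⟩ := exists_minor _ h2
  apply rank_of_minor (g := g) (c := c)
  intro h0
  apply hgc
  rw [submatrix_map, ← RingHom.mapMatrix_apply, ← RingHom.map_det, h0, map_zero]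

/-- A vector orthogonal to the three rows of `P` which is not in the kernel of `M`. -/
theorem sepS {m n : ℕ} (M : Matrix (Fin m) (Fin n) ℤ) (P : Matrix (Fin 3) (Fin n) ℤ)
    (h3 : 3 ≤ (co M).rank)
    (h : 4 ≤ (co M).rank ∨ ∃ (i : Fin 3) (ζ : Fin n → ℤ), M *ᵥ ζ = 0 ∧ P i ⬝ᵥ ζ ≠ 0) :
    ∃ z, P *ᵥ z = 0 ∧ M *ᵥ z ≠ 0 := by
  rcases h with h | ⟨i, ζ, hζ, hi⟩
  · exact sep M P (by have := rank_cast M h; omega)
  · obtain ⟨g, hg⟩ := exists_rows _ h3
    set W : Matrix (Fin 4) (Fin n) ℤ := Matrix.of (Fin.cons (P i) (fun a : Fin 3 => M (g a)))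
      with hW
    have hli : LinearIndependent ℂ (co W).row := by
      have e : (co W).row = Fin.cons (fun k => ((P i k : ℤ) : ℂ)) (((co M).submatrix g id).row) := by
        funext a
        refine Fin.cases ?_ (fun b => ?_) a
        · rfl
        · rfl
      rw [e, linearIndependent_finCons]
      refine ⟨hg, ?_⟩
      intro hmem
      have hz : ∀ v ∈ Submodule.span ℂ (Set.range ((co M).submatrix g id).row),
          v ⬝ᵥ (fun k => ((ζ k : ℤ) : ℂ)) = 0 := by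
        intro v hv
        refine Submodule.span_induction ?_ ?_ ?_ ?_ hv
        · rintro _ ⟨a, rfl⟩
          have h8 := co_dot M ζ (g a)
          rw [hζ, Pi.zero_apply, Int.cast_zero] at h8
          exact h8
        · simp
        · intro a b _ _ ha hb
          rw [add_dotProduct, ha, hb, add_zero]
        · intro c a _ ha
          rw [smul_dotProduct, ha, smul_zero]
      have h5 := hz _ hmem
      apply hi
      have h6 : ((P i ⬝ᵥ ζ : ℤ) : ℂ) = 0 := by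
        rw [← h5]
        unfold dotProduct
        push_cast
        rfl
      exact_mod_cast h6
    have hr : 4 ≤ W.rank := by
      apply rank_cast
      rw [hli.rank_matrix, Fintype.card_fin]
    obtain ⟨z, hz1, hz2⟩ := sep W P (by omega)
    refine ⟨z, hz1, ?_⟩
    intro h0
    apply hz2
    funext a
    refine Fin.cases ?_ (fun b => ?_) a
    · exact congrFun hz1 i
    · exact congrFun h0 (g b)

theorem pick2 {n a b c : ℕ} (P : Matrix (Fin c) (Fin n) ℤ) (M1 : Matrix (Fin a) (Fin n) ℤ)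
    (M2 : Matrix (Fin b) (Fin n) ℤ) (h1 : ∃ z, P *ᵥ z = 0 ∧ M1 *ᵥ z ≠ 0)
    (h2 : ∃ z, P *ᵥ z = 0 ∧ M2 *ᵥ z ≠ 0) :
    ∃ z, P *ᵥ z = 0 ∧ M1 *ᵥ z ≠ 0 ∧ M2 *ᵥ z ≠ 0 := by
  obtain ⟨u, hu1, hu2⟩ := h1
  obtain ⟨w, hw1, hw2⟩ := h2
  by_cases hA : M2 *ᵥ u = 0
  · by_cases hB : M1 *ᵥ w = 0
    · refine ⟨u + w, ?_, ?_, ?_⟩
      · rw [mulVec_add, hu1, hw1, add_zero]
      · rw [mulVec_add, hB, add_zero]
        exact hu2
      · rw [mulVec_add, hA, zero_add]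
        exact hw2
    · exact ⟨w, hw1, hB, hw2⟩
  · exact ⟨u, hu1, hu2, hA⟩

/-! ### Linear polynomials -/

/-- The linear form with given coefficients. -/
noncomputable def lin {n : ℕ} (c : Fin n → ℤ) : MvPolynomial (Fin n) ℤ :=
  ∑ i, MvPolynomial.C (c i) * MvPolynomial.X i

theorem evz_lin {n : ℕ} (c v : Fin n → ℤ) : evz (lin c) v = c ⬝ᵥ v := by
  rw [evz_int]
  unfold lin dotProduct
  simp

theorem lin_ne {n : ℕ} {c : Fin n → ℤ} (h : c ≠ 0) : lin c ≠ 0 := by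
  intro h0
  apply h
  funext i
  have h1 := evz_lin c (Pi.single i 1)
  rw [h0, evz_int, map_zero, dotProduct_single, mul_one] at h1
  exact h1.symm

theorem int_pt {n : ℕ} {p : MvPolynomial (Fin n) ℤ} (hp : p ≠ 0) :
    ∃ v : Fin n → ℤ, evz p v ≠ 0 := by
  by_contra hcon
  push Not at hcon
  apply hp
  apply MvPolynomial.funext
  intro v
  rw [map_zero, ← evz_int]
  exact hcon v

/-! ### The two conditions -/

theorem condA (hSP : StmtSP) {N1 N2 N3 : ℕ} (T : Fin N1 → Fin N2 → Fin N3 → ℤ) (h1 : 3 ≤ N1)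
    (h2 : 3 ≤ N2) (h3 : 4 ≤ N3) (hs : Sm ℂ T) (v : Fin N3 → ℤ) (hv : v ≠ 0) :
    ∃ p : MvPolynomial (Fin N1) ℤ, p ≠ 0 ∧ ∀ x : Fin N1 → ℤ, evz p x ≠ 0 →
      (4 ≤ (cx T x).rank ∨ ∃ ζ : Fin N3 → ℤ, Tx T x *ᵥ ζ = 0 ∧ v ⬝ᵥ ζ ≠ 0) := by
  by_cases h4 : 4 ≤ N2
  · obtain ⟨p, hp, hp'⟩ := exists_mp (k := 4) (by omega) h4 h3 hs
    exact ⟨p, hp, fun x hx => Or.inl (hp' x hx)⟩
  · obtain rfl : N2 = 3 := by omega
    obtain ⟨p, hp, hp'⟩ := hSP N1 N3 T v (by omega) h3 hs hv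
    exact ⟨p, hp, fun x hx => Or.inr (hp' x hx)⟩

theorem condB (hW0 : StmtW0) {N1 N2 N3 : ℕ} (T : Fin N1 → Fin N2 → Fin N3 → ℤ) (h1 : 3 ≤ N1)
    (h2 : 3 ≤ N2) (h3 : 4 ≤ N3) (hs : Sm ℂ T) (y1 : Fin N2 → ℤ)
    (hy1 : 3 ≤ (cx (s12 T) y1).rank) :
    ∃ p : MvPolynomial (Fin N1) ℤ, p ≠ 0 ∧ ∀ x : Fin N1 → ℤ, evz p x ≠ 0 →
      ∃ q : MvPolynomial (Fin N2) ℤ, q ≠ 0 ∧ ∀ y : Fin N2 → ℤ, evz q y ≠ 0 →
        (4 ≤ (cx (s12 T) y1).rank ∨
          ∃ ζ : Fin N3 → ℤ, Tx (s12 T) y1 *ᵥ ζ = 0 ∧ g3 T x y ⬝ᵥ ζ ≠ 0) := by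
  by_cases hr : 4 ≤ (cx (s12 T) y1).rank
  · exact ⟨1, one_ne_zero, fun x _ => ⟨1, one_ne_zero, fun y _ => Or.inl hr⟩⟩
  · obtain ⟨f, hf⟩ := hW0 N1 N2 N3 T (by omega) h2 h3 hs
    have hrW := rank_LI _ hf
    rw [← co_Tx] at hy1 hr
    obtain ⟨g, hg⟩ := exists_rows _ hy1
    obtain ⟨ζ, hζ1, hζ2⟩ := sep (Matrix.of (fun a k => T (f a).1 (f a).2 k))
      ((Tx (s12 T) y1).submatrix g id) (by omega)
    -- the kernel of the three rows is the kernel
    have hspan : Submodule.span ℂ (Set.range ((co (Tx (s12 T) y1)).submatrix g id).row) =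
        Submodule.span ℂ (Set.range (co (Tx (s12 T) y1)).row) := by
      apply Submodule.eq_of_le_of_finrank_le
      · rw [Submodule.span_le]
        rintro _ ⟨a, rfl⟩
        exact Submodule.subset_span ⟨g a, rfl⟩
      · rw [← Matrix.rank_eq_finrank_span_row, finrank_span_eq_card hg, Fintype.card_fin]
        omega
    have hker : Tx (s12 T) y1 *ᵥ ζ = 0 := by
      have hz : ∀ v ∈ Submodule.span ℂ (Set.range ((co (Tx (s12 T) y1)).submatrix g id).row),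
          v ⬝ᵥ (fun k => ((ζ k : ℤ) : ℂ)) = 0 := by
        intro v hv
        refine Submodule.span_induction ?_ ?_ ?_ ?_ hv
        · rintro _ ⟨a, rfl⟩
          have h5 := co_dot (Tx (s12 T) y1) ζ (g a)
          have h6 : (Tx (s12 T) y1 *ᵥ ζ) (g a) = 0 := congrFun hζ1 a
          rw [h6, Int.cast_zero] at h5
          exact h5
        · simp
        · intro a b _ _ ha hb
          rw [add_dotProduct, ha, hb, add_zero]
        · intro c a _ ha
          rw [smul_dotProduct, ha, smul_zero]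
      funext i
      have h5 := hz ((co (Tx (s12 T) y1)).row i) (by
        rw [hspan]
        exact Submodule.subset_span ⟨i, rfl⟩)
      have h6 := co_dot (Tx (s12 T) y1) ζ i
      have h7 : (((Tx (s12 T) y1 *ᵥ ζ) i : ℤ) : ℂ) = 0 := by
        rw [← h6]
        exact h5
      exact_mod_cast h7
    obtain ⟨a, ha⟩ : ∃ a, (Matrix.of (fun a k => T (f a).1 (f a).2 k) *ᵥ ζ) a ≠ 0 := by
      by_contra hcon
      push Not at hcon
      exact hζ2 (funext hcon)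
    set i0 := (f a).1 with hi0
    set j0 := (f a).2 with hj0
    set c : Fin N1 → ℤ := fun i => ∑ k, T i j0 k * ζ k with hc
    have hc0 : c ≠ 0 := by
      intro h0
      apply ha
      exact congrFun h0 i0
    refine ⟨lin c, lin_ne hc0, ?_⟩
    intro x hx
    rw [evz_lin] at hx
    have hg2 : g2 T x ζ j0 = c ⬝ᵥ x := by
      unfold g2 dotProduct
      refine Finset.sum_congr rfl fun i _ => ?_
      rw [hc]
      simp only
      rw [Finset.sum_mul]
      refine Finset.sum_congr rfl fun k _ => ?_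
      rw [Int.cast_id]
      ring
    refine ⟨lin (g2 T x ζ), lin_ne ?_, ?_⟩
    · intro h0
      apply hx
      rw [← hg2, h0]
      rfl
    · intro y hy
      right
      refine ⟨ζ, hker, ?_⟩
      rw [evz_lin] at hy
      intro h0
      apply hy
      rw [dotProduct_comm, ← tf_g2, tf_g3, dotProduct_comm]
      exact h0

end CH4

open CH4 in
open Pool.Agent.T6.H81.BH.CH3 (sep) in
open Pool.Agent.T6.H81.BH.TLow (exists_mp evz_mul) in
open Pool.Agent.H548.TL (exists_ker Tx_mulVec vecMul_Tx Tx_add Tx_map g1_s12 g2_s12 g3_s12 g3_s23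
  tf_g1 tf_g2 tf_g3 evz_int gen_pairs) in
theorem cH4 (hW0 : StmtW0) (hSP : StmtSP) : StmtCH4 := by
  intro N1 N2 N3 T h1 h2 h3 hs G hG x y z hU hx hy hz
  -- the point y1
  obtain ⟨f2, hf2, hf2'⟩ := exists_mp (k := 3) (by omega : 1 ≤ N2) h1 (by omega : 3 ≤ N3) hs.s12
  obtain ⟨y1, hy1⟩ := int_pt hf2
  have hr1 := hf2' y1 hy1
  -- the point x1
  have eA : ∀ u : Fin N1 → ℤ, (Tx (s12 (s23 T)) z)ᵀ *ᵥ u = g2 T u z := by
    intro u
    rw [mulVec_transpose, vecMul_Tx, g3_s12, g3_s23]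
  have eB : ∀ u : Fin N1 → ℤ, (Tx (s12 T) y1)ᵀ *ᵥ u = g3 T u y1 := by
    intro u
    rw [mulVec_transpose, vecMul_Tx, g3_s12]
  have tco : ∀ {m n : ℕ} (M : Matrix (Fin m) (Fin n) ℤ), co Mᵀ = (co M)ᵀ := by
    intro m n M
    unfold co
    rw [transpose_map]
  obtain ⟨x1, hx1, hx1a, hx1b⟩ := pick2 (Matrix.of ![g1 T y z, g1 T y1 z])
    (Tx (s12 (s23 T)) z)ᵀ (Tx (s12 T) y1)ᵀ
    (sep _ _ (by
      have : 3 ≤ ((Tx (s12 (s23 T)) z)ᵀ).rank := by
        apply rank_cast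
        rw [tco, rank_transpose, co_Tx]
        exact hz
      omega))
    (sep _ _ (by
      have : 3 ≤ ((Tx (s12 T) y1)ᵀ).rank := by
        apply rank_cast
        rw [tco, rank_transpose, co_Tx]
        exact hr1
      omega))
  rw [eA] at hx1a
  rw [eB] at hx1b
  have hx1c : g1 T y z ⬝ᵥ x1 = 0 := congrFun hx1 0
  have hx1d : g1 T y1 z ⬝ᵥ x1 = 0 := congrFun hx1 1
  -- the polynomials
  obtain ⟨pA, hpA, hpA'⟩ := condA hSP T h1 h2 h3 hs _ hx1b
  obtain ⟨pB, hpB, hpB'⟩ := condB hW0 T h1 h2 h3 hs y1 hr1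
  obtain ⟨p3, hp3, hp3'⟩ := exists_mp (k := 3) (by omega : 1 ≤ N1) h2 (by omega : 3 ≤ N3) hs
  obtain ⟨f, D, h, hf, -, hfh, hhz⟩ := gen_pairs (T := T) (G := G) (by
    obtain ⟨a, b, c, hU', hz'⟩ := hG
    exact ⟨a, b, c, hU'.1, hU'.2.2.2, hz'⟩)
  obtain ⟨x2, hx2⟩ := int_pt (mul_ne_zero hpA (mul_ne_zero hpB (mul_ne_zero hp3 hf)))
  rw [evz_mul, evz_mul, evz_mul] at hx2
  have hx2A := hpA' x2 (left_ne_zero_of_mul hx2)
  have hx2B := hpB' x2 (left_ne_zero_of_mul (right_ne_zero_of_mul hx2))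
  have hx23 := hp3' x2 (left_ne_zero_of_mul (right_ne_zero_of_mul (right_ne_zero_of_mul hx2)))
  have hx2f : evz f x2 ≠ 0 :=
    right_ne_zero_of_mul (right_ne_zero_of_mul (right_ne_zero_of_mul hx2))
  rw [evz_int] at hx2f
  have hh := hfh x2 hx2f
  obtain ⟨q, hq, hq'⟩ := hx2B
  -- g3 is not zero for generic y2
  obtain ⟨k0, hk0⟩ : ∃ k0 : Fin N3, (fun j => Tx T x2 j k0) ≠ 0 := by
    by_contra hcon
    push Not at hcon
    have h0 : Tx T x2 = 0 := by
      ext j k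
      exact congrFun (hcon k) j
    rw [← co_Tx, h0] at hx23
    have h5 : co (0 : Matrix (Fin N2) (Fin N3) ℤ) = 0 := by
      unfold co
      ext i j
      simp
    rw [h5, rank_zero] at hx23
    omega
  obtain ⟨y2, hy2⟩ := int_pt (mul_ne_zero hq (mul_ne_zero hh (lin_ne hk0)))
  rw [evz_mul, evz_mul] at hy2
  have hy2q := hq' y2 (left_ne_zero_of_mul hy2)
  have hy2h : evz (h x2) y2 ≠ 0 := left_ne_zero_of_mul (right_ne_zero_of_mul hy2)
  have hy2l : evz (lin fun j => Tx T x2 j k0) y2 ≠ 0 :=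
    right_ne_zero_of_mul (right_ne_zero_of_mul hy2)
  rw [evz_lin] at hy2l
  rw [evz_int] at hy2h
  have hg3 : g3 T x2 y2 ≠ 0 := by
    intro h0
    apply hy2l
    have h5 : (y2 ᵥ* Tx T x2) k0 = 0 := by
      rw [vecMul_Tx, h0]
      rfl
    rw [dotProduct_comm]
    exact h5
  obtain ⟨z2, hz2a, hz2b⟩ := hhz x2 y2 hy2h
  -- the point z1
  obtain ⟨z1, hz1, hz1a, hz1b⟩ := pick2 (Matrix.of ![g3 T x1 y1, g3 T x2 y1, g3 T x2 y2])
    (Tx (s12 T) y1) (Tx T x2)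
    (sepS _ _ (by rw [co_Tx]; exact hr1) (by
      rw [co_Tx]
      rcases hy2q with h5 | ⟨ζ, h5, h6⟩
      · exact Or.inl h5
      · exact Or.inr ⟨2, ζ, h5, h6⟩))
    (sepS _ _ (by rw [co_Tx]; exact hx23) (by
      rw [co_Tx]
      rcases hx2A with h5 | ⟨ζ, h5, h6⟩
      · exact Or.inl h5
      · exact Or.inr ⟨0, ζ, h5, h6⟩))
  rw [Tx_mulVec, g2_s12] at hz1a
  rw [Tx_mulVec] at hz1b
  refine ⟨x1, x2, y1, y2, z1, z2, ?_, hx1a, ?_, hx1b, ?_, hz1a, ?_, hz1b, ?_, hg3, ?_, hz2b⟩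
  · rw [tf_g1, dotProduct_comm]
    exact hx1c
  · rw [tf_g1, dotProduct_comm]
    exact hx1d
  · rw [tf_g3, dotProduct_comm]
    exact congrFun hz1 0
  · rw [tf_g3, dotProduct_comm]
    exact congrFun hz1 1
  · rw [tf_g3, dotProduct_comm]
    exact congrFun hz1 2
  · rw [tf_g3, dotProduct_comm]
    exact hz2a

end Pool.Agent.T6.H81.BI
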