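import Mathlib
import Pool.Agent.T6.H81.BG.C3
import Pool.Agent.T6.H81.BI.Defs

/-!
Fibred sets with regions: counting in the fibres over the other blocks.
-/

set_option autoImplicit false

namespace Pool.Agent.T6.H81.BI

open Finset Module Matrix Filter Topology
open Pool.Agent.H548.WM (ht bx mem_bx Rep)
open Pool.Agent.H548.BL (lat mem_lat)
open Pool.Agent.T6.H81.BA (Cell)
open Pool.Agent.T6.H81.BG (Pt Bx StmtR3 C3.mem_Bx C3.card_fib)
open Pool.Agent.T6.H81.BH (StmtZ0)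
open Pool.Agent.T6.H81

variable {m : ℕ} {n r : Fin m → ℕ} {P : Pt n → Prop} {Q : Fin m → Pt n → Prop}
  {ι : Fin m → Type} [∀ v, Fintype (ι v)] {w : ∀ v, Pt n → ι v → Fin (n v) → ℤ}
  {Reg : Fin m → (Fin m → ℕ) → Prop}

open Classical in
/-- the leading coefficient of the number of the points in a fibre -/
theorem coef (hR3 : StmtR3) (v : Fin m) (hF : FT n r P Q ι w Reg) (N q : ℕ) (hq : 1 ≤ q) :
    ∃ C : ℝ, 0 ≤ C ∧ ∀ (f : Fin N → Fin (n v) → ℤ) (σ : Fin N → Bool) (r0 : Fin (n v) → ℤ)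
      (y : Pt n), ∃ c : ℝ, Q v y → ∀ ρ Y : ℕ, 1 ≤ ρ → ρ ≤ Y →
      |((((bx (n v) Y).filter fun z => z ∈ lat (w v y) ∧ Cell f σ q r0 z).card : ℕ) : ℝ) -
        c * (Y : ℝ) ^ (r v)| ≤ C * (1 + Real.log Y) * ((Y : ℝ) / ρ) ^ (r v - 1) *
          ((((bx (n v) ρ).filter fun z => z ∈ lat (w v y)).card : ℕ) : ℝ) := by
  have h1 := hF.card v
  have h2 := hF.r2 v
  obtain ⟨C, hC, h⟩ := hR3 (Fintype.card (ι v)) (n v) N q (by omega) hq
  refine ⟨C, hC, fun f σ r0 y => ?_⟩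
  by_cases hy : Q v y
  · obtain ⟨c, -, hc⟩ := h (fun i => w v y ((Fintype.equivFin (ι v)).symm i))
      ((hF.li v y hy).comp _ (Fintype.equivFin (ι v)).symm.injective) f σ r0
    refine ⟨c, fun _ ρ Y hρ hY => ?_⟩
    have h3 := hc ρ Y hρ hY
    have e : n v - Fintype.card (ι v) = r v := by omega
    rw [e] at h3
    simp only [BG.C3.lat_comp] at h3
    exact h3
  · exact ⟨0, fun h => (hy h).elim⟩

open Classical in
/-- The bound for the zeros in a fibre. -/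
theorem zf (hZ0 : StmtZ0) (hF : FT n r P Q ι w Reg) (v : Fin m) (D0 : ℕ) :
    ∃ C : ℝ, 0 ≤ C ∧ ∀ y : Pt n, Q v y →
      ∀ p : MvPolynomial (Fin (n v)) ℤ, p.totalDegree ≤ D0 →
        (∃ z ∈ lat (w v y), MvPolynomial.eval z p ≠ 0) → ∀ A : (Fin (n v) → ℤ) → Prop,
        (∀ z ∈ lat (w v y), A z → MvPolynomial.eval z p = 0) → ∀ ρ Y : ℕ, 1 ≤ ρ → ρ ≤ Y →
        ((((bx (n v) Y).filter fun z => z ∈ lat (w v y) ∧ A z).card : ℕ) : ℝ) ≤
          C * (1 + Real.log Y) * ((Y : ℝ) / ρ) ^ (r v - 1) *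
          ((((bx (n v) ρ).filter fun z => z ∈ lat (w v y)).card : ℕ) : ℝ) := by
  have h1 := hF.card v
  have h2 := hF.r2 v
  obtain ⟨C, hC, h⟩ := hZ0 (Fintype.card (ι v)) (n v) D0 (by omega)
  refine ⟨C, hC, fun y hy p hp hz A hA ρ Y hρ hY => ?_⟩
  have h3 := h (fun i => w v y ((Fintype.equivFin (ι v)).symm i))
      ((hF.li v y hy).comp _ (Fintype.equivFin (ι v)).symm.injective) p hp (by
        obtain ⟨z, hz1, hz2⟩ := hz
        exact ⟨z, (BG.C3.lat_comp _ _ _).2 hz1, hz2⟩) ρ Y hρ hY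
  have e : n v - Fintype.card (ι v) - 1 = r v - 1 := by omega
  rw [e] at h3
  simp only [BG.C3.lat_comp] at h3
  have h4 : (((bx (n v) Y).filter fun z => z ∈ lat (w v y) ∧ A z).card : ℕ) ≤
      (((bx (n v) Y).filter fun z => z ∈ lat (w v y) ∧ MvPolynomial.eval z p = 0).card : ℕ) := by
    apply card_le_card
    intro z hz
    rw [mem_filter] at hz ⊢
    exact ⟨hz.1, hz.2.1, hA z hz.2.1 hz.2.2⟩
  have h5 : ((((bx (n v) Y).filter fun z => z ∈ lat (w v y) ∧ A z).card : ℕ) : ℝ) ≤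
      ((((bx (n v) Y).filter fun z => z ∈ lat (w v y) ∧
        MvPolynomial.eval z p = 0).card : ℕ) : ℝ) := by exact_mod_cast h4
  refine (h5.trans h3).trans ?_
  have hY1 : (1 : ℝ) ≤ Y := by exact_mod_cast hρ.trans hY
  have hl : 1 ≤ 1 + Real.log Y := by
    have := Real.log_nonneg hY1
    linarith
  have hρ0 : (0 : ℝ) < ρ := by exact_mod_cast hρ
  have h6 : C * 1 ≤ C * (1 + Real.log Y) := by gcongr
  rw [mul_one] at h6
  gcongr

open Classical in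
/-- Counting in the fibres over the other blocks. -/
theorem c6 (hZ0 : StmtZ0) (hF : FT n r P Q ι w Reg) (v : Fin m)
    (T : Pt n → (Fin (n v) → ℤ) → Prop)
    (hT : ∀ x z z', T (Function.update x v z) z' ↔ T x z') (CR : ℝ) (hCR : 0 ≤ CR)
    (c : Pt n → ℝ) (hc : ∀ y, Q v y → ∀ ρ Y : ℕ, 1 ≤ ρ → ρ ≤ Y →
      |((((bx (n v) Y).filter fun z => z ∈ lat (w v y) ∧ T y z).card : ℕ) : ℝ) -
        c y * (Y : ℝ) ^ (r v)| ≤ CR * (1 + Real.log Y) * ((Y : ℝ) / ρ) ^ (r v - 1) *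
          ((((bx (n v) ρ).filter fun z => z ∈ lat (w v y)).card : ℕ) : ℝ)) :
    ∃ C δ : ℝ, 0 < δ ∧ ∀ X : Fin m → ℕ, (∀ u, 1 ≤ X u) → Reg v X →
    |((Bx n X fun x => P x ∧ T x (x v)).card : ℝ) -
      (∑ y ∈ Bx n (Function.update X v 0) (Q v), c y) * (X v : ℝ) ^ r v| ≤
      C * (∏ u, (X u : ℝ) ^ r u) * (X v : ℝ) ^ (-δ) := by
  obtain ⟨C1, δ, hC1, hδ, hnq⟩ := hF.nq v
  obtain ⟨D, hD⟩ := hF.gen v
  obtain ⟨C2, hC2, hz⟩ := zf hZ0 hF v D
  have updA : ∀ x z, Q v (Function.update x v z) ↔ Q v x := fun x z => hF.upd_Q v x z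
  refine ⟨(CR + C2) * (1 + 1 / (δ / 2)) * C1, δ / 2, by positivity, fun X hX hXR => ?_⟩
  have hXv1 : 1 ≤ X v := hX v
  have X1 : (1 : ℝ) ≤ X v := by exact_mod_cast hXv1
  have X0 : (0 : ℝ) < X v := by linarith
  obtain ⟨ρ, r3, r4, hρ⟩ := hnq X hX hXR
  have ρ0 : (0 : ℝ) < ρ := by exact_mod_cast r3
  obtain ⟨W, hW⟩ : ∃ W : ℝ, W = ∏ u ∈ univ.erase v, (X u : ℝ) ^ r u := ⟨_, rfl⟩
  have W0 : 0 ≤ W := by rw [hW]; exact Finset.prod_nonneg fun u _ => by positivity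
  have hprod : ∏ u, (X u : ℝ) ^ r u = W * (X v : ℝ) ^ r v := by
    rw [hW, mul_comm, Finset.mul_prod_erase univ (fun u => (X u : ℝ) ^ r u) (mem_univ v)]
  rw [← hW] at hρ
  -- the number of the points
  obtain ⟨G, hG⟩ : ∃ G : Finset (Pt n), G = Bx n X (fun x => Q v x ∧ (x v ∈ lat (w v x) ∧
    T x (x v))) := ⟨_, rfl⟩
  have cardG : G.card = ∑ y ∈ Bx n (Function.update X v 0) (Q v),
      ((bx (n v) (X v)).filter fun z => z ∈ lat (w v y) ∧ T y z).card := by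
    have h := C3.card_fib v X (Q v) updA (fun x z => z ∈ lat (w v x) ∧ T x z) (by
      intro x z z'
      rw [hF.upd_w, hT])
    rw [hG, h]
    refine Finset.sum_congr rfl fun y _ => ?_
    congr
  obtain ⟨F, hFF⟩ : ∃ F : Finset (Pt n), F = Bx n X (fun x => P x ∧ T x (x v)) := ⟨_, rfl⟩
  have FG : F ⊆ G := by
    intro x hx
    rw [hFF, C3.mem_Bx] at hx
    rw [hG, C3.mem_Bx]
    obtain ⟨h1, h2, h3⟩ := hx
    obtain ⟨h4, h5⟩ := hF.fib v x h2
    exact ⟨h1, h4, h5, h3⟩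
  obtain ⟨A, hA⟩ : ∃ A : Pt n → (Fin (n v) → ℤ) → Prop,
    ∀ y z, A y z ↔ ¬ P (Function.update y v z) := ⟨_, fun y z => Iff.rfl⟩
  have GF : G ⊆ F ∪ Bx n X (fun x => Q v x ∧ (x v ∈ lat (w v x) ∧ A x (x v))) := by
    intro x hx
    rw [hG, C3.mem_Bx] at hx
    obtain ⟨h1, h2, h4, h5⟩ := hx
    rw [mem_union]
    by_cases hP : P x
    · left
      rw [hFF, C3.mem_Bx]
      exact ⟨h1, hP, h5⟩
    · right
      rw [C3.mem_Bx, hA, Function.update_eq_self]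
      exact ⟨h1, h2, h4, hP⟩
  obtain ⟨Bd, hBd⟩ : ∃ Bd : Finset (Pt n), Bd = Bx n X (fun x => Q v x ∧ (x v ∈ lat (w v x) ∧
      A x (x v))) := ⟨_, rfl⟩
  rw [← hBd] at GF
  have cardB : Bd.card = ∑ y ∈ Bx n (Function.update X v 0) (Q v),
      ((bx (n v) (X v)).filter fun z => z ∈ lat (w v y) ∧ A y z).card := by
    have h := C3.card_fib v X (Q v) updA (fun x z => z ∈ lat (w v x) ∧ A x z) (by
      intro x z z'
      rw [hF.upd_w, hA, hA, Function.update_idem])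
    rw [hBd, h]
    refine Finset.sum_congr rfl fun y _ => ?_
    congr
  have c1 : (F.card : ℝ) ≤ G.card := by exact_mod_cast card_le_card FG
  have c2 : (G.card : ℝ) ≤ F.card + Bd.card := by
    exact_mod_cast (card_le_card GF).trans (card_union_le _ _)
  -- the small box
  have c4 : ∑ y ∈ Bx n (Function.update X v 0) (Q v),
      ((((bx (n v) ρ).filter fun z => z ∈ lat (w v y)).card : ℕ) : ℝ) ≤
      C1 * W * (ρ : ℝ) ^ (r v - 1) * (X v : ℝ) ^ (1 - δ) := by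
    have h1 := C3.card_fib v (Function.update X v ρ) (Q v) updA (fun x z => z ∈ lat (w v x)) (by
      intro x z z'
      rw [hF.upd_w])
    rw [Function.update_idem, Function.update_self] at h1
    rw [h1] at hρ
    refine le_trans (le_of_eq ?_) hρ
    push_cast
    rfl
  have l0 : 0 ≤ 1 + Real.log (X v) := by
    have := Real.log_nonneg X1
    linarith
  -- the bad points
  have c3 : (Bd.card : ℝ) ≤ C2 * (1 + Real.log (X v)) * ((X v : ℝ) / ρ) ^ (r v - 1) *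
      ∑ y ∈ Bx n (Function.update X v 0) (Q v),
      ((((bx (n v) ρ).filter fun z => z ∈ lat (w v y)).card : ℕ) : ℝ) := by
    rw [cardB, Finset.mul_sum]
    push_cast
    refine Finset.sum_le_sum fun y hy => ?_
    rw [C3.mem_Bx] at hy
    obtain ⟨g, hg1, hg2, hg3⟩ := hD y hy.2
    exact hz y hy.2 g hg1 hg2 (A y) (by
      intro z hzl hzP
      by_contra hne
      exact (hA y z).1 hzP (hg3 z hzl hne)) ρ (X v) r3 r4
  -- the main term
  have c5 : |(G.card : ℝ) - (∑ y ∈ Bx n (Function.update X v 0) (Q v), c y) * (X v : ℝ) ^ r v| ≤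
      CR * (1 + Real.log (X v)) * ((X v : ℝ) / ρ) ^ (r v - 1) *
      ∑ y ∈ Bx n (Function.update X v 0) (Q v),
      ((((bx (n v) ρ).filter fun z => z ∈ lat (w v y)).card : ℕ) : ℝ) := by
    rw [cardG, Finset.sum_mul, Finset.mul_sum]
    push_cast
    rw [← Finset.sum_sub_distrib]
    refine (Finset.abs_sum_le_sum_abs _ _).trans ?_
    refine Finset.sum_le_sum fun y hy => ?_
    rw [C3.mem_Bx] at hy
    exact hc y hy.2 ρ (X v) r3 r4
  obtain ⟨Sm0, hSm0⟩ : ∃ Sm0 : ℝ, Sm0 = ∑ y ∈ Bx n (Function.update X v 0) (Q v),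
      ((((bx (n v) ρ).filter fun z => z ∈ lat (w v y)).card : ℕ) : ℝ) := ⟨_, rfl⟩
  rw [← hSm0] at c3 c4 c5
  have hS0 : 0 ≤ Sm0 := by rw [hSm0]; positivity
  rw [← hFF, hprod]
  have c9 : |(F.card : ℝ) - (∑ y ∈ Bx n (Function.update X v 0) (Q v), c y) * (X v : ℝ) ^ r v| ≤
      (CR + C2) * (1 + Real.log (X v)) * ((X v : ℝ) / ρ) ^ (r v - 1) * Sm0 := by
    have k1 : |(F.card : ℝ) - G.card| ≤
        C2 * (1 + Real.log (X v)) * ((X v : ℝ) / ρ) ^ (r v - 1) * Sm0 := by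
      rw [abs_le]
      constructor
      · linarith
      · have : 0 ≤ C2 * (1 + Real.log (X v)) * ((X v : ℝ) / ρ) ^ (r v - 1) * Sm0 := by
          positivity
        linarith
    calc _ = |((F.card : ℝ) - G.card) + ((G.card : ℝ) -
          (∑ y ∈ Bx n (Function.update X v 0) (Q v), c y) * (X v : ℝ) ^ r v)| := by
          congr 1; ring
      _ ≤ _ := abs_add_le _ _
      _ ≤ _ := add_le_add k1 c5
      _ = _ := by ring
  refine c9.trans ?_
  have hlog : 1 + Real.log (X v) ≤ (1 + 1 / (δ / 2)) * (X v : ℝ) ^ (δ / 2) := by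
    have e1 := Real.log_le_rpow_div X0.le (half_pos hδ)
    have e2 : (1 : ℝ) ≤ (X v : ℝ) ^ (δ / 2) := Real.one_le_rpow X1 (half_pos hδ).le
    have e3 : (X v : ℝ) ^ (δ / 2) / (δ / 2) = 1 / (δ / 2) * (X v : ℝ) ^ (δ / 2) := by ring
    rw [e3] at e1
    linarith
  obtain ⟨a, ha⟩ : ∃ a, r v = a + 1 := ⟨r v - 1, by have := hF.r2 v; omega⟩
  rw [ha, Nat.add_sub_cancel] at c4 ⊢
  have e5 : (X v : ℝ) ^ (-(δ / 2)) = (X v : ℝ) ^ (δ / 2) * (X v : ℝ) ^ (1 - δ) / (X v : ℝ) := by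
    rw [← Real.rpow_add X0, eq_div_iff X0.ne']
    conv_lhs => rw [← Real.rpow_one (X v : ℝ), ← Real.rpow_mul X0.le, ← Real.rpow_add X0]
    congr 1
    ring
  calc (CR + C2) * (1 + Real.log (X v)) * ((X v : ℝ) / ρ) ^ a * Sm0
      ≤ (CR + C2) * ((1 + 1 / (δ / 2)) * (X v : ℝ) ^ (δ / 2)) * ((X v : ℝ) / ρ) ^ a *
        (C1 * W * (ρ : ℝ) ^ a * (X v : ℝ) ^ (1 - δ)) := by gcongr
    _ = _ := by
      rw [e5, div_pow, pow_succ (X v : ℝ) a]
      generalize (X v : ℝ) ^ (δ / 2) = p1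
      generalize (X v : ℝ) ^ (1 - δ) = p2
      field_simp

end Pool.Agent.T6.H81.BI
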