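import Mathlib
import Pool.Agent.T6.H81.BG.A3
import Pool.Agent.T6.H81.BH.Cut
import Pool.Agent.T6.H81.BI.C6

/-!
Fibred sets with regions: all heights (after `BG.A3`), and few points on a hypersurface (after
`BH.Neg`).
-/

set_option autoImplicit false

namespace Pool.Agent.T6.H81.BI

open Finset Module Matrix Filter Topology
open Pool.Agent.H548.WM (ht bx mem_bx Rep ht_pos)
open Pool.Agent.H548.BL (lat mem_lat rep_ne)
open Pool.Agent.H548.TL (evz evz_map evz_int deg_evz)
open Pool.Agent.T6.H5.TW (fl MultiDeg)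
open Pool.Agent.T6.H81.BA (Cell cell_pos gcd_ne)
open Pool.Agent.T6.H81.BG (Pt Bx StmtR3 StmtP3 StmtH3 StmtW3 StmtZ3 CellT cellT_iff RepOK rep_iff
  fin_aux Cone LFs ic Phs mem_Bx C3.mem_Bx)
open Pool.Agent.T6.H81.BH (StmtZ0 StmtPol Gd PolyW rs eval_rs deg_rs gd_upd)
open Pool.Agent.T6.H81

/-- From cells to all heights. -/
theorem am_lim' (hW : StmtW3) (hZ : StmtZ3) {m : ℕ}
    {n r : Fin (m + 1) → ℕ} {P : Pt n → Prop} (hr1 : ∀ v, 1 ≤ r v)
    (hca : ∀ (κ : Fin (m + 1) → Type) [∀ v, Fintype (κ v)] (f : ∀ v, κ v → Fin (n v) → ℤ)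
      (σ : ∀ v, κ v → Bool) (q : ℕ) (_ : 1 ≤ q) (r0 : Pt n),
      ∃ c : ℝ, Tendsto (fun B : ℝ => ({x : Pt n | (P x ∧
        ∀ v, CellT (f v) (σ v) q (r0 v) (x v)) ∧
        ∏ v, (ht (x v) : ℝ) ^ r v ≤ B}.ncard : ℝ) / (B * Real.log B ^ m)) atTop (𝓝 c))
    (X0 : Set (∀ v, Fin (n v) → ℝ))
    (X : ∀ p : Nat.Primes, Set (∀ v, Fin (n v) → ℚ_[p])) (hX0 : Cone X0) (hX : ∀ p, Cone (X p))
    (hP0 : ∀ x, P x → ic ℝ x ∈ X0) (hPp : ∀ x, P x → ∀ p : Nat.Primes, ic ℚ_[p] x ∈ X p)
    (ψ : (∀ v, Fin (n v) → ℝ) → ℝ) (S : Finset Nat.Primes)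
    (φ : ∀ p : Nat.Primes, (∀ v, Fin (n v) → ℚ_[p]) → ℝ) (hψ : LFs X0 ψ)
    (hφ : ∀ p ∈ S, LFs (X p) (φ p)) :
    ∃ c : ℝ, Tendsto (fun B : ℝ => ({x : Pt n | (∀ v, Rep (x v)) ∧ P x ∧
      (∏ v, (ht (x v) : ℝ) ^ r v) * Phs ψ S φ x ≤ B}.ncard : ℝ) / (B * Real.log B ^ m))
      atTop (𝓝 c) := by
  classical
  obtain ⟨⟨m0, m1, hm0, hmm⟩, hcells⟩ := hZ (m + 1) n X0 X ψ S φ hX0 hX hψ hφ
  set QQ : Set (Pt n) := {x | (∀ v, Rep (x v)) ∧ P x} with hQQ
  have hpos : ∀ x ∈ QQ, ∀ v, 1 ≤ ht (x v) := fun x hx v => ht_pos (rep_ne (hx.1 v))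
  have key := hW m (Pt n) QQ (fun x => ∏ v, (ht (x v) : ℝ) ^ r v) (fun x => Phs ψ S φ x) m0 m1 hm0
    (fun x hx => hmm x (fun v => rep_ne (hx.1 v)) (hP0 x hx.2) (fun p _ => hPp x hx.2 p))
    (fun x hx => by
      have h3 : ∀ u, (1 : ℝ) ≤ (ht (x u) : ℝ) ^ r u := fun u =>
        one_le_pow₀ (by exact_mod_cast hpos x hx u)
      have : ∏ u : Fin (m + 1), (1 : ℝ) ≤ ∏ u, (ht (x u) : ℝ) ^ r u :=
        Finset.prod_le_prod (fun _ _ => zero_le_one) fun u _ => h3 u
      simpa using this)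
    (fun B => fin_aux hr1 QQ hpos B) (by
    intro ε hε
    obtain ⟨N, f, q, hq, hcell⟩ := hcells ε hε
    have : NeZero q := ⟨by omega⟩
    refine ⟨∀ v, (Fin N → Bool) × (Fin (n v) → Bool × Bool) × (Fin (n v) → ZMod q), inferInstance,
      fun x v => (fun i => decide (0 ≤ f v i ⬝ᵥ x v),
        fun i => (decide (0 ≤ x v i), decide (0 ≤ -x v i)), fun j => ((x v j : ℤ) : ZMod q)),
      ?_, ?_⟩
    · rintro x ⟨h1, h2⟩ x' ⟨h1', h2'⟩ heq
      apply hcell x x' (fun v => (h1 v).1) (fun v => (h1' v).1) (hP0 x h2) (fun p _ => hPp x h2 p)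
        (hP0 x' h2') (fun p _ => hPp x' h2' p)
      · intro v j
        have h3 := congrFun heq v
        simp only [Prod.mk.injEq] at h3
        exact (ZMod.intCast_eq_intCast_iff_dvd_sub _ _ _).1 (congrFun h3.2.2 j)
      · intro v i
        have h3 := congrFun heq v
        simp only [Prod.mk.injEq] at h3
        have h4 := congrFun h3.1 i
        simp only [decide_eq_decide] at h4
        exact h4.symm
    · intro i
      by_cases hi : ∀ v, RepOK (i v).2.1
      · obtain ⟨c, hc⟩ := hca (fun v => Fin N ⊕ (Fin (n v) ⊕ Fin (n v)))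
          (fun v => Sum.elim (f v) (Sum.elim (fun j => Pi.single j 1) (fun j => Pi.single j (-1))))
          (fun v => Sum.elim (i v).1 (Sum.elim (fun j => ((i v).2.1 j).1)
            (fun j => ((i v).2.1 j).2))) q hq (fun v j => (((i v).2.2 j).val : ℤ))
        refine ⟨c, hc.congr fun B => ?_⟩
        congr 3
        ext x
        rw [Set.mem_ofPred_eq, Set.mem_ofPred_eq]
        have hmod : ∀ (v : Fin (m + 1)) (ρ : Fin (n v) → ZMod q),
            (fun j => ((x v j : ℤ) : ZMod q)) = ρ ↔ ∀ j, (q : ℤ) ∣ x v j - ((ρ j).val : ℤ) := by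
          intro v ρ
          rw [funext_iff]
          refine forall_congr' fun j => ?_
          rw [← ZMod.intCast_eq_intCast_iff_dvd_sub]
          push_cast
          rw [ZMod.natCast_zmod_val]
          exact eq_comm
        have hcl : ∀ v, CellT (Sum.elim (f v) (Sum.elim (fun j => Pi.single j 1)
            (fun j => Pi.single j (-1)))) (Sum.elim (i v).1 (Sum.elim (fun j => ((i v).2.1 j).1)
            (fun j => ((i v).2.1 j).2))) q (fun j => (((i v).2.2 j).val : ℤ)) (x v) ↔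
            univ.gcd (x v) = 1 ∧ ((fun i => decide (0 ≤ f v i ⬝ᵥ x v),
              fun i => (decide (0 ≤ x v i), decide (0 ≤ -x v i)),
              fun j => ((x v j : ℤ) : ZMod q)) : (Fin N → Bool) × (Fin (n v) → Bool × Bool) ×
              (Fin (n v) → ZMod q)) = i v := by
          intro v
          unfold CellT
          refine and_congr_right fun _ => ?_
          rw [Prod.ext_iff, Prod.ext_iff]
          simp only [hmod]
          constructor
          · rintro ⟨h1, h2⟩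
            refine ⟨?_, ?_, h1⟩
            · funext j
              have := h2 (Sum.inl j)
              simp only [Sum.elim_inl] at this
              cases hb : (i v).1 j
              · rw [hb] at this
                simpa using this
              · rw [hb] at this
                simpa using this
            · funext j
              have h3 := h2 (Sum.inr (Sum.inl j))
              have h4 := h2 (Sum.inr (Sum.inr j))
              simp only [Sum.elim_inr, Sum.elim_inl, single_dotProduct, one_mul, neg_mul]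
                at h3 h4
              apply Prod.ext
              · show decide (0 ≤ x v j) = ((i v).2.1 j).1
                cases hb : ((i v).2.1 j).1
                · rw [hb] at h3
                  simpa using h3
                · rw [hb] at h3
                  simpa using h3
              · show decide (0 ≤ -x v j) = ((i v).2.1 j).2
                cases hb : ((i v).2.1 j).2
                · rw [hb] at h4
                  simpa using h4
                · rw [hb] at h4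
                  simpa using h4
          · rintro ⟨h1, h2, h3⟩
            refine ⟨h3, ?_⟩
            rintro (j | j | j)
            · have := congrFun h1 j
              simp only [Sum.elim_inl]
              rw [← this]
              simp
            · have := congrArg Prod.fst (congrFun h2 j)
              simp only [Sum.elim_inr, Sum.elim_inl, single_dotProduct, one_mul]
              rw [← this]
              simp
            · have := congrArg Prod.snd (congrFun h2 j)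
              simp only [Sum.elim_inr, single_dotProduct, one_mul, neg_mul]
              rw [← this]
              simp
        constructor
        · rintro ⟨⟨h1, h2⟩, h3⟩
          have h4 : ∀ v, _ := fun v => (hcl v).1 (h2 v)
          refine ⟨⟨fun v => ?_, h1⟩, ?_, h3⟩
          · rw [rep_iff]
            refine ⟨(h4 v).1, ?_⟩
            have h5 := hi v
            rw [← (h4 v).2] at h5
            exact h5
          · funext v
            exact (h4 v).2
        · rintro ⟨⟨h1, h2⟩, h3, h4⟩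
          refine ⟨⟨h2, fun v => (hcl v).2 ⟨(h1 v).1, congrFun h3 v⟩⟩, h4⟩
      · refine ⟨0, ?_⟩
        have h0 : ∀ B : ℝ, {x | x ∈ QQ ∧ (fun v => ((fun i => decide (0 ≤ f v i ⬝ᵥ x v),
            fun i => (decide (0 ≤ x v i), decide (0 ≤ -x v i)),
            fun j => ((x v j : ℤ) : ZMod q)) : (Fin N → Bool) × (Fin (n v) → Bool × Bool) ×
              (Fin (n v) → ZMod q))) = i ∧ ∏ v, (ht (x v) : ℝ) ^ r v ≤ B} = ∅ := by
          intro B
          rw [Set.eq_empty_iff_forall_notMem]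
          rintro x ⟨⟨h1, -⟩, h2, -⟩
          apply hi
          intro v
          rw [← h2]
          exact ((rep_iff (x v)).1 (h1 v)).2
        simp only [h0, Set.ncard_empty, Nat.cast_zero, zero_div]
        exact tendsto_const_nhds)
  obtain ⟨c, hc⟩ := key
  refine ⟨c, hc.congr fun B => ?_⟩
  congr 3
  ext x
  exact and_assoc


/-! ### Cells -/

section general

variable {m : ℕ} {n r : Fin m → ℕ} {P : Pt n → Prop} {Q : Fin m → Pt n → Prop}
  {ι : Fin m → Type} [∀ v, Fintype (ι v)] {w : ∀ v, Pt n → ι v → Fin (n v) → ℤ}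
  {Reg : Fin m → (Fin m → ℕ) → Prop}

open Classical in
theorem c6cell (hR3 : StmtR3) (hZ0 : StmtZ0) (hF : FT n r P Q ι w Reg) (v : Fin m) (N : ℕ)
    (f : Fin N → Fin (n v) → ℤ) (σ : Fin N → Bool) (q : ℕ) (r0 : Fin (n v) → ℤ) (hq : 1 ≤ q)
    (R : ∀ u, (Fin (n u) → ℤ) → Prop) (hR : ∀ z, R v z ↔ Cell f σ q r0 z) :
    ∃ (S : (Fin m → ℕ) → ℝ) (C δ : ℝ), 0 < δ ∧ ∀ X : Fin m → ℕ, (∀ u, 1 ≤ X u) → Reg v X →
    |((Bx n X fun x => P x ∧ ∀ u, R u (x u)).card : ℝ) -
      S (Function.update X v 0) * (X v : ℝ) ^ r v| ≤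
      C * (∏ u, (X u : ℝ) ^ r u) * (X v : ℝ) ^ (-δ) := by
  obtain ⟨C2, hC2, h2⟩ := coef hR3 v hF N q hq
  choose c hc using h2 f σ r0
  obtain ⟨T, hT⟩ : ∃ T : Pt n → (Fin (n v) → ℤ) → Prop, T = fun y z =>
    (∀ u, u ≠ v → R u (y u)) ∧ R v z := ⟨_, rfl⟩
  have hTi : ∀ y z, T y z ↔ (∀ u, u ≠ v → R u (y u)) ∧ R v z := by
    intro y z
    rw [hT]
  obtain ⟨c', hc'⟩ : ∃ c' : Pt n → ℝ, c' = fun y =>
    if (∀ u, u ≠ v → R u (y u)) then c y else 0 := ⟨_, rfl⟩
  obtain ⟨C, δ, hδ, h⟩ := c6 hZ0 hF v T (by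
    intro x z z'
    rw [hTi, hTi]
    have : (∀ u, u ≠ v → R u (Function.update x v z u)) ↔ ∀ u, u ≠ v → R u (x u) := by
      refine forall_congr' fun u => imp_congr_right fun hu => ?_
      rw [Function.update_of_ne hu]
    rw [this]) C2 hC2 c' (by
    intro y hy ρ Y hρ hY
    have hY1 : (1 : ℝ) ≤ Y := by exact_mod_cast hρ.trans hY
    have hl : 0 ≤ 1 + Real.log Y := by
      have := Real.log_nonneg hY1
      linarith
    have hρ0 : (0 : ℝ) < ρ := by exact_mod_cast hρ
    by_cases hg : ∀ u, u ≠ v → R u (y u)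
    · have e1 : c' y = c y := by
        rw [hc']
        exact if_pos hg
      have h3 := hc y hy ρ Y hρ hY
      have e2 : ((bx (n v) Y).filter fun z => z ∈ lat (w v y) ∧ T y z) =
          (bx (n v) Y).filter fun z => z ∈ lat (w v y) ∧ Cell f σ q r0 z := by
        ext z
        rw [mem_filter, mem_filter]
        refine and_congr_right fun _ => and_congr_right fun hzl => ?_
        rw [hTi, ← hR]
        exact ⟨fun h => h.2, fun h => ⟨hg, h⟩⟩
      rw [e1, e2]
      exact h3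
    · have e1 : c' y = 0 := by
        rw [hc']
        exact if_neg hg
      have e2 : ((bx (n v) Y).filter fun z => z ∈ lat (w v y) ∧ T y z) = ∅ := by
        rw [Finset.filter_eq_empty_iff]
        rintro z - ⟨-, h4⟩
        exact hg ((hTi _ _).1 h4).1
      rw [e1, e2, zero_mul, sub_zero, card_empty, Nat.cast_zero, abs_zero]
      positivity)
  refine ⟨fun X' => ∑ y ∈ Bx n X' (Q v), c' y, C, δ, hδ, fun X hX hXv => ?_⟩
  have h3 := h X hX hXv
  have e1 : (Bx n X fun x => P x ∧ ∀ u, R u (x u)) = Bx n X fun x => P x ∧ T x (x v) := by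
    congr 1
    funext x
    rw [hTi]
    apply propext
    constructor
    · rintro ⟨a1, a2⟩
      exact ⟨a1, fun u _ => a2 u, a2 v⟩
    · rintro ⟨a1, a2, a3⟩
      refine ⟨a1, fun u => ?_⟩
      by_cases hu : u = v
      · subst hu
        exact a3
      · exact a2 u hu
  show |((Bx n X fun x => P x ∧ ∀ u, R u (x u)).card : ℝ) - _| ≤ _
  rw [e1]
  exact h3

open Classical in
/-- Few points with a property which is thin in the fibres. -/
theorem zs (hZ0 : StmtZ0) (hF : FT n r P Q ι w Reg) (v : Fin m) (D0 : ℕ) (Bad : Pt n → Prop)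
    (hB : ∀ y : Pt n, Q v y → ∃ p : MvPolynomial (Fin (n v)) ℤ, p.totalDegree ≤ D0 ∧
        (∃ z ∈ lat (w v y), MvPolynomial.eval z p ≠ 0) ∧
        (∀ z ∈ lat (w v y), Bad (Function.update y v z) → MvPolynomial.eval z p = 0)) :
    ∃ C δ : ℝ, 0 < δ ∧ ∀ X : Fin m → ℕ, (∀ u, 1 ≤ X u) → Reg v X →
      ((Bx n X fun x => P x ∧ Bad x).card : ℝ) ≤
        C * (∏ u, (X u : ℝ) ^ r u) * (X v : ℝ) ^ (-δ) := by
  obtain ⟨C, hC, h⟩ := zf hZ0 hF v D0
  obtain ⟨C', δ, hδ, h'⟩ := c6 hZ0 hF v (fun y z => Bad (Function.update y v z)) (by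
    intro x z z'
    simp only [Function.update_idem]) C hC (fun _ => 0) (by
    intro y hy ρ Y hρ hY
    obtain ⟨p, hp1, hp2, hp3⟩ := hB y hy
    have h1 := h y hy p hp1 hp2 (fun z => Bad (Function.update y v z)) hp3 ρ Y hρ hY
    rw [zero_mul, sub_zero, abs_of_nonneg (by positivity)]
    exact h1)
  refine ⟨C', δ, hδ, fun X hX hXv => ?_⟩
  have h1 := h' X hX hXv
  rw [Finset.sum_const_zero, zero_mul, sub_zero, abs_of_nonneg (by positivity)] at h1
  have h2 : (Bx n X fun x => P x ∧ Bad x) =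
      (Bx n X fun x => P x ∧ Bad (Function.update x v (x v))) := by
    congr 1
    funext x
    rw [Function.update_eq_self]
  rw [h2]
  exact h1

open Classical in
/-- The boxes in all regions. -/
theorem diag (hZ0 : StmtZ0) (hPol : StmtPol) (hF : FT n r P Q ι w Reg) (hW : PolyW w)
    (G : MvPolynomial (Σ i, Fin (n i)) ℤ) (l : List (Fin m)) :
    ∃ C δ : ℝ, 0 ≤ C ∧ 0 < δ ∧ ∀ X : Fin m → ℕ, (∀ u, 1 ≤ X u) → (∀ v, Reg v X) →
      ((Bx n X fun x => P x ∧ Gd w G l x ∧ evz G (fl x) = 0).card : ℝ) ≤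
        C * (∏ u, (X u : ℝ) ^ r u) * ∑ u, (X u : ℝ) ^ (-δ) := by
  induction l with
  | nil =>
    refine ⟨0, 1, le_rfl, one_pos, fun X hX _ => ?_⟩
    have h1 : (Bx n X fun x => P x ∧ Gd w G [] x ∧ evz G (fl x) = 0) = ∅ := by
      rw [Finset.eq_empty_iff_forall_notMem]
      intro x hx
      rw [BG.C3.mem_Bx] at hx
      exact hx.2.2.1 hx.2.2.2
    rw [h1]
    simp
  | cons v l ih =>
    obtain ⟨C1, δ1, hC1, hδ1, h1⟩ := ih
    obtain ⟨D0, hD0⟩ := hPol m n ι w hW G l
    obtain ⟨C2, δ2, hδ2, h2⟩ := zs hZ0 hF v D0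
      (fun x => Gd w G (v :: l) x ∧ ¬ Gd w G l x) (by
      intro y hy
      by_cases hg : Gd w G (v :: l) y
      · obtain ⟨hli, z0, hz0, hz1⟩ := hg
        obtain ⟨g, hg1, hg2, hg3⟩ := hD0 _ hz1
        refine ⟨rs y v g, (deg_rs y v g).trans hg1, ⟨z0, hz0, ?_⟩, ?_⟩
        · rw [eval_rs]
          exact hg2
        · intro z hz hbad
          rw [eval_rs]
          by_contra hne
          exact hbad.2 (hg3 _ hne)
      · refine ⟨1, by simp, ⟨0, AddSubgroup.zero_mem _, by simp⟩, ?_⟩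
        intro z hz hbad
        exact absurd ((gd_upd hF.upd_w G v l y z).1 hbad.1) hg)
    refine ⟨C1 + |C2|, min δ1 δ2, by positivity, lt_min hδ1 hδ2, fun X hX hR => ?_⟩
    have hX1 : ∀ u, (1 : ℝ) ≤ X u := fun u => by exact_mod_cast hX u
    have hsub : (Bx n X fun x => P x ∧ Gd w G (v :: l) x ∧ evz G (fl x) = 0) ⊆
        (Bx n X fun x => P x ∧ Gd w G l x ∧ evz G (fl x) = 0) ∪
        (Bx n X fun x => P x ∧ (Gd w G (v :: l) x ∧ ¬ Gd w G l x)) := by
      intro x hx
      rw [BG.C3.mem_Bx] at hx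
      rw [mem_union, BG.C3.mem_Bx, BG.C3.mem_Bx]
      by_cases hg : Gd w G l x
      · exact Or.inl ⟨hx.1, hx.2.1, hg, hx.2.2.2⟩
      · exact Or.inr ⟨hx.1, hx.2.1, hx.2.2.1, hg⟩
    have h3 : ((Bx n X fun x => P x ∧ Gd w G (v :: l) x ∧ evz G (fl x) = 0).card : ℝ) ≤
        ((Bx n X fun x => P x ∧ Gd w G l x ∧ evz G (fl x) = 0).card : ℝ) +
        ((Bx n X fun x => P x ∧ (Gd w G (v :: l) x ∧ ¬ Gd w G l x)).card : ℝ) := by
      exact_mod_cast (card_le_card hsub).trans (card_union_le _ _)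
    have h4 := h1 X hX hR
    have h5 := h2 X hX (hR v)
    have hp : 0 ≤ ∏ u : Fin m, (X u : ℝ) ^ r u := Finset.prod_nonneg fun u _ => by positivity
    have e1 : ∑ u, (X u : ℝ) ^ (-δ1) ≤ ∑ u, (X u : ℝ) ^ (-(min δ1 δ2)) :=
      Finset.sum_le_sum fun u _ =>
        Real.rpow_le_rpow_of_exponent_le (hX1 u) (neg_le_neg (min_le_left _ _))
    have e2 : (X v : ℝ) ^ (-δ2) ≤ ∑ u, (X u : ℝ) ^ (-(min δ1 δ2)) :=
      (Real.rpow_le_rpow_of_exponent_le (hX1 v) (neg_le_neg (min_le_right _ _))).trans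
        (Finset.single_le_sum (f := fun u => (X u : ℝ) ^ (-(min δ1 δ2)))
          (fun u _ => by positivity) (mem_univ v))
    have e3 : 0 ≤ (X v : ℝ) ^ (-δ2) := by positivity
    have h6 : C2 * (∏ u : Fin m, (X u : ℝ) ^ r u) * (X v : ℝ) ^ (-δ2) ≤
        |C2| * (∏ u : Fin m, (X u : ℝ) ^ r u) * ∑ u, (X u : ℝ) ^ (-(min δ1 δ2)) := by
      calc C2 * (∏ u : Fin m, (X u : ℝ) ^ r u) * (X v : ℝ) ^ (-δ2) ≤
          |C2| * (∏ u : Fin m, (X u : ℝ) ^ r u) * (X v : ℝ) ^ (-δ2) := by
            gcongr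
            exact le_abs_self _
        _ ≤ _ := by gcongr
    have h7 : C1 * (∏ u : Fin m, (X u : ℝ) ^ r u) * ∑ u, (X u : ℝ) ^ (-δ1) ≤
        C1 * (∏ u : Fin m, (X u : ℝ) ^ r u) * ∑ u, (X u : ℝ) ^ (-(min δ1 δ2)) := by gcongr
    have h8 : (C1 + |C2|) * (∏ u : Fin m, (X u : ℝ) ^ r u) * ∑ u, (X u : ℝ) ^ (-(min δ1 δ2)) =
        C1 * (∏ u : Fin m, (X u : ℝ) ^ r u) * ∑ u, (X u : ℝ) ^ (-(min δ1 δ2)) +
        |C2| * (∏ u : Fin m, (X u : ℝ) ^ r u) * ∑ u, (X u : ℝ) ^ (-(min δ1 δ2)) := by ring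
    rw [h8]
    linarith

open Classical in
/-- The points on a hypersurface: counting in the fibres. -/
theorem asyv (hR3 : StmtR3) (hZ0 : StmtZ0) (hF : FT n r P Q ι w Reg)
    (G : MvPolynomial (Σ i, Fin (n i)) ℤ) (v : Fin m) :
    ∃ (S : (Fin m → ℕ) → ℝ) (C δ : ℝ), 0 < δ ∧ ∀ X : Fin m → ℕ, (∀ u, 1 ≤ X u) → Reg v X →
      |((Bx n X fun x => P x ∧ (∀ u, univ.gcd (x u) = 1) ∧ evz G (fl x) = 0).card : ℝ) -
      S (Function.update X v 0) * (X v : ℝ) ^ r v| ≤
      C * (∏ u, (X u : ℝ) ^ r u) * (X v : ℝ) ^ (-δ) := by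
  obtain ⟨C1, hC1, h1⟩ := zf hZ0 hF v G.totalDegree
  obtain ⟨C2, hC2, h2⟩ := coef hR3 v hF 0 1 le_rfl
  choose c hc using h2 (fun i => i.elim0) (fun i => i.elim0) 0
  obtain ⟨T, hT⟩ : ∃ T : Pt n → (Fin (n v) → ℤ) → Prop, T = fun y z =>
    (∀ u, u ≠ v → univ.gcd (y u) = 1) ∧
    univ.gcd z = 1 ∧ evz G (fl (Function.update y v z)) = 0 := ⟨_, rfl⟩
  have hTi : ∀ y z, T y z ↔ (∀ u, u ≠ v → univ.gcd (y u) = 1) ∧
    univ.gcd z = 1 ∧ evz G (fl (Function.update y v z)) = 0 := by
    intro y z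
    rw [hT]
  obtain ⟨c', hc'⟩ : ∃ c' : Pt n → ℝ, c' = fun y => if (∀ u, u ≠ v → univ.gcd (y u) = 1) ∧
    ∀ z ∈ lat (w v y), evz G (fl (Function.update y v z)) = 0 then c y else 0 := ⟨_, rfl⟩
  obtain ⟨C, δ, hδ, h⟩ := c6 hZ0 hF v T (by
    intro x z z'
    rw [hT]
    show ((∀ u, u ≠ v → univ.gcd (Function.update x v z u) = 1) ∧ univ.gcd z' = 1 ∧
      evz G (fl (Function.update (Function.update x v z) v z')) = 0) ↔
      ((∀ u, u ≠ v → univ.gcd (x u) = 1) ∧ univ.gcd z' = 1 ∧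
      evz G (fl (Function.update x v z')) = 0)
    rw [Function.update_idem]
    have : (∀ u, u ≠ v → univ.gcd (Function.update x v z u) = 1) ↔
        ∀ u, u ≠ v → univ.gcd (x u) = 1 := by
      refine forall_congr' fun u => imp_congr_right fun hu => ?_
      rw [Function.update_of_ne hu]
    rw [this]) (max C1 C2) (le_max_of_le_left hC1) c' (by
    intro y hy ρ Y hρ hY
    have hY1 : (1 : ℝ) ≤ Y := by exact_mod_cast hρ.trans hY
    have hl : 0 ≤ 1 + Real.log Y := by
      have := Real.log_nonneg hY1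
      linarith
    have hρ0 : (0 : ℝ) < ρ := by exact_mod_cast hρ
    by_cases hg : ∀ u, u ≠ v → univ.gcd (y u) = 1
    · by_cases hz : ∀ z ∈ lat (w v y), evz G (fl (Function.update y v z)) = 0
      · have e1 : c' y = c y := by
          rw [hc']
          exact if_pos ⟨hg, hz⟩
        have h3 := hc y hy ρ Y hρ hY
        have e2 : ((bx (n v) Y).filter fun z => z ∈ lat (w v y) ∧ T y z) =
            (bx (n v) Y).filter fun z => z ∈ lat (w v y) ∧
              Cell (fun i : Fin 0 => i.elim0) (fun i => i.elim0) 1 0 z := by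
          ext z
          rw [mem_filter, mem_filter]
          refine and_congr_right fun _ => and_congr_right fun hzl => ?_
          rw [hTi]
          constructor
          · rintro ⟨-, h4, -⟩
            exact ⟨h4, fun j => by simp, fun i => i.elim0⟩
          · rintro ⟨h4, -, -⟩
            exact ⟨hg, h4, hz z hzl⟩
        rw [e1, e2]
        refine h3.trans ?_
        gcongr
        exact le_max_right _ _
      · have e1 : c' y = 0 := by
          rw [hc']
          exact if_neg fun h => hz h.2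
        rw [e1, zero_mul, sub_zero, abs_of_nonneg (by positivity)]
        push Not at hz
        obtain ⟨z0, hz0, hz1⟩ := hz
        have h3 := h1 y hy (rs y v G) (deg_rs y v G) ⟨z0, hz0, by rwa [eval_rs]⟩ (T y) (by
          intro z _ hTz
          rw [eval_rs]
          exact ((hTi _ _).1 hTz).2.2) ρ Y hρ hY
        refine h3.trans ?_
        gcongr
        exact le_max_left _ _
    · have e1 : c' y = 0 := by
        rw [hc']
        exact if_neg fun h => hg h.1
      have e2 : ((bx (n v) Y).filter fun z => z ∈ lat (w v y) ∧ T y z) = ∅ := by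
        rw [Finset.filter_eq_empty_iff]
        rintro z - ⟨-, h4⟩
        exact hg ((hTi _ _).1 h4).1
      rw [e1, e2, zero_mul, sub_zero, card_empty, Nat.cast_zero, abs_zero]
      have := le_max_of_le_left (b := C1) (c := C2) hC1
      positivity)
  refine ⟨fun X' => ∑ y ∈ Bx n X' (Q v), c' y, C, δ, hδ, fun X hX hXv => ?_⟩
  have h3 := h X hX hXv
  have e1 : (Bx n X fun x => P x ∧ (∀ u, univ.gcd (x u) = 1) ∧ evz G (fl x) = 0) =
      Bx n X fun x => P x ∧ T x (x v) := by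
    congr 1
    funext x
    rw [hT]
    show (P x ∧ (∀ u, univ.gcd (x u) = 1) ∧ evz G (fl x) = 0) =
      (P x ∧ (∀ u, u ≠ v → univ.gcd (x u) = 1) ∧ univ.gcd (x v) = 1 ∧
      evz G (fl (Function.update x v (x v))) = 0)
    rw [Function.update_eq_self]
    apply propext
    constructor
    · rintro ⟨a1, a2, a3⟩
      exact ⟨a1, fun u _ => a2 u, a2 v, a3⟩
    · rintro ⟨a1, a2, a3, a4⟩
      refine ⟨a1, fun u => ?_, a4⟩
      by_cases hu : u = v
      · subst hu
        exact a3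
      · exact a2 u hu
  show |((Bx n X fun x => P x ∧ (∀ u, univ.gcd (x u) = 1) ∧ evz G (fl x) = 0).card : ℝ) - _| ≤ _
  rw [e1]
  exact h3

end general

end Pool.Agent.T6.H81.BI
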