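import Mathlib
import Pool.Agent.T6.H81.BI.AM

/-!
Fibred sets with regions: few points on a hypersurface, and the asymptotic formula in cells.
-/

set_option autoImplicit false

namespace Pool.Agent.T6.H81.BI

open Finset Module Matrix Filter Topology
open Pool.Agent.H548.WM (ht bx mem_bx Rep ht_pos)
open Pool.Agent.H548.BL (lat mem_lat rep_ne)
open Pool.Agent.H548.TL (evz evz_map evz_int deg_evz)
open Pool.Agent.T6.H5.TW (fl MultiDeg)
open Pool.Agent.T6.H81.BA (Cell cell_pos gcd_ne)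
open Pool.Agent.T6.H81.BG (Pt Bx StmtR3 StmtP3 StmtH3 StmtW3 StmtZ3 CellT cellT_iff RepOK rep_iff
  fin_aux Cone LFs ic Phs mem_Bx C3.mem_Bx)
open Pool.Agent.T6.H81.BH (StmtZ0 StmtPol Gd PolyW rs eval_rs deg_rs gd_upd)
open Pool.Agent.T6.H81

/-- The conclusion of module RED for a number. -/
def RedOK (v0 : Fin 3) (k : ℕ) (δ' : ℝ) : Prop := ∀ (r : Fin 3 → ℕ) (F : (Fin 3 → ℕ) → ℝ),
  (∀ v : Fin 3, ∃ (S : (Fin 3 → ℕ) → ℝ) (C δ : ℝ), 0 < δ ∧ ∀ X : Fin 3 → ℕ, (∀ u, 1 ≤ X u) →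
    Rg v0 k δ' v X → |F X - S (Function.update X v 0) * (X v : ℝ) ^ r v| ≤
      C * (∏ u, (X u : ℝ) ^ r u) * (X v : ℝ) ^ (-δ)) →
  ∀ v : Fin 3, ∃ (S : (Fin 3 → ℕ) → ℝ) (C δ : ℝ), 0 < δ ∧ ∀ X : Fin 3 → ℕ, (∀ u, 1 ≤ X u) →
    (∀ u, X u ≤ 2 * X v) → |F X - S (Function.update X v 0) * (X v : ℝ) ^ r v| ≤
      C * (∏ u, (X u : ℝ) ^ r u) * (X v : ℝ) ^ (-δ)

theorem red_ok (h : StmtRED) (k : ℕ) (hk : 1 ≤ k) : ∃ δ' : ℝ, 0 < δ' ∧ δ' ≤ 1 / ((k : ℝ) + 1) ∧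
    ∀ v0, RedOK v0 k δ' := by
  obtain ⟨δ', h1, h2, h3⟩ := h k hk
  exact ⟨δ', h1, h2, fun v0 r F => h3 r F v0⟩

/-- A path in all regions. -/
def gam (v0 : Fin 3) (k t : ℕ) (u : Fin 3) : ℕ := if u = v0 then t ^ k else t ^ (k + 1)

theorem gam_pos (v0 : Fin 3) (k t : ℕ) (ht : 1 ≤ t) (u : Fin 3) : 1 ≤ gam v0 k t u := by
  unfold gam
  split
  · exact Nat.one_le_pow _ _ ht
  · exact Nat.one_le_pow _ _ ht

theorem gam_ge (v0 : Fin 3) (k t : ℕ) (hk : 1 ≤ k) (ht : 1 ≤ t) (u : Fin 3) : t ≤ gam v0 k t u := by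
  unfold gam
  split
  · exact Nat.le_self_pow (by omega) t
  · exact Nat.le_self_pow (by omega) t

theorem gam_le (v0 : Fin 3) (k t : ℕ) (ht : 1 ≤ t) (u : Fin 3) : gam v0 k t u ≤ t ^ (k + 1) := by
  unfold gam
  split
  · exact Nat.pow_le_pow_right ht (by omega)
  · exact le_rfl

theorem gam_reg (v0 : Fin 3) {k : ℕ} (hk : 1 ≤ k) {δ' : ℝ} (hd : δ' ≤ 1 / ((k : ℝ) + 1)) (t : ℕ)
    (ht : 1 ≤ t) (v : Fin 3) : Rg v0 k δ' v (gam v0 k t) := by
  have hk0 : (0 : ℝ) < k := by exact_mod_cast hk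
  have ht1 : (1 : ℝ) ≤ t := by exact_mod_cast ht
  have ht0 : (0 : ℝ) < t := by linarith
  by_cases hv : v = v0
  · left
    refine ⟨hv, fun u => ?_⟩
    have e1 : gam v0 k t v = t ^ k := by
      unfold gam
      rw [if_pos hv]
    rw [e1]
    push_cast
    rw [← Real.rpow_natCast (t : ℝ) k, ← Real.rpow_mul ht0.le]
    have e2 : (k : ℝ) * (1 + 1 / k) = ((k + 1 : ℕ) : ℝ) := by
      push_cast
      field_simp
    rw [e2, Real.rpow_natCast]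
    exact_mod_cast gam_le v0 k t ht u
  · right
    refine ⟨hv, ?_⟩
    have e1 : gam v0 k t v = t ^ (k + 1) := by
      unfold gam
      rw [if_neg hv]
    have hm : v0 ∈ univ.erase v := by
      rw [mem_erase]
      exact ⟨fun h => hv h.symm, mem_univ _⟩
    have e2 : ∏ u ∈ univ.erase v, (gam v0 k t u : ℝ) = (t : ℝ) ^ k * (t : ℝ) ^ (k + 1) := by
      rw [← Finset.mul_prod_erase _ _ hm]
      have e3 : (gam v0 k t v0 : ℝ) = (t : ℝ) ^ k := by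
        unfold gam
        rw [if_pos rfl]
        push_cast
        rfl
      have e4 : ∀ u ∈ (univ.erase v).erase v0, (gam v0 k t u : ℝ) = (t : ℝ) ^ (k + 1) := by
        intro u hu
        rw [mem_erase] at hu
        unfold gam
        rw [if_neg hu.1]
        push_cast
        rfl
      rw [e3, Finset.prod_congr rfl e4, Finset.prod_const, card_erase_of_mem hm,
        card_erase_of_mem (mem_univ v), card_univ, Fintype.card_fin]
      norm_num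
    rw [e2, e1]
    push_cast
    rw [← Real.rpow_natCast (t : ℝ) (k + 1), ← Real.rpow_mul ht0.le, ← Real.rpow_natCast (t : ℝ) k,
      ← Real.rpow_add ht0]
    apply Real.rpow_le_rpow_of_exponent_le ht1
    push_cast
    have h1 : ((k : ℝ) + 1) * δ' ≤ 1 := by
      have := mul_le_mul_of_nonneg_left hd (by positivity : (0 : ℝ) ≤ (k : ℝ) + 1)
      rwa [mul_one_div_cancel (by positivity)] at this
    nlinarith

section

variable {n r : Fin 3 → ℕ} {P : Pt n → Prop} {Q : Fin 3 → Pt n → Prop}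
  {ι : Fin 3 → Type} [∀ v, Fintype (ι v)] {w : ∀ v, Pt n → ι v → Fin (n v) → ℤ}

open Classical in
/-- **Few points on a hypersurface.** -/
theorem neg (hR3 : StmtR3) (hP3 : StmtP3) (hZ0 : StmtZ0) (hPol : StmtPol) {v0 : Fin 3} {k : ℕ}
    (hk : 1 ≤ k) {δ' : ℝ} (hd : δ' ≤ 1 / ((k : ℝ) + 1)) (hred : RedOK v0 k δ')
    (hF : FT n r P Q ι w (Rg v0 k δ')) (hW : PolyW w)
    (G : MvPolynomial (Σ i, Fin (n i)) ℤ) (l : List (Fin 3)) (hl : ∀ x, P x → Gd w G l x) :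
    ∃ C δ : ℝ, 0 < δ ∧ ∀ X : Fin 3 → ℕ, (∀ u, 1 ≤ X u) →
      ((Bx n X fun x => P x ∧ (∀ u, univ.gcd (x u) = 1) ∧ evz G (fl x) = 0).card : ℝ) ≤
        C * (∏ u, (X u : ℝ) ^ r u) * ∑ u, (X u : ℝ) ^ (-δ) := by
  obtain ⟨c, C, δ, hδ, h⟩ := hP3 3 r (fun X => ((Bx n X fun x => P x ∧
    (∀ u, univ.gcd (x u) = 1) ∧ evz G (fl x) = 0).card : ℝ))
    (hred r _ fun v => asyv hR3 hZ0 hF G v)
  obtain ⟨C', δ1, hC', hδ1, h'⟩ := diag hZ0 hPol hF hW G l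
  have hsum : ∀ (d : ℝ), 0 < d → ∀ t : ℕ, 1 ≤ t →
      ∑ u, (gam v0 k t u : ℝ) ^ (-d) ≤ 3 * (t : ℝ) ^ (-d) := by
    intro d hd t ht
    have ht0 : (0 : ℝ) < t := by exact_mod_cast ht
    have h1 : ∀ u ∈ (univ : Finset (Fin 3)), (gam v0 k t u : ℝ) ^ (-d) ≤ (t : ℝ) ^ (-d) := by
      intro u _
      exact Real.rpow_le_rpow_of_nonpos ht0 (by exact_mod_cast gam_ge v0 k t hk ht u) (by linarith)
    refine (Finset.sum_le_sum h1).trans ?_
    rw [Finset.sum_const, card_univ, Fintype.card_fin, nsmul_eq_mul]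
    norm_num
  have hc : c ≤ 0 := by
    have h1 : ∀ t : ℕ, 1 ≤ t → c ≤ C' * (3 * (t : ℝ) ^ (-δ1)) + |C| * (3 * (t : ℝ) ^ (-δ)) := by
      intro t ht
      have h2 := h (gam v0 k t) (gam_pos v0 k t ht)
      have h3 := h' (gam v0 k t) (gam_pos v0 k t ht) (gam_reg v0 hk hd t ht)
      have hp : 0 < ∏ u : Fin 3, (gam v0 k t u : ℝ) ^ r u := Finset.prod_pos fun u _ => by
        have : (0 : ℝ) < gam v0 k t u := by exact_mod_cast gam_pos v0 k t ht u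
        positivity
      have h4 : ((Bx n (gam v0 k t) fun x => P x ∧ (∀ u, univ.gcd (x u) = 1) ∧
          evz G (fl x) = 0).card : ℝ) ≤
          ((Bx n (gam v0 k t) fun x => P x ∧ Gd w G l x ∧ evz G (fl x) = 0).card : ℝ) := by
        have : (Bx n (gam v0 k t) fun x => P x ∧ (∀ u, univ.gcd (x u) = 1) ∧
            evz G (fl x) = 0) ⊆
            (Bx n (gam v0 k t) fun x => P x ∧ Gd w G l x ∧ evz G (fl x) = 0) := by
          intro x hx
          rw [BG.C3.mem_Bx] at hx ⊢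
          exact ⟨hx.1, hx.2.1, hl x hx.2.1, hx.2.2.2⟩
        exact_mod_cast card_le_card this
      have h5 := (abs_le.1 h2).1
      have h6 : C' * (∏ u : Fin 3, (gam v0 k t u : ℝ) ^ r u) *
          ∑ u, (gam v0 k t u : ℝ) ^ (-δ1) ≤
          C' * (∏ u : Fin 3, (gam v0 k t u : ℝ) ^ r u) * (3 * (t : ℝ) ^ (-δ1)) :=
        mul_le_mul_of_nonneg_left (hsum δ1 hδ1 t ht) (mul_nonneg hC' hp.le)
      have h7 : C * (∏ u : Fin 3, (gam v0 k t u : ℝ) ^ r u) *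
          ∑ u, (gam v0 k t u : ℝ) ^ (-δ) ≤
          |C| * (∏ u : Fin 3, (gam v0 k t u : ℝ) ^ r u) * (3 * (t : ℝ) ^ (-δ)) := by
        have s0 : 0 ≤ ∑ u, (gam v0 k t u : ℝ) ^ (-δ) :=
          Finset.sum_nonneg fun u _ => Real.rpow_nonneg (Nat.cast_nonneg _) _
        calc C * (∏ u : Fin 3, (gam v0 k t u : ℝ) ^ r u) * ∑ u, (gam v0 k t u : ℝ) ^ (-δ) ≤
            |C| * (∏ u : Fin 3, (gam v0 k t u : ℝ) ^ r u) *
              ∑ u, (gam v0 k t u : ℝ) ^ (-δ) := by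
              apply mul_le_mul_of_nonneg_right _ s0
              exact mul_le_mul_of_nonneg_right (le_abs_self C) hp.le
          _ ≤ _ := mul_le_mul_of_nonneg_left (hsum δ hδ t ht) (by positivity)
      have h8 : c * ∏ u : Fin 3, (gam v0 k t u : ℝ) ^ r u ≤
          (C' * (3 * (t : ℝ) ^ (-δ1)) + |C| * (3 * (t : ℝ) ^ (-δ))) *
            ∏ u : Fin 3, (gam v0 k t u : ℝ) ^ r u := by
        have e1 : (C' * (3 * (t : ℝ) ^ (-δ1)) + |C| * (3 * (t : ℝ) ^ (-δ))) *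
            ∏ u : Fin 3, (gam v0 k t u : ℝ) ^ r u =
            C' * (∏ u : Fin 3, (gam v0 k t u : ℝ) ^ r u) * (3 * (t : ℝ) ^ (-δ1)) +
            |C| * (∏ u : Fin 3, (gam v0 k t u : ℝ) ^ r u) * (3 * (t : ℝ) ^ (-δ)) := by ring
        rw [e1]
        linarith
      exact le_of_mul_le_mul_right h8 hp
    have h2 : Tendsto (fun t : ℕ => C' * (3 * (t : ℝ) ^ (-δ1)) + |C| * (3 * (t : ℝ) ^ (-δ)))
        atTop (𝓝 (C' * (3 * 0) + |C| * (3 * 0))) := by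
      have t1 : Tendsto (fun A : ℕ => (A : ℝ) ^ (-δ1)) atTop (𝓝 0) :=
        (tendsto_rpow_neg_atTop hδ1).comp tendsto_natCast_atTop_atTop
      have t2 : Tendsto (fun A : ℕ => (A : ℝ) ^ (-δ)) atTop (𝓝 0) :=
        (tendsto_rpow_neg_atTop hδ).comp tendsto_natCast_atTop_atTop
      exact ((t1.const_mul (3 : ℝ)).const_mul C').add ((t2.const_mul (3 : ℝ)).const_mul |C|)
    have h3 : c ≤ C' * (3 * 0) + |C| * (3 * 0) :=
      ge_of_tendsto h2 (eventually_atTop.2 ⟨1, fun A hA => h1 A hA⟩)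
    simpa using h3
  refine ⟨C, δ, hδ, fun X hX => ?_⟩
  have h1 := (abs_le.1 (h X hX)).2
  have hp : 0 ≤ ∏ u : Fin 3, (X u : ℝ) ^ r u := Finset.prod_nonneg fun u _ => by positivity
  have h2 := mul_nonpos_of_nonpos_of_nonneg hc hp
  linarith

/-- The asymptotic formula in a cell. -/
theorem cas (hR3 : StmtR3) (hP : StmtP3) (hZ0 : StmtZ0) (hH : StmtH3) {v0 : Fin 3} {k : ℕ}
    {δ' : ℝ} (hred : RedOK v0 k δ') (hF : FT n r P Q ι w (Rg v0 k δ'))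
    (κ : Fin 3 → Type) [∀ v, Fintype (κ v)] (f : ∀ v, κ v → Fin (n v) → ℤ)
    (σ : ∀ v, κ v → Bool) (q : ℕ) (hq : 1 ≤ q) (r0 : Pt n) :
    ∃ c : ℝ, Tendsto (fun B : ℝ => ({x : Pt n | (P x ∧ ∀ v, CellT (f v) (σ v) q (r0 v) (x v)) ∧
      ∏ v, (ht (x v) : ℝ) ^ r v ≤ B}.ncard : ℝ) / (B * Real.log B ^ 2)) atTop (𝓝 c) := by
  classical
  have hbox := hP 3 r (fun X => ((Bx n X fun x => P x ∧
    ∀ u, CellT (f u) (σ u) q (r0 u) (x u)).card : ℝ)) (hred r _ (by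
    intro v
    have e := (Fintype.equivFin (κ v)).symm
    exact c6cell hR3 hZ0 hF v _ (f v ∘ e) (σ v ∘ e) q (r0 v) hq
      (fun u z => CellT (f u) (σ u) q (r0 u) z) (fun z => cellT_iff e _ _ _ _ _)))
  obtain ⟨c, C, δ, hδ, hb⟩ := hbox
  refine ⟨c / (2 : ℕ).factorial, ?_⟩
  have hset : ∀ X : Fin (2 + 1) → ℕ, {t : Pt n | t ∈ {x : Pt n | P x ∧
      ∀ v, CellT (f v) (σ v) q (r0 v) (x v)} ∧ ∀ v, ht (t v) ≤ X v} =
      ((Bx n X fun x => P x ∧ ∀ u, CellT (f u) (σ u) q (r0 u) (x u) : Finset (Pt n)) :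
        Set (Pt n)) := by
    intro X
    ext x
    rw [Finset.mem_coe, C3.mem_Bx]
    constructor
    · rintro ⟨h1, h2⟩
      exact ⟨h2, h1⟩
    · rintro ⟨h1, h2⟩
      exact ⟨h2, h1⟩
  exact hH 2 r (fun v => by have := hF.r2 v; omega) (Pt n)
    {x : Pt n | P x ∧ ∀ v, CellT (f v) (σ v) q (r0 v) (x v)} (fun v x => ht (x v)) (by
      rintro x ⟨-, hx⟩ v
      exact ht_pos (gcd_ne (hx v).1)) (by
      intro X
      rw [hset X]
      exact Finset.finite_toSet _) c C δ hδ (by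
      intro X hX
      rw [hset X, Set.ncard_coe_finset]
      exact hb X hX)

end

end Pool.Agent.T6.H81.BI
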