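import Mathlib
import Pool.Agent.T6.H81.BI.Defs
import Pool.Agent.T6.H81.BG.C3

/-!
The number of the points over small boxes in one block.
-/

set_option autoImplicit false

namespace Pool.Agent.T6.H81.BI.Nq

open Finset Module Matrix
open Pool.Agent.H548.WM (ht bx mem_bx Rep card_bx_le)
open Pool.Agent.H548.BL (lat mem_lat)
open Pool.Agent.H548.TL (evz tf g1 g2 g3 s12 s23 Tx Sm InU InV tri PP g1_s12 g2_s12 g3_s12)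
open Pool.Agent.T6.H81.BH (cx)
open Pool.Agent.T6.H81.BI

open Classical in
/-- The number of the pairs in the kernels. -/
noncomputable def pr {N1 N2 N3 : ℕ} (T : Fin N1 → Fin N2 → Fin N3 → ℤ) (A ρ : ℕ) : ℕ :=
  ((bx N1 A ×ˢ bx N3 ρ).filter fun t => 3 ≤ (cx T t.1).rank ∧ g2 T t.1 t.2 = 0).card

variable {N1 N2 N3 : ℕ}

theorem core (h1 : 3 ≤ N1) (h2 : 3 ≤ N2) (h3 : 3 ≤ N3) (T : Fin N1 → Fin N2 → Fin N3 → ℤ)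
    (hs : Sm ℂ T) (ε : ℝ) (hε : 0 < ε) : ∃ K : ℝ, 0 ≤ K ∧ ∀ A B ρ : ℕ, 1 ≤ A → 1 ≤ B → 1 ≤ ρ →
    ∀ (p : (Fin N1 → ℤ) × (Fin N2 → ℤ) × (Fin N3 → ℤ) → Prop) [DecidablePred p],
      (∀ t, p t → 3 ≤ (cx T t.1).rank ∧ 3 ≤ (cx (s12 T) t.2.1).rank ∧ g3 T t.1 t.2.1 ≠ 0 ∧
        tf T t.1 t.2.1 t.2.2 = 0) →
      ((((bx N1 A ×ˢ bx N2 B ×ˢ bx N3 ρ).filter p).card : ℕ) : ℝ) ≤
        K * ((A : ℝ) ^ (N1 - 1) * (B : ℝ) ^ (N2 - 1) * (ρ : ℝ) ^ (N3 - 1)) *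
          ((A : ℝ) * B * ρ) ^ ε +
        (pr T A ρ : ℝ) * (3 * (B : ℝ)) ^ N2 + (pr (s12 T) B ρ : ℝ) * (3 * (A : ℝ)) ^ N1 := by
  classical
  obtain ⟨K, hK, h⟩ := Pool.Agent.H548.TL.box h1 h2 h3 hs.real ε hε
  refine ⟨K, hK, fun A B ρ hA hB hρ p _ hp => ?_⟩
  have hb := h A B ρ hA hB hρ
  obtain ⟨S2, hS2⟩ : ∃ S2 : Finset ((Fin N1 → ℤ) × (Fin N2 → ℤ) × (Fin N3 → ℤ)),
    S2 = (bx N1 A ×ˢ bx N2 B ×ˢ bx N3 ρ).filter fun t => 3 ≤ (cx T t.1).rank ∧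
      g2 T t.1 t.2.2 = 0 := ⟨_, rfl⟩
  obtain ⟨S3, hS3⟩ : ∃ S3 : Finset ((Fin N1 → ℤ) × (Fin N2 → ℤ) × (Fin N3 → ℤ)),
    S3 = (bx N1 A ×ˢ bx N2 B ×ˢ bx N3 ρ).filter fun t => 3 ≤ (cx (s12 T) t.2.1).rank ∧
      g2 (s12 T) t.2.1 t.2.2 = 0 := ⟨_, rfl⟩
  have hsub : (bx N1 A ×ˢ bx N2 B ×ˢ bx N3 ρ).filter p ⊆ PP T A B ρ ∪ (S2 ∪ S3) := by
    intro t ht
    rw [mem_filter] at ht
    obtain ⟨ht1, ht2⟩ := ht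
    obtain ⟨a1, a2, a3, a4⟩ := hp t ht2
    by_cases b2 : g2 T t.1 t.2.2 = 0
    · rw [mem_union, mem_union, hS2, mem_filter]
      exact Or.inr (Or.inl ⟨ht1, a1, b2⟩)
    by_cases b1 : g1 T t.2.1 t.2.2 = 0
    · rw [mem_union, mem_union, hS3, mem_filter]
      refine Or.inr (Or.inr ⟨ht1, a2, ?_⟩)
      rw [g2_s12]
      exact b1
    · rw [mem_union]
      left
      unfold Pool.Agent.H548.TL.PP
      rw [mem_filter]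
      exact ⟨ht1, a4, b1, b2, a3⟩
  have c2 : S2.card ≤ pr T A ρ * (bx N2 B).card := by
    unfold pr
    rw [← card_product]
    apply Finset.card_le_card_of_injOn (fun t => ((t.1, t.2.2), t.2.1))
    · intro t ht
      rw [Finset.mem_coe, hS2, mem_filter, mem_product, mem_product] at ht
      rw [Finset.mem_coe, mem_product, mem_filter, mem_product]
      exact ⟨⟨⟨ht.1.1, ht.1.2.2⟩, ht.2⟩, ht.1.2.1⟩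
    · rintro ⟨a, b, c⟩ _ ⟨a', b', c'⟩ _ h
      simp only [Prod.mk.injEq] at h
      rw [h.1.1, h.1.2, h.2]
  have c3 : S3.card ≤ pr (s12 T) B ρ * (bx N1 A).card := by
    unfold pr
    rw [← card_product]
    apply Finset.card_le_card_of_injOn (fun t => ((t.2.1, t.2.2), t.1))
    · intro t ht
      rw [Finset.mem_coe, hS3, mem_filter, mem_product, mem_product] at ht
      rw [Finset.mem_coe, mem_product, mem_filter, mem_product]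
      exact ⟨⟨⟨ht.1.2.1, ht.1.2.2⟩, ht.2⟩, ht.1.1⟩
    · rintro ⟨a, b, c⟩ _ ⟨a', b', c'⟩ _ h
      simp only [Prod.mk.injEq] at h
      rw [h.1.1, h.1.2, h.2]
  have c4 : (((bx N1 A ×ˢ bx N2 B ×ˢ bx N3 ρ).filter p).card : ℕ) ≤
      (PP T A B ρ).card + (S2.card + S3.card) :=
    (card_le_card hsub).trans ((card_union_le _ _).trans
      (Nat.add_le_add_left (card_union_le _ _) _))
  have c5 : ((((bx N1 A ×ˢ bx N2 B ×ˢ bx N3 ρ).filter p).card : ℕ) : ℝ) ≤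
      (PP T A B ρ).card + ((S2.card : ℝ) + S3.card) := by exact_mod_cast c4
  have c6 : (S2.card : ℝ) ≤ (pr T A ρ : ℝ) * (3 * (B : ℝ)) ^ N2 := by
    have e1 : (S2.card : ℝ) ≤ (pr T A ρ : ℝ) * ((bx N2 B).card : ℝ) := by exact_mod_cast c2
    refine e1.trans ?_
    gcongr
    exact card_bx_le _ hB
  have c7 : (S3.card : ℝ) ≤ (pr (s12 T) B ρ : ℝ) * (3 * (A : ℝ)) ^ N1 := by
    have e1 : (S3.card : ℝ) ≤ (pr (s12 T) B ρ : ℝ) * ((bx N1 A).card : ℝ) := by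
      exact_mod_cast c3
    refine e1.trans ?_
    gcongr
    exact card_bx_le _ hA
  linarith

/-- Bringing the three terms together. -/
theorem comb (h1 : 3 ≤ N1) (h2 : 3 ≤ N2) (h3 : 3 ≤ N3) {A B ρ K C C' C1 C2 M M' Z1 p2 p3 t : ℝ}
    (hA : 0 ≤ A) (hB : 0 ≤ B) (hρ : 0 ≤ ρ) (hK : 0 ≤ K) (hC : 0 ≤ C) (hC' : 0 ≤ C')
    (ht : ρ * t ≤ C1 * Z1) (hp2 : p2 ≤ C * A ^ (N1 - 1) * ρ ^ (N3 - 3) * M)
    (hp3 : p3 ≤ C' * B ^ (N2 - 1) * ρ ^ (N3 - 3) * M') (hM : M * B ≤ C2 * (ρ * Z1))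
    (hM' : M' * A ≤ C2 * (ρ * Z1)) :
    K * (A ^ (N1 - 1) * B ^ (N2 - 1) * ρ ^ (N3 - 1)) * t + p2 * (3 * B) ^ N2 +
      p3 * (3 * A) ^ N1 ≤
      (K * C1 + 3 ^ N2 * C * C2 + 3 ^ N1 * C' * C2) * (A ^ (N1 - 1) * B ^ (N2 - 1)) *
        ρ ^ (N3 - 1 - 1) * Z1 := by
  have e1 : ρ ^ (N3 - 1) = ρ ^ (N3 - 1 - 1) * ρ := by
    rw [← pow_succ]
    congr 1
    omega
  have e2 : ρ ^ (N3 - 1 - 1) = ρ ^ (N3 - 3) * ρ := by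
    rw [← pow_succ]
    congr 1
    omega
  have e3 : A ^ N1 = A ^ (N1 - 1) * A := by
    rw [← pow_succ]
    congr 1
    omega
  have e4 : B ^ N2 = B ^ (N2 - 1) * B := by
    rw [← pow_succ]
    congr 1
    omega
  have f1 : K * (A ^ (N1 - 1) * B ^ (N2 - 1) * ρ ^ (N3 - 1)) * t ≤
      K * C1 * (A ^ (N1 - 1) * B ^ (N2 - 1)) * ρ ^ (N3 - 1 - 1) * Z1 := by
    rw [e1]
    calc K * (A ^ (N1 - 1) * B ^ (N2 - 1) * (ρ ^ (N3 - 1 - 1) * ρ)) * t =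
        K * (A ^ (N1 - 1) * B ^ (N2 - 1)) * ρ ^ (N3 - 1 - 1) * (ρ * t) := by ring
      _ ≤ K * (A ^ (N1 - 1) * B ^ (N2 - 1)) * ρ ^ (N3 - 1 - 1) * (C1 * Z1) := by gcongr
      _ = _ := by ring
  have f2 : p2 * (3 * B) ^ N2 ≤
      3 ^ N2 * C * C2 * (A ^ (N1 - 1) * B ^ (N2 - 1)) * ρ ^ (N3 - 1 - 1) * Z1 := by
    rw [e2, mul_pow, e4]
    calc p2 * (3 ^ N2 * (B ^ (N2 - 1) * B)) ≤
        (C * A ^ (N1 - 1) * ρ ^ (N3 - 3) * M) * (3 ^ N2 * (B ^ (N2 - 1) * B)) := by gcongr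
      _ = 3 ^ N2 * C * (A ^ (N1 - 1) * B ^ (N2 - 1)) * ρ ^ (N3 - 3) * (M * B) := by ring
      _ ≤ 3 ^ N2 * C * (A ^ (N1 - 1) * B ^ (N2 - 1)) * ρ ^ (N3 - 3) * (C2 * (ρ * Z1)) := by
        gcongr
      _ = _ := by ring
  have f3 : p3 * (3 * A) ^ N1 ≤
      3 ^ N1 * C' * C2 * (A ^ (N1 - 1) * B ^ (N2 - 1)) * ρ ^ (N3 - 1 - 1) * Z1 := by
    rw [e2, mul_pow, e3]
    calc p3 * (3 ^ N1 * (A ^ (N1 - 1) * A)) ≤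
        (C' * B ^ (N2 - 1) * ρ ^ (N3 - 3) * M') * (3 ^ N1 * (A ^ (N1 - 1) * A)) := by gcongr
      _ = 3 ^ N1 * C' * (A ^ (N1 - 1) * B ^ (N2 - 1)) * ρ ^ (N3 - 3) * (M' * A) := by ring
      _ ≤ 3 ^ N1 * C' * (A ^ (N1 - 1) * B ^ (N2 - 1)) * ρ ^ (N3 - 3) * (C2 * (ρ * Z1)) := by
        gcongr
      _ = _ := by ring
  calc _ ≤ K * C1 * (A ^ (N1 - 1) * B ^ (N2 - 1)) * ρ ^ (N3 - 1 - 1) * Z1 +
      3 ^ N2 * C * C2 * (A ^ (N1 - 1) * B ^ (N2 - 1)) * ρ ^ (N3 - 1 - 1) * Z1 +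
      3 ^ N1 * C' * C2 * (A ^ (N1 - 1) * B ^ (N2 - 1)) * ρ ^ (N3 - 1 - 1) * Z1 := by
        exact add_le_add (add_le_add f1 f2) f3
    _ = _ := by ring

/-- The ceiling of a power. -/
theorem ceil_pow {Z : ℕ} (hZ : 1 ≤ Z) {a : ℝ} (ha : 0 ≤ a) : 1 ≤ ⌈(Z : ℝ) ^ a⌉₊ ∧
    (Z : ℝ) ^ a ≤ (⌈(Z : ℝ) ^ a⌉₊ : ℝ) ∧ (⌈(Z : ℝ) ^ a⌉₊ : ℝ) ≤ 2 * (Z : ℝ) ^ a := by
  have hZ1 : (1 : ℝ) ≤ Z := by exact_mod_cast hZ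
  have h1 : (1 : ℝ) ≤ (Z : ℝ) ^ a := Real.one_le_rpow hZ1 ha
  refine ⟨?_, Nat.le_ceil _, ?_⟩
  · rw [Nat.one_le_ceil_iff]
    linarith
  · have := Nat.ceil_lt_add_one (by linarith : (0 : ℝ) ≤ (Z : ℝ) ^ a)
    linarith

/-- Weak regions. -/
theorem weak (hPR : StmtPR) (h1 : 3 ≤ N1) (h2 : 3 ≤ N2) (h3 : 3 ≤ N3)
    (T : Fin N1 → Fin N2 → Fin N3 → ℤ) (hs : Sm ℂ T) {δ' : ℝ} (hδ' : 0 < δ') (hδ1 : δ' ≤ 1) :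
    ∃ C δ : ℝ, 0 ≤ C ∧ 0 < δ ∧ ∀ A B Z : ℕ, 1 ≤ A → 1 ≤ B → 1 ≤ Z →
      (A : ℝ) * B ≤ (Z : ℝ) ^ (2 - δ') → ∃ ρ : ℕ, 1 ≤ ρ ∧ ρ ≤ Z ∧
      ∀ (p : (Fin N1 → ℤ) × (Fin N2 → ℤ) × (Fin N3 → ℤ) → Prop) [DecidablePred p],
      (∀ t, p t → 3 ≤ (cx T t.1).rank ∧ 3 ≤ (cx (s12 T) t.2.1).rank ∧ g3 T t.1 t.2.1 ≠ 0 ∧
        tf T t.1 t.2.1 t.2.2 = 0) →
      ((((bx N1 A ×ˢ bx N2 B ×ˢ bx N3 ρ).filter p).card : ℕ) : ℝ) ≤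
        C * ((A : ℝ) ^ (N1 - 1) * (B : ℝ) ^ (N2 - 1)) * (ρ : ℝ) ^ (N3 - 1 - 1) *
          (Z : ℝ) ^ (1 - δ) := by
  obtain ⟨K, hK, hc⟩ := core h1 h2 h3 T hs (δ' / 12) (by positivity)
  obtain ⟨⟨C, hC, hp2⟩, -⟩ := hPR N1 N2 N3 T (by omega) h2 h3
  obtain ⟨⟨C', hC', hp3⟩, -⟩ := hPR N2 N1 N3 (s12 T) (by omega) h1 h3
  refine ⟨K * 4 + 3 ^ N2 * C * 1 + 3 ^ N1 * C' * 1, δ' / 4, by positivity, by positivity,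
    fun A B Z hA hB hZ hABZ => ?_⟩
  have hZ1 : (1 : ℝ) ≤ Z := by exact_mod_cast hZ
  have hZ0 : (0 : ℝ) < Z := by linarith
  obtain ⟨c1, c2, c3⟩ := ceil_pow hZ (a := 1 - δ' / 2) (by linarith)
  obtain ⟨ρ, hρ⟩ : ∃ ρ : ℕ, ρ = ⌈(Z : ℝ) ^ (1 - δ' / 2)⌉₊ := ⟨_, rfl⟩
  rw [← hρ] at c1 c2 c3
  have hρZ : ρ ≤ Z := by
    rw [hρ]
    apply Nat.ceil_le.2
    calc (Z : ℝ) ^ (1 - δ' / 2) ≤ (Z : ℝ) ^ (1 : ℝ) :=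
          Real.rpow_le_rpow_of_exponent_le hZ1 (by linarith)
      _ = Z := Real.rpow_one _
  refine ⟨ρ, c1, hρZ, fun p _ hp => ?_⟩
  have hρ0 : (0 : ℝ) < ρ := by exact_mod_cast c1
  have hρZ' : (ρ : ℝ) ≤ Z := by exact_mod_cast hρZ
  refine (hc A B ρ hA hB c1 p hp).trans ?_
  have hA0 : (0 : ℝ) < A := by exact_mod_cast hA
  have hB0 : (0 : ℝ) < B := by exact_mod_cast hB
  have key : (A : ℝ) * B ≤ 1 * (ρ * (Z : ℝ) ^ (1 - δ' / 4)) := by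
    rw [one_mul]
    calc (A : ℝ) * B ≤ (Z : ℝ) ^ (2 - δ') := hABZ
      _ ≤ (Z : ℝ) ^ ((1 - δ' / 2) + (1 - δ' / 4)) :=
          Real.rpow_le_rpow_of_exponent_le hZ1 (by linarith)
      _ = (Z : ℝ) ^ (1 - δ' / 2) * (Z : ℝ) ^ (1 - δ' / 4) := Real.rpow_add hZ0 _ _
      _ ≤ _ := by gcongr
  apply comb h1 h2 h3 hA0.le hB0.le hρ0.le hK hC hC' (M := A) (M' := B)
  · -- the first term
    have e1 : (A : ℝ) * B * ρ ≤ (Z : ℝ) ^ (3 : ℝ) := by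
      calc (A : ℝ) * B * ρ ≤ (Z : ℝ) ^ (2 - δ') * (Z : ℝ) ^ (1 : ℝ) := by
            rw [Real.rpow_one]
            gcongr
        _ = (Z : ℝ) ^ (2 - δ' + 1) := (Real.rpow_add hZ0 _ _).symm
        _ ≤ _ := Real.rpow_le_rpow_of_exponent_le hZ1 (by linarith)
    have e2 : ((A : ℝ) * B * ρ) ^ (δ' / 12) ≤ (Z : ℝ) ^ (δ' / 4) := by
      calc ((A : ℝ) * B * ρ) ^ (δ' / 12) ≤ ((Z : ℝ) ^ (3 : ℝ)) ^ (δ' / 12) :=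
            Real.rpow_le_rpow (by positivity) e1 (by positivity)
        _ = (Z : ℝ) ^ (δ' / 4) := by
            rw [← Real.rpow_mul hZ0.le]
            congr 1
            ring
    calc (ρ : ℝ) * ((A : ℝ) * B * ρ) ^ (δ' / 12) ≤
        (2 * (Z : ℝ) ^ (1 - δ' / 2)) * (Z : ℝ) ^ (δ' / 4) := by gcongr
      _ = 2 * ((Z : ℝ) ^ (1 - δ' / 2) * (Z : ℝ) ^ (δ' / 4)) := by ring
      _ = 2 * (Z : ℝ) ^ (1 - δ' / 2 + δ' / 4) := by rw [Real.rpow_add hZ0]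
      _ = 2 * (Z : ℝ) ^ (1 - δ' / 4) := by
          congr 2
          ring
      _ ≤ 4 * (Z : ℝ) ^ (1 - δ' / 4) := by
          have : 0 ≤ (Z : ℝ) ^ (1 - δ' / 4) := by positivity
          linarith
  · have h := hp2 A ρ hA c1
    refine le_trans h (le_of_eq ?_)
    have e3 : (A : ℝ) ^ N1 = (A : ℝ) ^ (N1 - 1) * A := by
      rw [← pow_succ]
      congr 1
      omega
    rw [e3]
    ring
  · have h := hp3 B ρ hB c1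
    refine le_trans h (le_of_eq ?_)
    have e3 : (B : ℝ) ^ N2 = (B : ℝ) ^ (N2 - 1) * B := by
      rw [← pow_succ]
      congr 1
      omega
    rw [e3]
    ring
  · exact key
  · rw [mul_comm (B : ℝ) A]
    exact key

/-- The strong regions. -/
theorem strong (hPR : StmtPR) (h1 : 3 ≤ N1) (h2 : 3 ≤ N2) (h3 : 3 ≤ N3)
    (T : Fin N1 → Fin N2 → Fin N3 → ℤ) (hs : Sm ℂ T)
    (hf : ∃ f : Fin 4 → Fin N1 × Fin N2, LinearIndependent ℤ (fun a k => T (f a).1 (f a).2 k))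
    {k : ℕ} (hk : k = 16 * N3) :
    ∃ C δ : ℝ, 0 ≤ C ∧ 0 < δ ∧ ∀ A B Z : ℕ, 1 ≤ A → 1 ≤ B → 1 ≤ Z →
      (A : ℝ) ≤ (Z : ℝ) ^ (1 + 1 / (k : ℝ)) → (B : ℝ) ≤ (Z : ℝ) ^ (1 + 1 / (k : ℝ)) →
      ∃ ρ : ℕ, 1 ≤ ρ ∧ ρ ≤ Z ∧
      ∀ (p : (Fin N1 → ℤ) × (Fin N2 → ℤ) × (Fin N3 → ℤ) → Prop) [DecidablePred p],
      (∀ t, p t → 3 ≤ (cx T t.1).rank ∧ 3 ≤ (cx (s12 T) t.2.1).rank ∧ g3 T t.1 t.2.1 ≠ 0 ∧
        tf T t.1 t.2.1 t.2.2 = 0) →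
      ((((bx N1 A ×ˢ bx N2 B ×ˢ bx N3 ρ).filter p).card : ℕ) : ℝ) ≤
        C * ((A : ℝ) ^ (N1 - 1) * (B : ℝ) ^ (N2 - 1)) * (ρ : ℝ) ^ (N3 - 1 - 1) *
          (Z : ℝ) ^ (1 - δ) := by
  have hN3 : (3 : ℝ) ≤ N3 := by exact_mod_cast h3
  obtain ⟨τ, hτ⟩ : ∃ τ : ℝ, τ = 1 / (16 * (N3 : ℝ)) := ⟨_, rfl⟩
  have hτ0 : 0 < τ := by rw [hτ]; positivity
  have hτN : τ * N3 = 1 / 16 := by
    rw [hτ]
    field_simp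
  have hτ1 : 3 * τ ≤ 1 / 16 := by
    rw [← hτN]
    nlinarith
  have hkτ : 1 / (k : ℝ) = τ := by
    rw [hk, hτ]
    push_cast
    rfl
  obtain ⟨K, hK, hc⟩ := core h1 h2 h3 T hs (τ / 8) (by positivity)
  obtain ⟨-, hp2'⟩ := hPR N1 N2 N3 T (by omega) h2 h3
  obtain ⟨-, hp3'⟩ := hPR N2 N1 N3 (s12 T) (by omega) h1 h3
  obtain ⟨C, hC, hp2⟩ := hp2' hf
  obtain ⟨C', hC', hp3⟩ := hp3' (by
    obtain ⟨f, hf⟩ := hf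
    exact ⟨fun a => ((f a).2, (f a).1), hf⟩)
  refine ⟨K * 4 + 3 ^ N2 * C * (1 + 2 ^ N3) + 3 ^ N1 * C' * (1 + 2 ^ N3), τ / 2, by positivity,
    by positivity, fun A B Z hA hB hZ hAZ hBZ => ?_⟩
  rw [hkτ] at hAZ hBZ
  have hZ1 : (1 : ℝ) ≤ Z := by exact_mod_cast hZ
  have hZ0 : (0 : ℝ) < Z := by linarith
  obtain ⟨c1, c2, c3⟩ := ceil_pow hZ (a := 1 - τ) (by linarith)
  obtain ⟨ρ, hρ⟩ : ∃ ρ : ℕ, ρ = ⌈(Z : ℝ) ^ (1 - τ)⌉₊ := ⟨_, rfl⟩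
  rw [← hρ] at c1 c2 c3
  have hρZ : ρ ≤ Z := by
    rw [hρ]
    apply Nat.ceil_le.2
    calc (Z : ℝ) ^ (1 - τ) ≤ (Z : ℝ) ^ (1 : ℝ) :=
          Real.rpow_le_rpow_of_exponent_le hZ1 (by linarith)
      _ = Z := Real.rpow_one _
  obtain ⟨d1, d2, d3⟩ := ceil_pow hZ (a := 8 * τ) (by positivity)
  obtain ⟨R, hR⟩ : ∃ R : ℕ, R = ⌈(Z : ℝ) ^ (8 * τ)⌉₊ := ⟨_, rfl⟩
  rw [← hR] at d1 d2 d3
  have hRρ : R ≤ ρ := by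
    rw [hR, hρ]
    apply Nat.ceil_le_ceil
    exact Real.rpow_le_rpow_of_exponent_le hZ1 (by linarith)
  refine ⟨ρ, c1, hρZ, fun p _ hp => ?_⟩
  have hρ0 : (0 : ℝ) < ρ := by exact_mod_cast c1
  have hR0 : (0 : ℝ) < R := by exact_mod_cast d1
  have hρZ' : (ρ : ℝ) ≤ Z := by exact_mod_cast hρZ
  refine (hc A B ρ hA hB c1 p hp).trans ?_
  have hA0 : (0 : ℝ) < A := by exact_mod_cast hA
  have hB0 : (0 : ℝ) < B := by exact_mod_cast hB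
  have key1 : (A : ℝ) * B / R ≤ ρ * (Z : ℝ) ^ (1 - τ / 2) := by
    rw [div_le_iff₀ hR0]
    calc (A : ℝ) * B ≤ (Z : ℝ) ^ (1 + τ) * (Z : ℝ) ^ (1 + τ) := by gcongr
      _ = (Z : ℝ) ^ (1 + τ + (1 + τ)) := (Real.rpow_add hZ0 _ _).symm
      _ ≤ (Z : ℝ) ^ ((1 - τ) + (1 - τ / 2) + 8 * τ) :=
          Real.rpow_le_rpow_of_exponent_le hZ1 (by linarith)
      _ = (Z : ℝ) ^ (1 - τ) * (Z : ℝ) ^ (1 - τ / 2) * (Z : ℝ) ^ (8 * τ) := by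
          rw [Real.rpow_add hZ0, Real.rpow_add hZ0]
      _ ≤ ρ * (Z : ℝ) ^ (1 - τ / 2) * R := by gcongr
  have key2 : ∀ b : ℝ, 0 ≤ b → b ≤ (Z : ℝ) ^ (1 + τ) →
      (R : ℝ) ^ N3 * b ≤ 2 ^ N3 * (ρ * (Z : ℝ) ^ (1 - τ / 2)) := by
    intro b hb hbZ
    have e1 : ((Z : ℝ) ^ (8 * τ)) ^ N3 = (Z : ℝ) ^ ((1 : ℝ) / 2) := by
      rw [← Real.rpow_natCast, ← Real.rpow_mul hZ0.le]
      congr 1
      have : 8 * τ * (N3 : ℝ) = 8 * (τ * N3) := by ring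
      rw [this, hτN]
      norm_num
    calc (R : ℝ) ^ N3 * b ≤ (2 * (Z : ℝ) ^ (8 * τ)) ^ N3 * (Z : ℝ) ^ (1 + τ) := by gcongr
      _ = 2 ^ N3 * ((Z : ℝ) ^ ((1 : ℝ) / 2) * (Z : ℝ) ^ (1 + τ)) := by
          rw [mul_pow, e1]
          ring
      _ = 2 ^ N3 * (Z : ℝ) ^ ((1 : ℝ) / 2 + (1 + τ)) := by rw [← Real.rpow_add hZ0]
      _ ≤ 2 ^ N3 * (Z : ℝ) ^ ((1 - τ) + (1 - τ / 2)) :=
          mul_le_mul_of_nonneg_left (Real.rpow_le_rpow_of_exponent_le hZ1 (by linarith))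
            (by positivity)
      _ = 2 ^ N3 * ((Z : ℝ) ^ (1 - τ) * (Z : ℝ) ^ (1 - τ / 2)) := by
          rw [Real.rpow_add hZ0]
      _ ≤ _ := by gcongr
  apply comb h1 h2 h3 hA0.le hB0.le hρ0.le hK hC hC' (M := A / R + (R : ℝ) ^ N3)
    (M' := B / R + (R : ℝ) ^ N3)
  · -- the first term
    have e1 : (A : ℝ) * B * ρ ≤ (Z : ℝ) ^ (4 : ℝ) := by
      calc (A : ℝ) * B * ρ ≤ (Z : ℝ) ^ (1 + τ) * (Z : ℝ) ^ (1 + τ) * (Z : ℝ) ^ (1 : ℝ) := by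
            rw [Real.rpow_one]
            gcongr
        _ = (Z : ℝ) ^ (1 + τ + (1 + τ) + 1) := by
            rw [← Real.rpow_add hZ0, ← Real.rpow_add hZ0]
        _ ≤ _ := Real.rpow_le_rpow_of_exponent_le hZ1 (by linarith)
    have e2 : ((A : ℝ) * B * ρ) ^ (τ / 8) ≤ (Z : ℝ) ^ (τ / 2) := by
      calc ((A : ℝ) * B * ρ) ^ (τ / 8) ≤ ((Z : ℝ) ^ (4 : ℝ)) ^ (τ / 8) :=
            Real.rpow_le_rpow (by positivity) e1 (by positivity)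
        _ = (Z : ℝ) ^ (τ / 2) := by
            rw [← Real.rpow_mul hZ0.le]
            congr 1
            ring
    calc (ρ : ℝ) * ((A : ℝ) * B * ρ) ^ (τ / 8) ≤
        (2 * (Z : ℝ) ^ (1 - τ)) * (Z : ℝ) ^ (τ / 2) := by gcongr
      _ = 2 * ((Z : ℝ) ^ (1 - τ) * (Z : ℝ) ^ (τ / 2)) := by ring
      _ = 2 * (Z : ℝ) ^ (1 - τ + τ / 2) := by rw [Real.rpow_add hZ0]
      _ = 2 * (Z : ℝ) ^ (1 - τ / 2) := by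
          congr 2
          ring
      _ ≤ 4 * (Z : ℝ) ^ (1 - τ / 2) := by
          have : 0 ≤ (Z : ℝ) ^ (1 - τ / 2) := by positivity
          linarith
  · have h := hp2 A ρ R hA d1 hRρ
    refine le_trans h (le_of_eq ?_)
    have e3 : (A : ℝ) ^ N1 = (A : ℝ) ^ (N1 - 1) * A := by
      rw [← pow_succ]
      congr 1
      omega
    rw [e3]
    ring
  · have h := hp3 B ρ R hB d1 hRρ
    refine le_trans h (le_of_eq ?_)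
    have e3 : (B : ℝ) ^ N2 = (B : ℝ) ^ (N2 - 1) * B := by
      rw [← pow_succ]
      congr 1
      omega
    rw [e3]
    ring
  · have e1 : ((A : ℝ) / R + (R : ℝ) ^ N3) * B = (A : ℝ) * B / R + (R : ℝ) ^ N3 * B := by ring
    rw [e1]
    have := key2 B hB0.le hBZ
    have e2 : (1 + 2 ^ N3) * ((ρ : ℝ) * (Z : ℝ) ^ (1 - τ / 2)) =
      (ρ : ℝ) * (Z : ℝ) ^ (1 - τ / 2) + 2 ^ N3 * ((ρ : ℝ) * (Z : ℝ) ^ (1 - τ / 2)) := by ring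
    rw [e2]
    exact add_le_add key1 this
  · have e1 : ((B : ℝ) / R + (R : ℝ) ^ N3) * A = (A : ℝ) * B / R + (R : ℝ) ^ N3 * A := by ring
    rw [e1]
    have := key2 A hA0.le hAZ
    have e2 : (1 + 2 ^ N3) * ((ρ : ℝ) * (Z : ℝ) ^ (1 - τ / 2)) =
      (ρ : ℝ) * (Z : ℝ) ^ (1 - τ / 2) + 2 ^ N3 * ((ρ : ℝ) * (Z : ℝ) ^ (1 - τ / 2)) := by ring
    rw [e2]
    exact add_le_add key1 this

end Pool.Agent.T6.H81.BI.Nq
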