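import Mathlib
import Pool.Agent.T6.H81.BH.TLow
import Pool.Agent.T6.H81.BH.Cut
import Pool.Agent.T6.H81.BI.Nq

/-!
Smooth divisors of type `(1, 1, 1)` as fibred sets with regions.
-/

set_option autoImplicit false

namespace Pool.Agent.T6.H81.BI

open Finset Module Matrix
open Pool.Agent.H548.WM (ht bx mem_bx Rep card_bx_le)
open Pool.Agent.H548.BL (lat mem_lat)
open Pool.Agent.H548.TL (evz evz_map evz_int tf g1 g2 g3 s12 s23 Tx Sm InU InV tri tf_g1 tf_g2 tf_g3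
  g1_s12 g2_s12 g3_s12 tf_s12 g1_s23 g2_s23 g3_s23 tf_s23 Tx_mulVec vecMul_Tx PP)
open Pool.Agent.T6.H5.TW (fl MultiDeg)
open Pool.Agent.T6.H81.BG (Pt Bx Zr cf)
open Pool.Agent.T6.H81.BH (cx rs eval_rs deg_rs polyW_cf)
open Pool.Agent.T6.H81.BH.TFS (TRep Rk PU QU forall3 rk_upd cf_upd zr_iff lat_iff zr_tf card_Bx0
  card_Bx1 card_Bx2 rank_s23 rank_s12_s23_s12)
open Pool.Agent.T6.H81.BH.TLow (minor rank_minor Tx_map)

namespace TFT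

/-! ### Minors as polynomials -/

/-- A minor of the matrix with polynomial entries. -/
noncomputable def mpd {N1 N2 N3 k : ℕ} (T : Fin N1 → Fin N2 → Fin N3 → ℤ) (g : Fin k → Fin N2)
    (f : Fin k → Fin N3) : MvPolynomial (Fin N1) ℤ :=
  ((Tx T (fun i => (MvPolynomial.X i : MvPolynomial (Fin N1) ℤ))).submatrix g f).det

theorem evz_mpd {N1 N2 N3 k : ℕ} (T : Fin N1 → Fin N2 → Fin N3 → ℤ) (g : Fin k → Fin N2)
    (f : Fin k → Fin N3) {R : Type} [CommRing R] (x : Fin N1 → R) :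
    evz (mpd T g f) x = ((Tx T x).submatrix g f).det := by
  unfold mpd Pool.Agent.H548.TL.evz
  rw [← MvPolynomial.coe_eval₂Hom, RingHom.map_det]
  congr 1
  rw [RingHom.mapMatrix_apply, ← Matrix.submatrix_map, Tx_map]
  congr 1
  congr 1
  funext i
  simp

theorem mpd_ne {N1 N2 N3 k : ℕ} (T : Fin N1 → Fin N2 → Fin N3 → ℤ) (g : Fin k → Fin N2)
    (f : Fin k → Fin N3) (z : Fin N1 → ℤ) :
    MvPolynomial.eval z (mpd T g f) ≠ 0 ↔ ((cx T z).submatrix g f).det ≠ 0 := by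
  have h1 : ((cx T z).submatrix g f).det = ((evz (mpd T g f) z : ℤ) : ℂ) := by
    have h2 := evz_map (Int.castRingHom ℂ) (mpd T g f) z
    have h3 : evz (mpd T g f) (fun i => ((z i : ℤ) : ℂ)) = ((evz (mpd T g f) z : ℤ) : ℂ) := h2.symm
    rw [← h3, evz_mpd]
    rfl
  rw [h1, evz_int, Int.cast_ne_zero]

theorem mpoly {N1 N2 N3 : ℕ} (T : Fin N1 → Fin N2 → Fin N3 → ℤ) (k : ℕ) : ∃ D : ℕ,
    ∀ z0 : Fin N1 → ℤ, k ≤ (cx T z0).rank → ∃ p : MvPolynomial (Fin N1) ℤ, p.totalDegree ≤ D ∧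
      MvPolynomial.eval z0 p ≠ 0 ∧ ∀ z, MvPolynomial.eval z p ≠ 0 → k ≤ (cx T z).rank := by
  obtain ⟨D, hD⟩ : ∃ D : ℕ, ∀ (g : Fin k → Fin N2) (f : Fin k → Fin N3),
      (mpd T g f).totalDegree ≤ D := by
    obtain ⟨d, hd⟩ : ∃ d : (Fin k → Fin N2) × (Fin k → Fin N3) → ℕ,
      ∀ q, d q = (mpd T q.1 q.2).totalDegree := ⟨_, fun q => rfl⟩
    refine ⟨univ.sup d, fun g f => ?_⟩
    have h1 : d (g, f) ≤ univ.sup d := Finset.le_sup (mem_univ _)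
    rw [hd] at h1
    exact h1
  refine ⟨D, fun z0 hz0 => ?_⟩
  obtain ⟨g, f, hgf⟩ := minor _ hz0
  refine ⟨mpd T g f, hD g f, (mpd_ne T g f z0).2 hgf, fun z hz => ?_⟩
  exact rank_minor _ g f ((mpd_ne T g f z).1 hz)

variable {n : Fin 3 → ℕ}

theorem rkpoly (T : Fin (n 0) → Fin (n 1) → Fin (n 2) → ℤ) (v : Fin 3) : ∃ D : ℕ,
    ∀ (x : Pt n) (z0 : Fin (n v) → ℤ), Rk T (Function.update x v z0) v →
      ∃ p : MvPolynomial (Fin (n v)) ℤ, p.totalDegree ≤ D ∧ MvPolynomial.eval z0 p ≠ 0 ∧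
        ∀ z, MvPolynomial.eval z p ≠ 0 → Rk T (Function.update x v z) v := by
  match v with
  | 0 =>
    obtain ⟨D, hD⟩ := mpoly T 3
    refine ⟨D, fun x z0 h => ?_⟩
    have h' : 3 ≤ (cx T (Function.update x 0 z0 0)).rank := h
    rw [Function.update_self] at h'
    obtain ⟨p, h1, h2, h3⟩ := hD z0 h'
    refine ⟨p, h1, h2, fun z hz => ?_⟩
    show 3 ≤ (cx T (Function.update x 0 z 0)).rank
    rw [Function.update_self]
    exact h3 z hz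
  | 1 =>
    obtain ⟨D, hD⟩ := mpoly (s12 T) 3
    refine ⟨D, fun x z0 h => ?_⟩
    have h' : 3 ≤ (cx (s12 T) (Function.update x 1 z0 1)).rank := h
    rw [Function.update_self] at h'
    obtain ⟨p, h1, h2, h3⟩ := hD z0 h'
    refine ⟨p, h1, h2, fun z hz => ?_⟩
    show 3 ≤ (cx (s12 T) (Function.update x 1 z 1)).rank
    rw [Function.update_self]
    exact h3 z hz
  | 2 =>
    obtain ⟨D, hD⟩ := mpoly (s12 (s23 T)) 3
    refine ⟨D, fun x z0 h => ?_⟩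
    have h' : 3 ≤ (cx (s12 (s23 T)) (Function.update x 2 z0 2)).rank := h
    rw [Function.update_self] at h'
    obtain ⟨p, h1, h2, h3⟩ := hD z0 h'
    refine ⟨p, h1, h2, fun z hz => ?_⟩
    show 3 ≤ (cx (s12 (s23 T)) (Function.update x 2 z 2)).rank
    rw [Function.update_self]
    exact h3 z hz

/-! ### The fibres -/

/-- There is a point of the open set in the fibre. -/
def QT (F : Fin 1 → MvPolynomial (Σ i, Fin (n i)) ℤ) (T : Fin (n 0) → Fin (n 1) → Fin (n 2) → ℤ)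
    (v : Fin 3) (x : Pt n) : Prop := ∃ z, PU F T (Function.update x v z)

theorem qt_qu {F : Fin 1 → MvPolynomial (Σ i, Fin (n i)) ℤ}
    {T : Fin (n 0) → Fin (n 1) → Fin (n 2) → ℤ} {v : Fin 3} {x : Pt n} (h : QT F T v x) :
    QU F T v x := by
  obtain ⟨z, h1, h2, h3⟩ := h
  refine ⟨?_, fun u hu => ?_⟩
  · have := h2 v
    rwa [cf_upd] at this
  · exact (rk_upd T x u v hu z).1 (h3 u)

theorem gen_aux {F : Fin 1 → MvPolynomial (Σ i, Fin (n i)) ℤ}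
    {T : Fin (n 0) → Fin (n 1) → Fin (n 2) → ℤ} (hT : TRep F T) (v : Fin 3) : ∃ D : ℕ,
    ∀ x : Pt n, QT F T v x → ∃ g : MvPolynomial (Fin (n v)) ℤ, g.totalDegree ≤ D ∧
      (∃ z ∈ lat (fun _ : Unit => cf F 0 v x), MvPolynomial.eval z g ≠ 0) ∧
      ∀ z ∈ lat (fun _ : Unit => cf F 0 v x), MvPolynomial.eval z g ≠ 0 →
        PU F T (Function.update x v z) := by
  classical
  obtain ⟨W, hW⟩ := polyW_cf F (fun _ : Fin 3 => Unit) (fun _ _ => 0)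
  obtain ⟨D2, hD2⟩ := rkpoly T v
  obtain ⟨D1, hD1⟩ : ∃ D1 : ℕ, ∀ (u : Fin 3) (i : Fin (n u)), (W u () i).totalDegree ≤ D1 :=
    ⟨(univ : Finset (Σ u : Fin 3, Fin (n u))).sup (fun q => (W q.1 () q.2).totalDegree),
      fun u i => Finset.le_sup (f := fun q : (Σ u : Fin 3, Fin (n u)) =>
        (W q.1 () q.2).totalDegree) (mem_univ (⟨u, i⟩ : Σ u : Fin 3, Fin (n u)))⟩
  refine ⟨3 * D1 + D2, fun x hx => ?_⟩
  have hqu := qt_qu hx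
  obtain ⟨z0, h1, h2, h3⟩ := hx
  have hi : ∀ u, ∃ i, cf F 0 u (Function.update x v z0) i ≠ 0 := fun u =>
    Function.ne_iff.1 (h2 u)
  choose i hi using hi
  obtain ⟨p, hp1, hp2, hp3⟩ := hD2 x z0 (h3 v)
  have hz0 : z0 ∈ lat (fun _ : Unit => cf F 0 v x) := by
    have h4 := (lat_iff hT v (Function.update x v z0)).2 h1
    rw [Function.update_self, cf_upd] at h4
    exact h4
  have hev : ∀ z, MvPolynomial.eval z ((∏ u, rs x v (W u () (i u))) * p) =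
      (∏ u, cf F 0 u (Function.update x v z) (i u)) * MvPolynomial.eval z p := by
    intro z
    rw [map_mul, map_prod]
    congr 1
    refine Finset.prod_congr rfl fun u _ => ?_
    rw [eval_rs]
    exact (hW u _ () (i u)).symm
  refine ⟨(∏ u, rs x v (W u () (i u))) * p, ?_, ⟨z0, hz0, ?_⟩, ?_⟩
  · refine (MvPolynomial.totalDegree_mul _ _).trans (Nat.add_le_add ?_ hp1)
    refine (MvPolynomial.totalDegree_finsetProd _ _).trans ?_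
    refine (Finset.sum_le_card_nsmul univ _ D1 fun u _ => (deg_rs x v _).trans (hD1 u _)).trans ?_
    rw [card_univ, Fintype.card_fin]
    simp
  · rw [hev]
    exact mul_ne_zero (Finset.prod_ne_zero_iff.2 fun u _ => hi u) hp2
  · intro z hz hne
    rw [hev] at hne
    have e1 := left_ne_zero_of_mul hne
    have e2 := right_ne_zero_of_mul hne
    rw [Finset.prod_ne_zero_iff] at e1
    refine ⟨?_, fun u => ?_, fun u => ?_⟩
    · rw [← lat_iff hT v, Function.update_self, cf_upd]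
      exact hz
    · exact Function.ne_iff.2 ⟨i u, e1 u (mem_univ u)⟩
    · by_cases hu : u = v
      · subst hu
        exact hp3 z e2
      · exact (rk_upd T x u v hu z).2 (hqu.2 u hu)

/-! ### The number of the points over small boxes -/

/-- The bound for the number of the points. -/
def NqP {N1 N2 N3 : ℕ} (T : Fin N1 → Fin N2 → Fin N3 → ℤ) (C δ : ℝ) (A B Z ρ : ℕ) : Prop :=
  ∀ (p : (Fin N1 → ℤ) × (Fin N2 → ℤ) × (Fin N3 → ℤ) → Prop) [DecidablePred p],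
    (∀ t, p t → 3 ≤ (cx T t.1).rank ∧ 3 ≤ (cx (s12 T) t.2.1).rank ∧ g3 T t.1 t.2.1 ≠ 0 ∧
      tf T t.1 t.2.1 t.2.2 = 0) →
    ((((bx N1 A ×ˢ bx N2 B ×ˢ bx N3 ρ).filter p).card : ℕ) : ℝ) ≤
      C * ((A : ℝ) ^ (N1 - 1) * (B : ℝ) ^ (N2 - 1)) * (ρ : ℝ) ^ (N3 - 1 - 1) *
        (Z : ℝ) ^ (1 - δ)

/-- The bound for a block. -/
def NqV (T : Fin (n 0) → Fin (n 1) → Fin (n 2) → ℤ) (C δ : ℝ) (X : Fin 3 → ℕ) (ρ : ℕ) :
    Fin 3 → Prop :=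
  ![NqP (s23 (s12 T)) C δ (X 1) (X 2) (X 0) ρ, NqP (s23 T) C δ (X 0) (X 2) (X 1) ρ,
    NqP T C δ (X 0) (X 1) (X 2) ρ]

open Classical in
theorem tr {F : Fin 1 → MvPolynomial (Σ i, Fin (n i)) ℤ}
    {T : Fin (n 0) → Fin (n 1) → Fin (n 2) → ℤ} (hT : TRep F T) (v : Fin 3) (X : Fin 3 → ℕ)
    (ρ : ℕ) (C δ : ℝ) (h : NqV T C δ X ρ v) :
    ((Bx n (Function.update X v ρ) fun x => QT F T v x ∧
      x v ∈ lat (fun _ : Unit => cf F 0 v x)).card : ℝ) ≤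
      C * (∏ u ∈ univ.erase v, (X u : ℝ) ^ (n u - 1)) * (ρ : ℝ) ^ (n v - 1 - 1) *
        (X v : ℝ) ^ (1 - δ) := by
  match v with
  | 2 =>
    have h' : NqP T C δ (X 0) (X 1) (X 2) ρ := h
    obtain ⟨p, hp⟩ : ∃ p : (Fin (n 0) → ℤ) × (Fin (n 1) → ℤ) × (Fin (n 2) → ℤ) → Prop,
      ∀ t, p t ↔ (3 ≤ (cx T t.1).rank ∧ 3 ≤ (cx (s12 T) t.2.1).rank ∧ g3 T t.1 t.2.1 ≠ 0 ∧
      tf T t.1 t.2.1 t.2.2 = 0) := ⟨_, fun t => Iff.rfl⟩
    have h1 := h' p (fun t ht => (hp t).1 ht)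
    have h2 := card_Bx2 (Function.update X 2 ρ) (fun x => QT F T 2 x ∧
      x 2 ∈ lat (fun _ : Unit => cf F 0 2 x)) p (by
      rintro x ⟨a0, a3⟩
      obtain ⟨a1, a2⟩ := qt_qu a0
      rw [lat_iff hT] at a3
      rw [hp]
      have b0 := a2 0 (by decide)
      have b1 := a2 1 (by decide)
      refine ⟨b0, b1, ?_, (zr_tf hT x).1 a3⟩
      rw [(hT ℤ x).2.2.2] at a1
      exact a1)
    have h3 : Function.update X 2 ρ 0 = X 0 := Function.update_of_ne (by decide) _ _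
    have h4 : Function.update X 2 ρ 1 = X 1 := Function.update_of_ne (by decide) _ _
    rw [h3, h4, Function.update_self] at h2
    have h5 : ∏ u ∈ univ.erase (2 : Fin 3), (X u : ℝ) ^ (n u - 1) =
        (X 0 : ℝ) ^ (n 0 - 1) * (X 1 : ℝ) ^ (n 1 - 1) := by
      rw [show univ.erase (2 : Fin 3) = {0, 1} from by decide, Finset.prod_pair (by decide)]
    rw [h5]
    have h6 : ((Bx n (Function.update X 2 ρ) fun x => QT F T 2 x ∧
      x 2 ∈ lat (fun _ : Unit => cf F 0 2 x)).card : ℝ) ≤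
      ((((bx (n 0) (X 0) ×ˢ bx (n 1) (X 1) ×ˢ bx (n 2) ρ).filter p).card : ℕ) : ℝ) := by
      exact_mod_cast h2
    exact h6.trans h1
  | 0 =>
    have h' : NqP (s23 (s12 T)) C δ (X 1) (X 2) (X 0) ρ := h
    obtain ⟨p, hp⟩ : ∃ p : (Fin (n 1) → ℤ) × (Fin (n 2) → ℤ) × (Fin (n 0) → ℤ) → Prop,
      ∀ t, p t ↔ (3 ≤ (cx (s23 (s12 T)) t.1).rank ∧ 3 ≤ (cx (s12 (s23 (s12 T))) t.2.1).rank ∧
      g3 (s23 (s12 T)) t.1 t.2.1 ≠ 0 ∧ tf (s23 (s12 T)) t.1 t.2.1 t.2.2 = 0) :=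
      ⟨_, fun t => Iff.rfl⟩
    have h1 := h' p (fun t ht => (hp t).1 ht)
    have h2 := card_Bx0 (Function.update X 0 ρ) (fun x => QT F T 0 x ∧
      x 0 ∈ lat (fun _ : Unit => cf F 0 0 x)) p (by
      rintro x ⟨a0, a3⟩
      obtain ⟨a1, a2⟩ := qt_qu a0
      rw [lat_iff hT] at a3
      rw [hp]
      have b1 : 3 ≤ (cx (s12 T) (x 1)).rank := a2 1 (by decide)
      have b2 : 3 ≤ (cx (s12 (s23 T)) (x 2)).rank := a2 2 (by decide)
      refine ⟨?_, ?_, ?_, ?_⟩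
      · rw [rank_s23]
        exact b1
      · rw [rank_s12_s23_s12]
        exact b2
      · show g3 (s23 (s12 T)) (x 1) (x 2) ≠ 0
        rw [g3_s23, g2_s12, ← (hT ℤ x).2.1]
        exact a1
      · show tf (s23 (s12 T)) (x 1) (x 2) (x 0) = 0
        rw [tf_s23, tf_s12]
        exact (zr_tf hT x).1 a3)
    have h3 : Function.update X 0 ρ 1 = X 1 := Function.update_of_ne (by decide) _ _
    have h4 : Function.update X 0 ρ 2 = X 2 := Function.update_of_ne (by decide) _ _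
    rw [h3, h4, Function.update_self] at h2
    have h5 : ∏ u ∈ univ.erase (0 : Fin 3), (X u : ℝ) ^ (n u - 1) =
        (X 1 : ℝ) ^ (n 1 - 1) * (X 2 : ℝ) ^ (n 2 - 1) := by
      rw [show univ.erase (0 : Fin 3) = {1, 2} from by decide, Finset.prod_pair (by decide)]
    rw [h5]
    have h6 : ((Bx n (Function.update X 0 ρ) fun x => QT F T 0 x ∧
      x 0 ∈ lat (fun _ : Unit => cf F 0 0 x)).card : ℝ) ≤
      ((((bx (n 1) (X 1) ×ˢ bx (n 2) (X 2) ×ˢ bx (n 0) ρ).filter p).card : ℕ) : ℝ) := by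
      exact_mod_cast h2
    exact h6.trans h1
  | 1 =>
    have h' : NqP (s23 T) C δ (X 0) (X 2) (X 1) ρ := h
    obtain ⟨p, hp⟩ : ∃ p : (Fin (n 0) → ℤ) × (Fin (n 2) → ℤ) × (Fin (n 1) → ℤ) → Prop,
      ∀ t, p t ↔ (3 ≤ (cx (s23 T) t.1).rank ∧ 3 ≤ (cx (s12 (s23 T)) t.2.1).rank ∧
      g3 (s23 T) t.1 t.2.1 ≠ 0 ∧ tf (s23 T) t.1 t.2.1 t.2.2 = 0) := ⟨_, fun t => Iff.rfl⟩
    have h1 := h' p (fun t ht => (hp t).1 ht)
    have h2 := card_Bx1 (Function.update X 1 ρ) (fun x => QT F T 1 x ∧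
      x 1 ∈ lat (fun _ : Unit => cf F 0 1 x)) p (by
      rintro x ⟨a0, a3⟩
      obtain ⟨a1, a2⟩ := qt_qu a0
      rw [lat_iff hT] at a3
      rw [hp]
      have b0 : 3 ≤ (cx T (x 0)).rank := a2 0 (by decide)
      have b2 : 3 ≤ (cx (s12 (s23 T)) (x 2)).rank := a2 2 (by decide)
      refine ⟨?_, b2, ?_, ?_⟩
      · rw [rank_s23]
        exact b0
      · show g3 (s23 T) (x 0) (x 2) ≠ 0
        rw [g3_s23, ← (hT ℤ x).2.2.1]
        exact a1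
      · show tf (s23 T) (x 0) (x 2) (x 1) = 0
        rw [tf_s23]
        exact (zr_tf hT x).1 a3)
    have h3 : Function.update X 1 ρ 0 = X 0 := Function.update_of_ne (by decide) _ _
    have h4 : Function.update X 1 ρ 2 = X 2 := Function.update_of_ne (by decide) _ _
    rw [h3, h4, Function.update_self] at h2
    have h5 : ∏ u ∈ univ.erase (1 : Fin 3), (X u : ℝ) ^ (n u - 1) =
        (X 0 : ℝ) ^ (n 0 - 1) * (X 2 : ℝ) ^ (n 2 - 1) := by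
      rw [show univ.erase (1 : Fin 3) = {0, 2} from by decide, Finset.prod_pair (by decide)]
    rw [h5]
    have h6 : ((Bx n (Function.update X 1 ρ) fun x => QT F T 1 x ∧
      x 1 ∈ lat (fun _ : Unit => cf F 0 1 x)).card : ℝ) ≤
      ((((bx (n 0) (X 0) ×ˢ bx (n 2) (X 2) ×ˢ bx (n 1) ρ).filter p).card : ℕ) : ℝ) := by
      exact_mod_cast h2
    exact h6.trans h1

theorem weakV (hPR : StmtPR) (hn : ∀ v, 3 ≤ n v) {T : Fin (n 0) → Fin (n 1) → Fin (n 2) → ℤ}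
    (hs : Sm ℂ T) {δ' : ℝ} (hδ' : 0 < δ') (hδ1 : δ' ≤ 1) (v : Fin 3) :
    ∃ C δ : ℝ, 0 ≤ C ∧ 0 < δ ∧ ∀ X : Fin 3 → ℕ, (∀ u, 1 ≤ X u) →
      ∏ u ∈ univ.erase v, (X u : ℝ) ≤ (X v : ℝ) ^ (2 - δ') →
      ∃ ρ : ℕ, 1 ≤ ρ ∧ ρ ≤ X v ∧ NqV T C δ X ρ v := by
  match v with
  | 0 =>
    obtain ⟨C, δ, hC, hδ, h⟩ := Nq.weak hPR (hn 1) (hn 2) (hn 0) (s23 (s12 T)) hs.s12.s23 hδ' hδ1
    refine ⟨C, δ, hC, hδ, fun X hX hR => ?_⟩
    have h5 : ∏ u ∈ univ.erase (0 : Fin 3), (X u : ℝ) = (X 1 : ℝ) * (X 2 : ℝ) := by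
      rw [show univ.erase (0 : Fin 3) = {1, 2} from by decide, Finset.prod_pair (by decide)]
    rw [h5] at hR
    obtain ⟨ρ, h1, h2, h3⟩ := h (X 1) (X 2) (X 0) (hX 1) (hX 2) (hX 0) hR
    exact ⟨ρ, h1, h2, fun p _ hp => h3 p hp⟩
  | 1 =>
    obtain ⟨C, δ, hC, hδ, h⟩ := Nq.weak hPR (hn 0) (hn 2) (hn 1) (s23 T) hs.s23 hδ' hδ1
    refine ⟨C, δ, hC, hδ, fun X hX hR => ?_⟩
    have h5 : ∏ u ∈ univ.erase (1 : Fin 3), (X u : ℝ) = (X 0 : ℝ) * (X 2 : ℝ) := by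
      rw [show univ.erase (1 : Fin 3) = {0, 2} from by decide, Finset.prod_pair (by decide)]
    rw [h5] at hR
    obtain ⟨ρ, h1, h2, h3⟩ := h (X 0) (X 2) (X 1) (hX 0) (hX 2) (hX 1) hR
    exact ⟨ρ, h1, h2, fun p _ hp => h3 p hp⟩
  | 2 =>
    obtain ⟨C, δ, hC, hδ, h⟩ := Nq.weak hPR (hn 0) (hn 1) (hn 2) T hs hδ' hδ1
    refine ⟨C, δ, hC, hδ, fun X hX hR => ?_⟩
    have h5 : ∏ u ∈ univ.erase (2 : Fin 3), (X u : ℝ) = (X 0 : ℝ) * (X 1 : ℝ) := by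
      rw [show univ.erase (2 : Fin 3) = {0, 1} from by decide, Finset.prod_pair (by decide)]
    rw [h5] at hR
    obtain ⟨ρ, h1, h2, h3⟩ := h (X 0) (X 1) (X 2) (hX 0) (hX 1) (hX 2) hR
    exact ⟨ρ, h1, h2, fun p _ hp => h3 p hp⟩

theorem strongV (hPR : StmtPR) (hW0 : StmtW0) (hn : ∀ v, 3 ≤ n v)
    {T : Fin (n 0) → Fin (n 1) → Fin (n 2) → ℤ} (hs : Sm ℂ T) (v : Fin 3) (hv : 4 ≤ n v) :
    ∃ C δ : ℝ, 0 ≤ C ∧ 0 < δ ∧ ∀ X : Fin 3 → ℕ, (∀ u, 1 ≤ X u) →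
      (∀ u, (X u : ℝ) ≤ (X v : ℝ) ^ (1 + 1 / ((16 * n v : ℕ) : ℝ))) →
      ∃ ρ : ℕ, 1 ≤ ρ ∧ ρ ≤ X v ∧ NqV T C δ X ρ v := by
  have n0 := hn 0
  have n1 := hn 1
  have n2 := hn 2
  match v with
  | 0 =>
    obtain ⟨C, δ, hC, hδ, h⟩ := Nq.strong hPR (hn 1) (hn 2) (hn 0) (s23 (s12 T)) hs.s12.s23
      (hW0 _ _ _ _ (by omega) n2 hv hs.s12.s23) rfl
    refine ⟨C, δ, hC, hδ, fun X hX hR => ?_⟩
    obtain ⟨ρ, h1, h2, h3⟩ := h (X 1) (X 2) (X 0) (hX 1) (hX 2) (hX 0) (hR 1) (hR 2)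
    exact ⟨ρ, h1, h2, fun p _ hp => h3 p hp⟩
  | 1 =>
    obtain ⟨C, δ, hC, hδ, h⟩ := Nq.strong hPR (hn 0) (hn 2) (hn 1) (s23 T) hs.s23
      (hW0 _ _ _ _ (by omega) n2 hv hs.s23) rfl
    refine ⟨C, δ, hC, hδ, fun X hX hR => ?_⟩
    obtain ⟨ρ, h1, h2, h3⟩ := h (X 0) (X 2) (X 1) (hX 0) (hX 2) (hX 1) (hR 0) (hR 2)
    exact ⟨ρ, h1, h2, fun p _ hp => h3 p hp⟩
  | 2 =>
    obtain ⟨C, δ, hC, hδ, h⟩ := Nq.strong hPR (hn 0) (hn 1) (hn 2) T hs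
      (hW0 _ _ _ _ (by omega) n1 hv hs) rfl
    refine ⟨C, δ, hC, hδ, fun X hX hR => ?_⟩
    obtain ⟨ρ, h1, h2, h3⟩ := h (X 0) (X 1) (X 2) (hX 0) (hX 1) (hX 2) (hR 0) (hR 1)
    exact ⟨ρ, h1, h2, fun p _ hp => h3 p hp⟩

/-- The fibred set with any regions. -/
theorem tft_of (hn : ∀ v, 3 ≤ n v) {F : Fin 1 → MvPolynomial (Σ i, Fin (n i)) ℤ}
    {T : Fin (n 0) → Fin (n 1) → Fin (n 2) → ℤ} (hT : TRep F T)
    {Reg : Fin 3 → (Fin 3 → ℕ) → Prop}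
    (hnq : ∀ v, ∃ C δ : ℝ, 0 ≤ C ∧ 0 < δ ∧ ∀ X : Fin 3 → ℕ, (∀ u, 1 ≤ X u) →
      Reg v X → ∃ ρ : ℕ, 1 ≤ ρ ∧ ρ ≤ X v ∧ NqV T C δ X ρ v) :
    FT n (fun v => n v - 1) (PU F T) (QT F T) (fun _ => Unit) (fun v x _ => cf F 0 v x) Reg where
  card := fun v => by
    have := hn v
    show 1 + (n v - 1) = n v
    omega
  r2 := fun v => by have := hn v; omega
  upd_Q := fun v x z => by
    unfold QT
    simp only [Function.update_idem]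
  upd_w := fun v x z => by
    funext _
    exact cf_upd F v x z
  li := fun v x hx => by
    rw [linearIndependent_unique_iff]
    exact (qt_qu hx).1
  fib := fun v x hx => ⟨⟨x v, by rwa [Function.update_eq_self]⟩, (lat_iff hT v x).2 hx.1⟩
  gen := fun v => gen_aux hT v
  nq := fun v => by
    obtain ⟨C, δ, hC, hδ, h⟩ := hnq v
    refine ⟨C, δ, hC, hδ, fun X hX hR => ?_⟩
    obtain ⟨ρ, h1, h2, h3⟩ := h X hX hR
    exact ⟨ρ, h1, h2, tr hT v X ρ C δ h3⟩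

/-- **Smooth divisors of type `(1, 1, 1)`** with a strong block. -/
theorem tft (hPR : StmtPR) (hW0 : StmtW0) (hn : ∀ v, 3 ≤ n v) {v0 : Fin 3} (hv0 : 4 ≤ n v0)
    {F : Fin 1 → MvPolynomial (Σ i, Fin (n i)) ℤ}
    {T : Fin (n 0) → Fin (n 1) → Fin (n 2) → ℤ} (hT : TRep F T) (hs : Sm ℂ T) {δ' : ℝ}
    (hδ' : 0 < δ') (hδ1 : δ' ≤ 1) :
    FT n (fun v => n v - 1) (PU F T) (QT F T) (fun _ => Unit) (fun v x _ => cf F 0 v x)
      (Rg v0 (16 * n v0) δ') := by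
  apply tft_of hn hT
  intro v
  obtain ⟨C1, δ1, hC1, hδ1', h1⟩ := weakV hPR hn hs hδ' hδ1 v
  by_cases hv : v = v0
  · subst hv
    obtain ⟨C2, δ2, hC2, hδ2, h2⟩ := strongV hPR hW0 hn hs v hv0
    refine ⟨C2, δ2, hC2, hδ2, fun X hX hR => ?_⟩
    rcases hR with ⟨-, hR⟩ | ⟨hR, -⟩
    · exact h2 X hX hR
    · exact absurd rfl hR
  · refine ⟨C1, δ1, hC1, hδ1', fun X hX hR => ?_⟩
    rcases hR with ⟨hR, -⟩ | ⟨-, hR⟩
    · exact absurd hR hv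
    · exact h1 X hX hR

end TFT

end Pool.Agent.T6.H81.BI
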