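import Mathlib
import Pool.Agent.T6.H81.BH.Fin5
import Pool.Agent.T6.H81.BI.Defs

/-!
Smooth divisors of type `(1, 1, 1)`: the way between two points, and lower bounds.
-/

set_option autoImplicit false

namespace Pool.Agent.T6.H81.BI

open Finset Module Matrix Filter Topology
open Pool.Agent.H548.WM (ht bx mem_bx Rep card_bx_le ht_pos)
open Pool.Agent.H548.BL (lat mem_lat rep_ne)
open Pool.Agent.H548.TL (evz evz_map evz_int tf g1 g2 g3 s12 s23 Tx Sm InU InV tri tf_g1 tf_g2 tf_g3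
  g1_s12 g2_s12 g3_s12 tf_s12 g1_s23 g2_s23 g3_s23 tf_s23)
open Pool.Agent.T6.H5.TW (fl MultiDeg)
open Pool.Agent.T6.H81.BG (Pt Bx Zr cf fin_aux)
open Pool.Agent.T6.H81.BH (cx StmtPert Gd)
open Pool.Agent.T6.H81.BH.TFS
open Pool.Agent.T6.H81.BH.TLow (exists_mp mk3 e3 tri_e3 mk3_eta evz_rename evz_mul evz_one)
open Pool.Agent.T6.H81.BH.Fin5 (gs upd0 upd1 upd2)

namespace Way

variable {n : Fin 3 → ℕ}

/-! ### Lower bounds -/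

/-- There are many points of the open set where a polynomial is not zero. -/
theorem low (hPert : StmtPert) (hn : ∀ v, 3 ≤ n v)
    {F : Fin 1 → MvPolynomial (Σ i, Fin (n i)) ℤ}
    {T : Fin (n 0) → Fin (n 1) → Fin (n 2) → ℤ} (hT : TRep F T) (hs : Sm ℂ T)
    (G : MvPolynomial (Σ i, Fin (n i)) ℤ)
    (hG : ∃ z : ∀ i, Fin (n i) → ℂ, Zr F z ∧ (∀ v, cf F 0 v z ≠ 0) ∧ evz G (fl z) ≠ 0) :
    ∃ c B₀ : ℝ, 0 < c ∧ 1 < B₀ ∧ ∀ B : ℝ, B₀ ≤ B → c * B * Real.log B ^ 2 ≤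
      ({x : Pt n | (∀ v, Rep (x v)) ∧ (PU F T x ∧ evz G (fl x) ≠ 0) ∧
        ∏ v, (ht (x v) : ℝ) ^ (n v - 1) ≤ B}.ncard : ℝ) := by
  classical
  have n0 := hn 0
  have n1 := hn 1
  have n2 := hn 2
  obtain ⟨z, hz1, hz2, hz3⟩ := hG
  obtain ⟨f1, hf1, hf1'⟩ := exists_mp (k := 3) (by omega : 1 ≤ n 0) n1 n2 hs
  obtain ⟨f2, hf2, hf2'⟩ := exists_mp (k := 3) (by omega : 1 ≤ n 1) n0 n2 hs.s12
  obtain ⟨f3, hf3, hf3'⟩ := exists_mp (k := 3) (by omega : 1 ≤ n 2) n0 n1 hs.s23.s12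
  have hTz := hT ℂ z
  obtain ⟨G3, hG3⟩ : ∃ G3, G3 = MvPolynomial.rename (e3 n) G := ⟨_, rfl⟩
  obtain ⟨a, b, c, habc, ha, hb, hc⟩ := hPert (n 0) (n 1) (n 2) T G3 f1 f2 f3 hf1 hf2 hf3
    ⟨z 0, z 1, z 2, ⟨by
      rw [← hTz.1]
      exact hz1 0, by
      rw [← hTz.2.1]
      exact hz2 0, by
      rw [← hTz.2.2.1]
      exact hz2 1, by
      rw [← hTz.2.2.2]
      exact hz2 2⟩, by
      rw [hG3, evz_rename, tri_e3, mk3_eta]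
      exact hz3⟩
  obtain ⟨G', hG'⟩ : ∃ G' : MvPolynomial (Fin (n 0) ⊕ Fin (n 1) ⊕ Fin (n 2)) ℤ,
    G' = G3 * (MvPolynomial.rename Sum.inl f1 * (MvPolynomial.rename (Sum.inr ∘ Sum.inl) f2 *
      MvPolynomial.rename (Sum.inr ∘ Sum.inr) f3)) := ⟨_, rfl⟩
  have hev : ∀ (R : Type) [CommRing R] (a : Fin (n 0) → R) (b : Fin (n 1) → R)
      (c : Fin (n 2) → R), evz G' (tri a b c) = evz G (fl (mk3 a b c)) *
        (evz f1 a * (evz f2 b * evz f3 c)) := by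
    intro R _ a b c
    rw [hG', hG3, evz_mul, evz_mul, evz_mul, evz_rename, evz_rename, evz_rename, evz_rename,
      tri_e3]
    rfl
  have hhG : evz G (fl (mk3 a b c)) ≠ 0 := by
    have := habc.2
    rw [hG3, evz_rename, tri_e3] at this
    exact this
  obtain ⟨c0, X₀, hc0, hX₀, hlow⟩ := Pool.Agent.H548.TL.lower n0 n1 n2 hs.real (G := G')
    ⟨a, b, c, habc.1, by
      rw [hev]
      exact mul_ne_zero hhG (mul_ne_zero ha (mul_ne_zero hb hc))⟩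
  refine ⟨c0, X₀ + 1, hc0, by linarith, fun B hB => ?_⟩
  obtain ⟨P, hP, hPc⟩ := hlow B (by linarith)
  have hinj : Function.Injective
      (fun t : (Fin (n 0) → ℤ) × (Fin (n 1) → ℤ) × (Fin (n 2) → ℤ) =>
        (mk3 t.1 t.2.1 t.2.2 : Pt n)) := by
    rintro ⟨a, b, c⟩ ⟨a', b', c'⟩ h
    have e0 : a = a' := congrFun h 0
    have e1 : b = b' := congrFun h 1
    have e2 : c = c' := congrFun h 2
    rw [e0, e1, e2]
  have hfin : {x : Pt n | (∀ v, Rep (x v)) ∧ (PU F T x ∧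
      evz G (fl x) ≠ 0) ∧ ∏ v, (ht (x v) : ℝ) ^ (n v - 1) ≤ B}.Finite := by
    apply (fin_aux (r := fun v => n v - 1) (fun v => by have := hn v; omega)
      {x : Pt n | ∀ v, Rep (x v)} (fun x hx v => ht_pos (rep_ne (hx v))) B).subset
    rintro x ⟨h1, h2, h3⟩
    exact ⟨h1, h3⟩
  have hsub : ((P.image fun t => (mk3 t.1 t.2.1 t.2.2 : Pt n)) : Set (Pt n)) ⊆
      {x : Pt n | (∀ v, Rep (x v)) ∧ (PU F T x ∧
      evz G (fl x) ≠ 0) ∧ ∏ v, (ht (x v) : ℝ) ^ (n v - 1) ≤ B} := by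
    intro x hx
    rw [Finset.mem_coe, Finset.mem_image] at hx
    obtain ⟨t, ht, rfl⟩ := hx
    obtain ⟨k1, k2, k3, k4, k5⟩ := hP t ht
    have k6 := k4.2
    rw [hev] at k6
    have k7 := hT ℤ (mk3 t.1 t.2.1 t.2.2 : Pt n)
    refine ⟨forall3.2 ⟨k1, k2, k3⟩, ⟨⟨?_, forall3.2 ⟨?_, ?_, ?_⟩, forall3.2 ⟨?_, ?_, ?_⟩⟩, ?_⟩,
      ?_⟩
    · rw [zr_tf hT]
      exact k4.1.1
    · rw [k7.2.1]
      exact k4.1.2.1
    · rw [k7.2.2.1]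
      exact k4.1.2.2.1
    · rw [k7.2.2.2]
      exact k4.1.2.2.2
    · exact hf1' _ (left_ne_zero_of_mul (right_ne_zero_of_mul k6))
    · exact hf2' _ (left_ne_zero_of_mul (right_ne_zero_of_mul (right_ne_zero_of_mul k6)))
    · exact hf3' _ (right_ne_zero_of_mul (right_ne_zero_of_mul (right_ne_zero_of_mul k6)))
    · exact left_ne_zero_of_mul k6
    · rw [Fin.prod_univ_three]
      exact k5
  have hc1 := Set.ncard_le_ncard hsub hfin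
  rw [Set.ncard_coe_finset, Finset.card_image_of_injective _ hinj] at hc1
  calc c0 * B * Real.log B ^ 2 = c0 * (B * Real.log B ^ 2) := by ring
    _ ≤ (P.card : ℝ) := hPc
    _ ≤ _ := by exact_mod_cast hc1

/-- The open set is not empty. -/
theorem nonempty_U (hn : ∀ v, 3 ≤ n v) {F : Fin 1 → MvPolynomial (Σ i, Fin (n i)) ℤ}
    {T : Fin (n 0) → Fin (n 1) → Fin (n 2) → ℤ} (hT : TRep F T) (hs : Sm ℂ T) :
    ∃ z : ∀ i, Fin (n i) → ℂ, Zr F z ∧ (∀ v, cf F 0 v z ≠ 0) := by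
  obtain ⟨a, b, c, h1, h2, h3, h4⟩ := Pool.Agent.H548.TL.nonempty (hn 0) (hn 1) (hn 2) hs
  have k7 := hT ℂ (mk3 a b c)
  refine ⟨mk3 a b c, ?_, forall3.2 ⟨?_, ?_, ?_⟩⟩
  · intro e
    rw [Subsingleton.elim e 0, k7.1]
    exact h1
  · rw [k7.2.1]
    exact h2
  · rw [k7.2.2.1]
    exact h3
  · rw [k7.2.2.2]
    exact h4

/-! ### The way -/

/-- The coordinates, in another order. -/
def e3a (n : Fin 3 → ℕ) : (Σ i, Fin (n i)) → Fin (n 1) ⊕ Fin (n 2) ⊕ Fin (n 0) := fun p =>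
  match p with
  | ⟨0, i⟩ => Sum.inr (Sum.inr i)
  | ⟨1, i⟩ => Sum.inl i
  | ⟨2, i⟩ => Sum.inr (Sum.inl i)

theorem tri_e3a {R : Type} (a : Fin (n 0) → R) (b : Fin (n 1) → R) (c : Fin (n 2) → R) :
    (tri b c a) ∘ (e3a n) = fl (mk3 a b c) := by
  funext p
  match p with
  | ⟨0, i⟩ => rfl
  | ⟨1, i⟩ => rfl
  | ⟨2, i⟩ => rfl

/-- The coordinates, in another order. -/
def e3b (n : Fin 3 → ℕ) : (Σ i, Fin (n i)) → Fin (n 0) ⊕ Fin (n 2) ⊕ Fin (n 1) := fun p =>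
  match p with
  | ⟨0, i⟩ => Sum.inl i
  | ⟨1, i⟩ => Sum.inr (Sum.inr i)
  | ⟨2, i⟩ => Sum.inr (Sum.inl i)

theorem tri_e3b {R : Type} (a : Fin (n 0) → R) (b : Fin (n 1) → R) (c : Fin (n 2) → R) :
    (tri a c b) ∘ (e3b n) = fl (mk3 a b c) := by
  funext p
  match p with
  | ⟨0, i⟩ => rfl
  | ⟨1, i⟩ => rfl
  | ⟨2, i⟩ => rfl

variable {F : Fin 1 → MvPolynomial (Σ i, Fin (n i)) ℤ}
    {T : Fin (n 0) → Fin (n 1) → Fin (n 2) → ℤ}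

/-- The way, the last block is the strong one. -/
theorem way2 (hCH4 : StmtCH4) (hn : ∀ v, 3 ≤ n v) (hv : 4 ≤ n 2) (hT : TRep F T) (hs : Sm ℂ T)
    (G : MvPolynomial (Σ i, Fin (n i)) ℤ)
    (hG : ∃ z : ∀ i, Fin (n i) → ℂ, Zr F z ∧ (∀ v, cf F 0 v z ≠ 0) ∧ evz G (fl z) ≠ 0)
    (x : Pt n) (hx : PU F T x) :
    Gd (ι := fun _ => Unit) (fun v (x : Pt n) (_ : Unit) => cf F 0 v x) G [0, 1, 2, 0, 1, 2] x := by
  have hTx := hT ℤ x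
  obtain ⟨hx1, hx2, hx3⟩ := hx
  obtain ⟨z, hz1, hz2, hz3⟩ := hG
  have hTz := hT ℂ z
  obtain ⟨a1, a2, b1, b2, c1, c2, k1, k2, k3, k4, k5, k6, k7, k8, k9, k10, k11, k12⟩ :=
    hCH4 (n 0) (n 1) (n 2) T (hn 0) (hn 1) hv hs (MvPolynomial.rename (e3 n) G)
    ⟨z 0, z 1, z 2, ⟨by
      rw [← hTz.1]
      exact hz1 0, by
      rw [← hTz.2.1]
      exact hz2 0, by
      rw [← hTz.2.2.1]
      exact hz2 1, by
      rw [← hTz.2.2.2]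
      exact hz2 2⟩, by
      rw [evz_rename, tri_e3, mk3_eta]
      exact hz3⟩ (x 0) (x 1) (x 2) ⟨(zr_tf hT x).1 hx1, by
      rw [← hTx.2.1]
      exact hx2 0, by
      rw [← hTx.2.2.1]
      exact hx2 1, by
      rw [← hTx.2.2.2]
      exact hx2 2⟩ (hx3 0) (hx3 1) (hx3 2)
  rw [evz_rename, tri_e3] at k12
  have hx0 : x = mk3 (x 0) (x 1) (x 2) := (mk3_eta x).symm
  rw [hx0]
  refine gs hT G _ 0 _ a1 _ (upd0 _ _ _ _) ?_ ?_ ?_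
  · rw [← hx0]
    exact hx2 0
  · rw [zr_tf hT]
    exact k1
  refine gs hT G _ 1 _ b1 _ (upd1 _ _ _ _) ?_ ?_ ?_
  · rw [(hT ℤ _).2.2.1]
    exact k2
  · rw [zr_tf hT]
    exact k3
  refine gs hT G _ 2 _ c1 _ (upd2 _ _ _ _) ?_ ?_ ?_
  · rw [(hT ℤ _).2.2.2]
    exact k4
  · rw [zr_tf hT]
    exact k5
  refine gs hT G _ 0 _ a2 _ (upd0 _ _ _ _) ?_ ?_ ?_
  · rw [(hT ℤ _).2.1]
    exact k6
  · rw [zr_tf hT]
    exact k7
  refine gs hT G _ 1 _ b2 _ (upd1 _ _ _ _) ?_ ?_ ?_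
  · rw [(hT ℤ _).2.2.1]
    exact k8
  · rw [zr_tf hT]
    exact k9
  refine gs hT G _ 2 _ c2 _ (upd2 _ _ _ _) ?_ ?_ ?_
  · rw [(hT ℤ _).2.2.2]
    exact k10
  · rw [zr_tf hT]
    exact k11
  · exact k12

/-- The way, the first block is the strong one. -/
theorem way0 (hCH4 : StmtCH4) (hn : ∀ v, 3 ≤ n v) (hv : 4 ≤ n 0) (hT : TRep F T) (hs : Sm ℂ T)
    (G : MvPolynomial (Σ i, Fin (n i)) ℤ)
    (hG : ∃ z : ∀ i, Fin (n i) → ℂ, Zr F z ∧ (∀ v, cf F 0 v z ≠ 0) ∧ evz G (fl z) ≠ 0)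
    (x : Pt n) (hx : PU F T x) :
    Gd (ι := fun _ => Unit) (fun v (x : Pt n) (_ : Unit) => cf F 0 v x) G [1, 2, 0, 1, 2, 0] x := by
  have hTx := hT ℤ x
  obtain ⟨hx1, hx2, hx3⟩ := hx
  obtain ⟨z, hz1, hz2, hz3⟩ := hG
  have hTz := hT ℂ z
  have tfe : ∀ (R : Type) [CommRing R] (a : Fin (n 0) → R) (b : Fin (n 1) → R)
      (c : Fin (n 2) → R), tf (s23 (s12 T)) b c a = tf T a b c := fun R _ a b c => by
    rw [tf_s23, tf_s12]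
  have g1e : ∀ (R : Type) [CommRing R] (a : Fin (n 0) → R) (c : Fin (n 2) → R),
      g1 (s23 (s12 T)) c a = g2 T a c := fun R _ a c => by
    rw [g1_s23, g1_s12]
  have g2e : ∀ (R : Type) [CommRing R] (a : Fin (n 0) → R) (b : Fin (n 1) → R),
      g2 (s23 (s12 T)) b a = g3 T a b := fun R _ a b => by
    rw [g2_s23, g3_s12]
  have g3e : ∀ (R : Type) [CommRing R] (b : Fin (n 1) → R) (c : Fin (n 2) → R),
      g3 (s23 (s12 T)) b c = g1 T b c := fun R _ b c => by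
    rw [g3_s23, g2_s12]
  obtain ⟨b1, b2, c1, c2, a1, a2, k1, k2, k3, k4, k5, k6, k7, k8, k9, k10, k11, k12⟩ :=
    hCH4 (n 1) (n 2) (n 0) (s23 (s12 T)) (hn 1) (hn 2) hv hs.s12.s23
    (MvPolynomial.rename (e3a n) G)
    ⟨z 1, z 2, z 0, ⟨by
      rw [tfe, ← hTz.1]
      exact hz1 0, by
      rw [g1e, ← hTz.2.2.1]
      exact hz2 1, by
      rw [g2e, ← hTz.2.2.2]
      exact hz2 2, by
      rw [g3e, ← hTz.2.1]
      exact hz2 0⟩, by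
      rw [evz_rename, tri_e3a, mk3_eta]
      exact hz3⟩ (x 1) (x 2) (x 0) ⟨by
      rw [tfe]
      exact (zr_tf hT x).1 hx1, by
      rw [g1e, ← hTx.2.2.1]
      exact hx2 1, by
      rw [g2e, ← hTx.2.2.2]
      exact hx2 2, by
      rw [g3e, ← hTx.2.1]
      exact hx2 0⟩ (by
      rw [rank_s23]
      exact hx3 1) (by
      rw [rank_s12_s23_s12]
      exact hx3 2) (hx3 0)
  rw [evz_rename, tri_e3a] at k12
  rw [tfe] at k1 k3 k5 k7 k9 k11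
  rw [g1e] at k6
  rw [g2e] at k2 k8
  rw [g3e] at k4 k10
  have hx0 : x = mk3 (x 0) (x 1) (x 2) := (mk3_eta x).symm
  rw [hx0]
  refine gs hT G _ 1 _ b1 _ (upd1 _ _ _ _) ?_ ?_ ?_
  · rw [← hx0]
    exact hx2 1
  · rw [zr_tf hT]
    exact k1
  refine gs hT G _ 2 _ c1 _ (upd2 _ _ _ _) ?_ ?_ ?_
  · rw [(hT ℤ _).2.2.2]
    exact k2
  · rw [zr_tf hT]
    exact k3
  refine gs hT G _ 0 _ a1 _ (upd0 _ _ _ _) ?_ ?_ ?_
  · rw [(hT ℤ _).2.1]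
    exact k4
  · rw [zr_tf hT]
    exact k5
  refine gs hT G _ 1 _ b2 _ (upd1 _ _ _ _) ?_ ?_ ?_
  · rw [(hT ℤ _).2.2.1]
    exact k6
  · rw [zr_tf hT]
    exact k7
  refine gs hT G _ 2 _ c2 _ (upd2 _ _ _ _) ?_ ?_ ?_
  · rw [(hT ℤ _).2.2.2]
    exact k8
  · rw [zr_tf hT]
    exact k9
  refine gs hT G _ 0 _ a2 _ (upd0 _ _ _ _) ?_ ?_ ?_
  · rw [(hT ℤ _).2.1]
    exact k10
  · rw [zr_tf hT]
    exact k11
  · exact k12

/-- The way, the second block is the strong one. -/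
theorem way1 (hCH4 : StmtCH4) (hn : ∀ v, 3 ≤ n v) (hv : 4 ≤ n 1) (hT : TRep F T) (hs : Sm ℂ T)
    (G : MvPolynomial (Σ i, Fin (n i)) ℤ)
    (hG : ∃ z : ∀ i, Fin (n i) → ℂ, Zr F z ∧ (∀ v, cf F 0 v z ≠ 0) ∧ evz G (fl z) ≠ 0)
    (x : Pt n) (hx : PU F T x) :
    Gd (ι := fun _ => Unit) (fun v (x : Pt n) (_ : Unit) => cf F 0 v x) G [0, 2, 1, 0, 2, 1] x := by
  have hTx := hT ℤ x
  obtain ⟨hx1, hx2, hx3⟩ := hx
  obtain ⟨z, hz1, hz2, hz3⟩ := hG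
  have hTz := hT ℂ z
  have tfe : ∀ (R : Type) [CommRing R] (a : Fin (n 0) → R) (b : Fin (n 1) → R)
      (c : Fin (n 2) → R), tf (s23 T) a c b = tf T a b c := fun R _ a b c => by
    rw [tf_s23]
  have g1e : ∀ (R : Type) [CommRing R] (b : Fin (n 1) → R) (c : Fin (n 2) → R),
      g1 (s23 T) c b = g1 T b c := fun R _ b c => by
    rw [g1_s23]
  have g2e : ∀ (R : Type) [CommRing R] (a : Fin (n 0) → R) (b : Fin (n 1) → R),
      g2 (s23 T) a b = g3 T a b := fun R _ a b => by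
    rw [g2_s23]
  have g3e : ∀ (R : Type) [CommRing R] (a : Fin (n 0) → R) (c : Fin (n 2) → R),
      g3 (s23 T) a c = g2 T a c := fun R _ a c => by
    rw [g3_s23]
  obtain ⟨a1, a2, c1, c2, b1, b2, k1, k2, k3, k4, k5, k6, k7, k8, k9, k10, k11, k12⟩ :=
    hCH4 (n 0) (n 2) (n 1) (s23 T) (hn 0) (hn 2) hv hs.s23
    (MvPolynomial.rename (e3b n) G)
    ⟨z 0, z 2, z 1, ⟨by
      rw [tfe, ← hTz.1]
      exact hz1 0, by
      rw [g1e, ← hTz.2.1]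
      exact hz2 0, by
      rw [g2e, ← hTz.2.2.2]
      exact hz2 2, by
      rw [g3e, ← hTz.2.2.1]
      exact hz2 1⟩, by
      rw [evz_rename, tri_e3b, mk3_eta]
      exact hz3⟩ (x 0) (x 2) (x 1) ⟨by
      rw [tfe]
      exact (zr_tf hT x).1 hx1, by
      rw [g1e, ← hTx.2.1]
      exact hx2 0, by
      rw [g2e, ← hTx.2.2.2]
      exact hx2 2, by
      rw [g3e, ← hTx.2.2.1]
      exact hx2 1⟩ (by
      rw [rank_s23]
      exact hx3 0) (hx3 2) (hx3 1)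
  rw [evz_rename, tri_e3b] at k12
  rw [tfe] at k1 k3 k5 k7 k9 k11
  rw [g1e] at k6
  rw [g2e] at k2 k8
  rw [g3e] at k4 k10
  have hx0 : x = mk3 (x 0) (x 1) (x 2) := (mk3_eta x).symm
  rw [hx0]
  refine gs hT G _ 0 _ a1 _ (upd0 _ _ _ _) ?_ ?_ ?_
  · rw [← hx0]
    exact hx2 0
  · rw [zr_tf hT]
    exact k1
  refine gs hT G _ 2 _ c1 _ (upd2 _ _ _ _) ?_ ?_ ?_
  · rw [(hT ℤ _).2.2.2]
    exact k2
  · rw [zr_tf hT]
    exact k3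
  refine gs hT G _ 1 _ b1 _ (upd1 _ _ _ _) ?_ ?_ ?_
  · rw [(hT ℤ _).2.2.1]
    exact k4
  · rw [zr_tf hT]
    exact k5
  refine gs hT G _ 0 _ a2 _ (upd0 _ _ _ _) ?_ ?_ ?_
  · rw [(hT ℤ _).2.1]
    exact k6
  · rw [zr_tf hT]
    exact k7
  refine gs hT G _ 2 _ c2 _ (upd2 _ _ _ _) ?_ ?_ ?_
  · rw [(hT ℤ _).2.2.2]
    exact k8
  · rw [zr_tf hT]
    exact k9
  refine gs hT G _ 1 _ b2 _ (upd1 _ _ _ _) ?_ ?_ ?_
  · rw [(hT ℤ _).2.2.1]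
    exact k10
  · rw [zr_tf hT]
    exact k11
  · exact k12

/-- The way. -/
theorem way (hCH4 : StmtCH4) (hn : ∀ v, 3 ≤ n v) {v0 : Fin 3} (hv0 : 4 ≤ n v0) (hT : TRep F T)
    (hs : Sm ℂ T) (G : MvPolynomial (Σ i, Fin (n i)) ℤ)
    (hG : ∃ z : ∀ i, Fin (n i) → ℂ, Zr F z ∧ (∀ v, cf F 0 v z ≠ 0) ∧ evz G (fl z) ≠ 0) :
    ∃ l : List (Fin 3), ∀ x : Pt n, PU F T x →
      Gd (ι := fun _ => Unit) (fun v (x : Pt n) (_ : Unit) => cf F 0 v x) G l x := by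
  match v0 with
  | 0 => exact ⟨_, fun x hx => way0 hCH4 hn hv0 hT hs G hG x hx⟩
  | 1 => exact ⟨_, fun x hx => way1 hCH4 hn hv0 hT hs G hG x hx⟩
  | 2 => exact ⟨_, fun x hx => way2 hCH4 hn hv0 hT hs G hG x hx⟩

end Way

end Pool.Agent.T6.H81.BI
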