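import Mathlib
import Pool.Agent.T6.H81.BI.As
import Pool.Agent.T6.H81.BI.TFT
import Pool.Agent.T6.H81.BI.Way

/-!
Smooth divisors of type `(1, 1, 1)`: the asymptotic formula when one block has length at least
four.
-/

set_option autoImplicit false

namespace Pool.Agent.T6.H81.BI

open Finset Module Matrix Filter Topology
open Pool.Agent.H548.WM (ht bx mem_bx Rep ht_pos)
open Pool.Agent.H548.BL (lat mem_lat rep_ne)
open Pool.Agent.H548.TL (evz evz_map evz_int tf g1 g2 g3 s12 s23 Tx Sm InU InV tri tf_g1 tf_g2 tf_g3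
  tf_s12 tf_s23)
open Pool.Agent.T6.H5.TW (fl MultiDeg)
open Pool.Agent.T6.H81.BG
open Pool.Agent.T6.H81
open Pool.Agent.T6.H81.BH (cx StmtPert Gd PolyW polyW_cf StmtZ0 StmtPol StmtTR am_cut)
open Pool.Agent.T6.H81.BH.TFS (TRep Rk PU forall3)
open Pool.Agent.T6.H81.BH.TLow (mk3 evz_one)
open Pool.Agent.T6.H81.BH.Fin5 (rk_iff)

namespace Fin6

variable {n : Fin 3 → ℕ}

/-- The tensor of the form, and its smoothness. -/
theorem tensor (hTR : StmtTR) (F : Fin 1 → MvPolynomial (Σ i, Fin (n i)) ℤ)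
    (hF : MultiDeg (F 0) (fun _ => 1))
    (hsm : ∀ z : ∀ v, Fin (n v) → ℂ, (∀ v, z v ≠ 0) → Zr F z → ∃ v, cf F 0 v z ≠ 0) :
    ∃ T : Fin (n 0) → Fin (n 1) → Fin (n 2) → ℤ, TRep F T ∧ Sm ℂ T := by
  obtain ⟨T, hT'⟩ := hTR n F hF
  have hT : TRep F T := hT'
  refine ⟨T, hT, ?_⟩
  intro a b c ha hb hc hh
  obtain ⟨h1, h2, h3⟩ := hh
  have k7 := hT ℂ (mk3 a b c)
  obtain ⟨v, hv⟩ := hsm (mk3 a b c) (forall3.2 ⟨ha, hb, hc⟩) (by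
    intro e
    rw [Subsingleton.elim e 0, k7.1]
    show tf T a b c = 0
    rw [tf_g1, h1, dotProduct_zero])
  apply hv
  match v with
  | 0 => rw [k7.2.1]; exact h1
  | 1 => rw [k7.2.2.1]; exact h2
  | 2 => rw [k7.2.2.2]; exact h3

/-- **Smooth divisors of type `(1, 1, 1)`**, one block of length at least four. -/
theorem main (hP : StmtP3) (hH : StmtH3) (hW : StmtW3) (hR3 : StmtR3)
    (hZ : StmtZ3) (hS8 : StmtS8) (hZ0 : StmtZ0) (hPol : StmtPol) (hTR : StmtTR)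
    (hPert : StmtPert) (hRED : StmtRED) (hPR : StmtPR) (hW0 : StmtW0) (hCH4 : StmtCH4)
    (hn : ∀ v, 3 ≤ n v) {v0 : Fin 3} (hv0 : 4 ≤ n v0)
    (F : Fin 1 → MvPolynomial (Σ i, Fin (n i)) ℤ)
    (hF : MultiDeg (F 0) (fun _ => 1))
    (hsm : ∀ z : ∀ v, Fin (n v) → ℂ, (∀ v, z v ≠ 0) → Zr F z → ∃ v, cf F 0 v z ≠ 0)
    (ψ : (∀ v, Fin (n v) → ℝ) → ℝ) (S : Finset Nat.Primes)
    (φ : ∀ p : Nat.Primes, (∀ v, Fin (n v) → ℚ_[p]) → ℝ) (hψ : LFs {x | Zr F x} ψ)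
    (hφ : ∀ p ∈ S, LFs {x | Zr F x} (φ p)) :
    ∃ c : ℝ, 0 < c ∧ ∀ G : MvPolynomial (Σ i, Fin (n i)) ℤ,
      (∃ z : ∀ i, Fin (n i) → ℂ, Zr F z ∧ (∀ v, cf F 0 v z ≠ 0) ∧ evz G (fl z) ≠ 0) →
      Tendsto (fun B : ℝ => ({x : Pt n | (∀ v, Rep (x v)) ∧ Zr F x ∧ (∀ v, cf F 0 v x ≠ 0) ∧
        (∀ u v, u ≠ v → 3 ≤ ((mf F 0 u v x).map (Int.cast : ℤ → ℚ)).rank) ∧
        evz G (fl x) ≠ 0 ∧
        (∏ v, (ht (x v) : ℝ) ^ (n v - 1)) * Phs ψ S φ x ≤ B}.ncard : ℝ) /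
          (B * Real.log B ^ 2)) atTop (𝓝 c) := by
  obtain ⟨T, hT, hs⟩ := tensor hTR F hF hsm
  have hk : 1 ≤ 16 * n v0 := by omega
  obtain ⟨δ', hδ', hδ1, hred⟩ := red_ok hRED (16 * n v0) hk
  have hδ2 : δ' ≤ 1 := by
    refine hδ1.trans ?_
    rw [div_le_one (by positivity)]
    have : (0 : ℝ) ≤ ((16 * n v0 : ℕ) : ℝ) := Nat.cast_nonneg _
    linarith
  have hFT := TFT.tft hPR hW0 hn hv0 hT hs hδ' hδ2
  have hr1 : ∀ v, 1 ≤ (fun v => n v - 1) v := fun v => by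
    have := hn v
    show 1 ≤ n v - 1
    omega
  obtain ⟨hc0', hcp⟩ := hS8 3 1 n F (fun _ _ => 1) (fun e => by
    rw [Subsingleton.elim e 0]
    exact hF)
  have hP0 : ∀ x, PU F T x → ic ℝ x ∈ {x : ∀ v, Fin (n v) → ℝ | Zr F x} := fun x hx =>
    zr_cast hx.1
  have hPp : ∀ x, PU F T x → ∀ p : Nat.Primes,
      ic ℚ_[p] x ∈ {x : ∀ v, Fin (n v) → ℚ_[p] | Zr F x} := fun x hx p =>
    zr_cast hx.1
  obtain ⟨c, hc⟩ := am_lim' (m := 2) hW hZ (r := fun v => n v - 1) (P := PU F T) hr1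
    (fun κ _ f σ q hq r0 => cas hR3 hP hZ0 hH (hred v0) hFT κ f σ q hq r0) _
    (fun p => {x : ∀ v, Fin (n v) → ℚ_[p] | Zr F x}) hc0' hcp hP0 hPp ψ S φ hψ hφ
  -- positivity
  obtain ⟨z0, hz0, hz0'⟩ := Way.nonempty_U hn hT hs
  obtain ⟨c0, B₀, hc0, hB₀, hlow⟩ := Way.low hPert hn hT hs 1 ⟨z0, hz0, hz0', by
    rw [evz_one]
    exact one_ne_zero⟩
  have hfin : ∀ B : ℝ, {x : Pt n | (∀ v, Rep (x v)) ∧ PU F T x ∧
      ∏ v, (ht (x v) : ℝ) ^ (n v - 1) ≤ B}.Finite := by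
    intro B
    apply (fin_aux (r := fun v => n v - 1) hr1
      {x : Pt n | ∀ v, Rep (x v)} (fun x hx v => ht_pos (rep_ne (hx v))) B).subset
    rintro x ⟨h1, h2, h3⟩
    exact ⟨h1, h3⟩
  have hpos : 0 < c := am_pos (m := 2) (n := n) hZ (r := fun v => n v - 1) hr1 _
    (fun p => {x : ∀ v, Fin (n v) → ℚ_[p] | Zr F x}) hc0' hcp hP0 hPp ψ S φ hψ hφ hc0
    (B₀ := B₀) (by
      intro B hB
      refine (hlow B hB).trans ?_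
      have : {x : Pt n | (∀ v, Rep (x v)) ∧ (PU F T x ∧
          evz 1 (fl x) ≠ 0) ∧ ∏ v, (ht (x v) : ℝ) ^ (n v - 1) ≤ B} ⊆
          {x : Pt n | (∀ v, Rep (x v)) ∧ PU F T x ∧
            ∏ v, (ht (x v) : ℝ) ^ (n v - 1) ≤ B} := by
        rintro x ⟨h1, h2, h3⟩
        exact ⟨h1, h2.1, h3⟩
      exact_mod_cast Set.ncard_le_ncard this (hfin B)) hc
  refine ⟨c, hpos, fun G hG => ?_⟩
  have hPW : PolyW (ι := fun _ : Fin 3 => Unit)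
      (fun (v : Fin 3) (x : Pt n) (_ : Unit) => cf F 0 v x) :=
    polyW_cf F (fun _ => Unit) (fun _ _ => 0)
  obtain ⟨l, hl⟩ := Way.way hCH4 hn hv0 hT hs G hG
  obtain ⟨C, δ, hδ, hneg⟩ := neg hR3 hP hZ0 hPol hk hδ1 (hred v0) hFT hPW G l hl
  have hcut := am_cut (m := 2) hH hZ (r := fun v => n v - 1) hr1 _
    (fun p => {x : ∀ v, Fin (n v) → ℚ_[p] | Zr F x}) hc0' hcp hP0 hPp ψ S φ hψ hφ hδ
      hneg hc
  refine hcut.congr fun B => ?_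
  congr 3
  ext x
  simp only [Set.mem_ofPred_eq, rk_iff hT]
  constructor
  · rintro ⟨h1, ⟨⟨h2, h3, h5⟩, h6⟩, h4⟩
    exact ⟨h1, h2, h3, h5, h6, h4⟩
  · rintro ⟨h1, h2, h3, h5, h6, h4⟩
    exact ⟨h1, ⟨⟨h2, h3, h5⟩, h6⟩, h4⟩

end Fin6

end Pool.Agent.T6.H81.BI
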