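import Mathlib
import Pool.Agent.T6.H81.BI.Fin6

/-!
Smooth divisors of type `(1, 1, 1)`: a point with nonzero gradients.
-/

set_option autoImplicit false

namespace Pool.Agent.T6.H81.BI

open Pool.Agent.H548.TL (evz)
open Pool.Agent.T6.H5.TW (MultiDeg fl)
open Pool.Agent.T6.H81.BG
open Pool.Agent.T6.H81.BH (StmtTR)

/-- The open set is not empty. -/
theorem nonempty_V (hTR : StmtTR) {n : Fin 3 → ℕ} (hn : ∀ v, 3 ≤ n v)
    (F : Fin 1 → MvPolynomial (Σ i, Fin (n i)) ℤ) (hF : MultiDeg (F 0) (fun _ => 1))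
    (hsm : ∀ z : ∀ v, Fin (n v) → ℂ, (∀ v, z v ≠ 0) → Zr F z → ∃ v, cf F 0 v z ≠ 0) :
    ∃ z : ∀ i, Fin (n i) → ℂ, Zr F z ∧ (∀ v, cf F 0 v z ≠ 0) := by
  obtain ⟨T, hT, hs⟩ := Fin6.tensor hTR F hF hsm
  exact Way.nonempty_U hn hT hs

end Pool.Agent.T6.H81.BI
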