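import Pool.Agent.T6.H81.BI.Defs
import Pool.Agent.T6.H81.BH.B1

/-! Module PR: the number of the pairs in the kernels. -/

set_option autoImplicit false

namespace Pool.Agent.T6.H81.BI

open Finset Module Matrix
open Pool.Agent.H548.WM (ht bx mem_bx card_bx_le)
open Pool.Agent.H548.BL (lat mem_lat lat_card doubling orth mem_orth finrank_orth rc_dot rc)
open Pool.Agent.H548.TL (g1 g2 g3 tf Tx row_dot)
open Pool.Agent.T6.H81.BH (cx)
open Pool.Agent.T6.H81.BH.ModB1 (rows_of_rank ker_rows)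

namespace PR

open Classical in
/-- fibres over the first component -/
theorem fib {α β : Type*} (X : Finset α) (Y : Finset β) (Q : α → Prop) (R : α → β → Prop) :
    (((X ×ˢ Y).filter fun t => Q t.1 ∧ R t.1 t.2).card : ℝ) =
      ∑ x ∈ X.filter Q, ((Y.filter (R x)).card : ℝ) := by
  rw [Finset.natCast_card_filter, Finset.sum_product, Finset.sum_filter]
  refine Finset.sum_congr rfl fun x _ => ?_
  split_ifs with h
  · rw [Finset.natCast_card_filter]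
    refine Finset.sum_congr rfl fun y _ => ?_
    simp only [h, true_and]
  · refine Finset.sum_eq_zero fun y _ => ?_
    rw [if_neg]
    exact fun h1 => h h1.1

/-- the vectors which are in all kernels -/
def W {N1 N2 N3 : ℕ} (T : Fin N1 → Fin N2 → Fin N3 → ℤ) (z : Fin N3 → ℤ) : Prop :=
  ∀ i j, (fun k => T i j k) ⬝ᵥ z = 0

theorem g2_eq {N1 N2 N3 : ℕ} (T : Fin N1 → Fin N2 → Fin N3 → ℤ) (x : Fin N1 → ℤ)
    (z : Fin N3 → ℤ) (j : Fin N2) : g2 T x z j = (fun i => (fun k => T i j k) ⬝ᵥ z) ⬝ᵥ x := by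
  unfold g2 dotProduct
  refine Finset.sum_congr rfl fun i _ => ?_
  rw [Finset.sum_mul]
  refine Finset.sum_congr rfl fun k _ => ?_
  simp only [Int.cast_id]
  ring

open Classical in
/-- the number of the `x` with a given kernel vector -/
theorem few {N1 N2 N3 : ℕ} {T : Fin N1 → Fin N2 → Fin N3 → ℤ} {z : Fin N3 → ℤ} (hz : ¬ W T z)
    (A : ℕ) (hA : 1 ≤ A) :
    (((bx N1 A).filter fun x => g2 T x z = 0).card : ℝ) ≤ 3 ^ N1 * (3 * A) ^ (N1 - 1) := by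
  unfold W at hz
  push Not at hz
  obtain ⟨i, j, hij⟩ := hz
  have hw : (fun i => (fun k => T i j k) ⬝ᵥ z) ≠ 0 := fun h => hij (congrFun h i)
  have hli : LinearIndependent ℤ (fun _ : Fin 1 => (fun i => (fun k => T i j k) ⬝ᵥ z)) := by
    rw [linearIndependent_unique_iff]
    exact hw
  have h4 := lat_card hli A hA
  rw [Fintype.card_fin] at h4
  refine le_trans ?_ h4
  have h5 : (bx N1 A).filter (fun x => g2 T x z = 0) ⊆
      (bx N1 A).filter (· ∈ lat (fun _ : Fin 1 => (fun i => (fun k => T i j k) ⬝ᵥ z))) := by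
    intro x hx
    rw [mem_filter] at hx ⊢
    refine ⟨hx.1, ?_⟩
    rw [mem_lat]
    intro _
    rw [← g2_eq, hx.2]
    rfl
  exact_mod_cast card_le_card h5

open Classical in
/-- comparison of the kernel in two boxes -/
theorem dbl {N1 N2 N3 : ℕ} {T : Fin N1 → Fin N2 → Fin N3 → ℤ} {x : Fin N1 → ℤ}
    (hx : 3 ≤ (cx T x).rank) (ρ R : ℕ) (hR : 1 ≤ R) (hRρ : R ≤ ρ) :
    (((bx N3 ρ).filter fun z => g2 T x z = 0).card : ℝ) ≤
      (3 * ρ / R) ^ (N3 - 3) * (((bx N3 R).filter fun z => g2 T x z = 0).card : ℝ) := by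
  obtain ⟨g, hg⟩ := rows_of_rank hx
  have h1 : ∀ z : Fin N3 → ℤ, z ∈ lat (fun j => Tx T x j) ↔ g2 T x z = 0 := by
    intro z
    rw [mem_lat, funext_iff]
    refine forall_congr' fun j => ?_
    rw [row_dot]
    rfl
  have hf := finrank_orth hg
  rw [Fintype.card_fin] at hf
  have h2 := doubling (lat (fun j => Tx T x j)) (orth (fun s => Tx T x (g s))) hf (by
    intro z hz
    rw [mem_orth]
    intro s
    rw [rc_dot, mem_lat.1 hz (g s)]
    simp) ρ R hR hRρ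
  simpa only [h1] using h2

open Classical in
/-- the sum over the points of rank at least three -/
theorem first {N1 N2 N3 : ℕ} (T : Fin N1 → Fin N2 → Fin N3 → ℤ) (A ρ : ℕ) (hA : 1 ≤ A)
    (hρ : 1 ≤ ρ) : ∑ x ∈ (bx N1 A).filter (fun x => 3 ≤ (cx T x).rank),
      (((bx N3 ρ).filter fun z => g2 T x z = 0).card : ℝ) ≤
      3 ^ N1 * (3 ^ N3 * 3 ^ (N3 - 3)) * ((A : ℝ) ^ N1 * (ρ : ℝ) ^ (N3 - 3)) := by
  have hX : (((bx N1 A).filter (fun x => 3 ≤ (cx T x).rank)).card : ℝ) ≤ (3 * A) ^ N1 := by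
    refine le_trans ?_ (card_bx_le N1 hA)
    exact_mod_cast card_le_card (filter_subset _ _)
  calc ∑ x ∈ (bx N1 A).filter (fun x => 3 ≤ (cx T x).rank),
      (((bx N3 ρ).filter fun z => g2 T x z = 0).card : ℝ) ≤
      ∑ _x ∈ (bx N1 A).filter (fun x => 3 ≤ (cx T x).rank),
        3 ^ N3 * (3 * (ρ : ℝ)) ^ (N3 - 3) := by
        refine Finset.sum_le_sum fun x hx => ?_
        rw [mem_filter] at hx
        exact ker_rows (rows_of_rank hx.2) ρ hρ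
    _ = (((bx N1 A).filter (fun x => 3 ≤ (cx T x).rank)).card : ℝ) *
        (3 ^ N3 * (3 * (ρ : ℝ)) ^ (N3 - 3)) := by rw [Finset.sum_const, nsmul_eq_mul]
    _ ≤ (3 * A) ^ N1 * (3 ^ N3 * (3 * (ρ : ℝ)) ^ (N3 - 3)) := by gcongr
    _ = _ := by
      simp only [mul_pow]
      ring

open Classical in
/-- the points with a small kernel vector outside `W` -/
noncomputable def Xb {N1 N2 N3 : ℕ} (T : Fin N1 → Fin N2 → Fin N3 → ℤ) (A R : ℕ) :
    Finset (Fin N1 → ℤ) :=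
  (bx N1 A).filter (fun x => 3 ≤ (cx T x).rank ∧ ∃ z ∈ bx N3 R, g2 T x z = 0 ∧ ¬ W T z)

open Classical in
theorem Xb_card {N1 N2 N3 : ℕ} (T : Fin N1 → Fin N2 → Fin N3 → ℤ) (A R : ℕ) (hA : 1 ≤ A)
    (hR : 1 ≤ R) : ((Xb T A R).card : ℝ) ≤ (3 * R) ^ N3 * (3 ^ N1 * (3 * A) ^ (N1 - 1)) := by
  have h1 : Xb T A R ⊆ ((bx N3 R).filter fun z => ¬ W T z).biUnion fun z =>
      (bx N1 A).filter fun x => g2 T x z = 0 := by
    intro x hx
    unfold Xb at hx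
    rw [mem_filter] at hx
    obtain ⟨hx, _, z, hz, hg, hW⟩ := hx
    rw [mem_biUnion]
    refine ⟨z, mem_filter.2 ⟨hz, hW⟩, mem_filter.2 ⟨hx, hg⟩⟩
  have h2 : ((Xb T A R).card : ℝ) ≤ ∑ z ∈ (bx N3 R).filter fun z => ¬ W T z,
      (((bx N1 A).filter fun x => g2 T x z = 0).card : ℝ) := by
    exact_mod_cast (card_le_card h1).trans card_biUnion_le
  have h3 : (((bx N3 R).filter fun z => ¬ W T z).card : ℝ) ≤ (3 * R) ^ N3 := by
    refine le_trans ?_ (card_bx_le N3 hR)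
    exact_mod_cast card_le_card (filter_subset _ _)
  calc ((Xb T A R).card : ℝ) ≤ _ := h2
    _ ≤ ∑ _z ∈ (bx N3 R).filter fun z => ¬ W T z, 3 ^ N1 * (3 * (A : ℝ)) ^ (N1 - 1) := by
        refine Finset.sum_le_sum fun z hz => ?_
        rw [mem_filter] at hz
        exact few hz.2 A hA
    _ = (((bx N3 R).filter fun z => ¬ W T z).card : ℝ) * (3 ^ N1 * (3 * (A : ℝ)) ^ (N1 - 1)) := by
        rw [Finset.sum_const, nsmul_eq_mul]
    _ ≤ _ := by gcongr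

open Classical in
theorem second {N1 N2 N3 : ℕ} (T : Fin N1 → Fin N2 → Fin N3 → ℤ) (f : Fin 4 → Fin N1 × Fin N2)
    (hf : LinearIndependent ℤ (fun a k => T (f a).1 (f a).2 k)) (A ρ R : ℕ) (hA : 1 ≤ A)
    (hR : 1 ≤ R) (hRρ : R ≤ ρ) : ∑ x ∈ (bx N1 A).filter (fun x => 3 ≤ (cx T x).rank),
      (((bx N3 ρ).filter fun z => g2 T x z = 0).card : ℝ) ≤
      (3 ^ N1 * (3 ^ (N3 - 3) * 3 ^ N3 * 3 ^ (N3 - 4)) +
        3 ^ N3 * 3 ^ N1 * 3 ^ (N1 - 1) * (3 ^ N3 * 3 ^ (N3 - 3))) *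
      ((A : ℝ) ^ N1 * (ρ : ℝ) ^ (N3 - 3) / R +
        (R : ℝ) ^ N3 * (A : ℝ) ^ (N1 - 1) * (ρ : ℝ) ^ (N3 - 3)) := by
  have hN3 : 4 ≤ N3 := by
    have h1 := hf.fintype_card_le_finrank
    rwa [Fintype.card_fin, Module.finrank_fin_fun] at h1
  have hR0 : (0 : ℝ) < R := by exact_mod_cast hR
  have hρ : 1 ≤ ρ := hR.trans hRρ
  have hX : (((bx N1 A).filter (fun x => 3 ≤ (cx T x).rank)).card : ℝ) ≤ (3 * A) ^ N1 := by
    refine le_trans ?_ (card_bx_le N1 hA)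
    exact_mod_cast card_le_card (filter_subset _ _)
  -- the kernel vectors in `W`
  have hW : (((bx N3 R).filter (W T)).card : ℝ) ≤ 3 ^ N3 * (3 * R) ^ (N3 - 4) := by
    have h4 := lat_card hf R hR
    rw [Fintype.card_fin] at h4
    refine le_trans ?_ h4
    have h5 : (bx N3 R).filter (W T) ⊆
        (bx N3 R).filter (· ∈ lat (fun a k => T (f a).1 (f a).2 k)) := by
      intro z hz
      rw [mem_filter] at hz ⊢
      refine ⟨hz.1, ?_⟩
      rw [mem_lat]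
      intro i
      exact hz.2 _ _
    exact_mod_cast card_le_card h5
  have e3 : N3 - 3 = (N3 - 4) + 1 := by omega
  have hx : ∀ x ∈ (bx N1 A).filter (fun x => 3 ≤ (cx T x).rank),
      (((bx N3 ρ).filter fun z => g2 T x z = 0).card : ℝ) ≤
      3 ^ (N3 - 3) * 3 ^ N3 * 3 ^ (N3 - 4) * ((ρ : ℝ) ^ (N3 - 3) / R) +
      (if x ∈ Xb T A R then 3 ^ N3 * (3 * (ρ : ℝ)) ^ (N3 - 3) else 0) := by
    intro x hx
    rw [mem_filter] at hx
    split_ifs with hb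
    · have h1 := ker_rows (rows_of_rank hx.2) ρ hρ
      have h2 : (0 : ℝ) ≤ 3 ^ (N3 - 3) * 3 ^ N3 * 3 ^ (N3 - 4) * ((ρ : ℝ) ^ (N3 - 3) / R) := by
        positivity
      linarith
    · rw [add_zero]
      have h1 : (bx N3 R).filter (fun z => g2 T x z = 0) ⊆ (bx N3 R).filter (W T) := by
        intro z hz
        rw [mem_filter] at hz ⊢
        refine ⟨hz.1, ?_⟩
        by_contra hzW
        apply hb
        unfold Xb
        rw [mem_filter]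
        exact ⟨hx.1, hx.2, z, hz.1, hz.2, hzW⟩
      have h2 : (((bx N3 R).filter fun z => g2 T x z = 0).card : ℝ) ≤
          3 ^ N3 * (3 * R) ^ (N3 - 4) := by
        refine le_trans ?_ hW
        exact_mod_cast card_le_card h1
      calc (((bx N3 ρ).filter fun z => g2 T x z = 0).card : ℝ) ≤
          (3 * ρ / R) ^ (N3 - 3) * (((bx N3 R).filter fun z => g2 T x z = 0).card : ℝ) :=
            dbl hx.2 ρ R hR hRρ
        _ ≤ (3 * ρ / R) ^ (N3 - 3) * (3 ^ N3 * (3 * R) ^ (N3 - 4)) := by gcongr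
        _ = _ := by
          rw [div_pow, mul_pow, mul_pow, e3, pow_succ (R : ℝ)]
          field_simp
  calc ∑ x ∈ (bx N1 A).filter (fun x => 3 ≤ (cx T x).rank),
      (((bx N3 ρ).filter fun z => g2 T x z = 0).card : ℝ) ≤ _ := Finset.sum_le_sum hx
    _ = (((bx N1 A).filter (fun x => 3 ≤ (cx T x).rank)).card : ℝ) *
        (3 ^ (N3 - 3) * 3 ^ N3 * 3 ^ (N3 - 4) * ((ρ : ℝ) ^ (N3 - 3) / R)) +
        ((((bx N1 A).filter (fun x => 3 ≤ (cx T x).rank)).filter (· ∈ Xb T A R)).card : ℝ) *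
          (3 ^ N3 * (3 * (ρ : ℝ)) ^ (N3 - 3)) := by
        rw [Finset.sum_add_distrib, Finset.sum_const, nsmul_eq_mul, ← Finset.sum_filter,
          Finset.sum_const, nsmul_eq_mul]
    _ ≤ (3 * A) ^ N1 * (3 ^ (N3 - 3) * 3 ^ N3 * 3 ^ (N3 - 4) * ((ρ : ℝ) ^ (N3 - 3) / R)) +
        ((3 * R) ^ N3 * (3 ^ N1 * (3 * A) ^ (N1 - 1))) *
          (3 ^ N3 * (3 * (ρ : ℝ)) ^ (N3 - 3)) := by
        gcongr
        refine le_trans ?_ (Xb_card T A R hA hR)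
        have h6 : (((bx N1 A).filter (fun x => 3 ≤ (cx T x).rank)).filter (· ∈ Xb T A R)) ⊆
            Xb T A R := fun x hx => (mem_filter.1 hx).2
        exact_mod_cast card_le_card h6
    _ = 3 ^ N1 * (3 ^ (N3 - 3) * 3 ^ N3 * 3 ^ (N3 - 4)) * ((A : ℝ) ^ N1 * (ρ : ℝ) ^ (N3 - 3) / R) +
        3 ^ N3 * 3 ^ N1 * 3 ^ (N1 - 1) * (3 ^ N3 * 3 ^ (N3 - 3)) *
          ((R : ℝ) ^ N3 * (A : ℝ) ^ (N1 - 1) * (ρ : ℝ) ^ (N3 - 3)) := by
        simp only [mul_pow]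
        ring
    _ ≤ (3 ^ N1 * (3 ^ (N3 - 3) * 3 ^ N3 * 3 ^ (N3 - 4)) +
        3 ^ N3 * 3 ^ N1 * 3 ^ (N1 - 1) * (3 ^ N3 * 3 ^ (N3 - 3))) *
          ((A : ℝ) ^ N1 * (ρ : ℝ) ^ (N3 - 3) / R) +
        (3 ^ N1 * (3 ^ (N3 - 3) * 3 ^ N3 * 3 ^ (N3 - 4)) +
        3 ^ N3 * 3 ^ N1 * 3 ^ (N1 - 1) * (3 ^ N3 * 3 ^ (N3 - 3))) *
          ((R : ℝ) ^ N3 * (A : ℝ) ^ (N1 - 1) * (ρ : ℝ) ^ (N3 - 3)) := by
        gcongr
        · exact le_add_of_nonneg_right (by positivity)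
        · exact le_add_of_nonneg_left (by positivity)
    _ = _ := by ring

end PR

open PR in
open Classical in
/-- Module PR. -/
theorem pR : StmtPR := by
  intro N1 N2 N3 T h1 h2 h3
  have hfib : ∀ A ρ : ℕ, ((((bx N1 A ×ˢ bx N3 ρ).filter fun t => 3 ≤ (cx T t.1).rank ∧
      g2 T t.1 t.2 = 0).card : ℕ) : ℝ) =
      ∑ x ∈ (bx N1 A).filter (fun x => 3 ≤ (cx T x).rank),
        (((bx N3 ρ).filter fun z => g2 T x z = 0).card : ℝ) := by
    intro A ρ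
    convert fib (bx N1 A) (bx N3 ρ) (fun x => 3 ≤ (cx T x).rank) (fun x z => g2 T x z = 0)
  refine ⟨⟨3 ^ N1 * (3 ^ N3 * 3 ^ (N3 - 3)), by positivity, ?_⟩, ?_⟩
  · intro A ρ hA hρ
    rw [hfib]
    exact first T A ρ hA hρ
  · rintro ⟨f, hf⟩
    refine ⟨3 ^ N1 * (3 ^ (N3 - 3) * 3 ^ N3 * 3 ^ (N3 - 4)) +
        3 ^ N3 * 3 ^ N1 * 3 ^ (N1 - 1) * (3 ^ N3 * 3 ^ (N3 - 3)), by positivity, ?_⟩
    intro A ρ R hA hR hRρ
    rw [hfib]
    exact second T f hf A ρ R hA hR hRρ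

end Pool.Agent.T6.H81.BI
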