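import Pool.Agent.T6.H81.BI.Defs

/-! Module RED: from the regions to all boxes with a maximal side. -/

set_option autoImplicit false

namespace Pool.Agent.T6.H81.BI

open Finset

namespace RED

theorem fin_bd (N : ℕ) (H : (Fin 3 → ℕ) → ℝ) :
    ∃ M : ℝ, 0 ≤ M ∧ ∀ X : Fin 3 → ℕ, (∀ u, X u ≤ N) → |H X| ≤ M := by
  classical
  refine ⟨∑ X ∈ Fintype.piFinset (fun _ : Fin 3 => Finset.range (N + 1)), |H X|,
    Finset.sum_nonneg fun _ _ => abs_nonneg _, fun X hX => ?_⟩
  refine Finset.single_le_sum (f := fun X => |H X|) (fun _ _ => abs_nonneg _) ?_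
  rw [Fintype.mem_piFinset]
  intro u
  have := hX u
  simp
  omega

theorem le_rpow {x y e : ℝ} (hx : 0 < x) (hy : 0 < y) (h : Real.log x ≤ e * Real.log y) :
    x ≤ y ^ e := by
  rw [Real.rpow_def_of_pos hy]
  calc x = Real.exp (Real.log x) := (Real.exp_log hx).symm
    _ ≤ Real.exp (Real.log y * e) := Real.exp_le_exp.2 (by linarith)

theorem rpow_le {x y e f : ℝ} (hx : 0 < x) (hy : 0 < y) (h : e * Real.log x ≤ f * Real.log y) :
    x ^ e ≤ y ^ f := by
  rw [Real.rpow_def_of_pos hy, Real.rpow_def_of_pos hx]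
  exact Real.exp_le_exp.2 (by linarith)

theorem one_le_mul {x y δ : ℝ} (hx : 0 < x) (hδ : 0 < δ) (hxy : x ≤ y) :
    1 ≤ y ^ δ * x ^ (-δ) := by
  have h1 : x ^ δ ≤ y ^ δ := Real.rpow_le_rpow hx.le hxy hδ.le
  have h2 : 0 < x ^ δ := Real.rpow_pos_of_pos hx _
  rw [Real.rpow_neg hx.le, ← div_eq_mul_inv, le_div_iff₀ h2]
  linarith

theorem case0 (k : ℕ) (hk : 1 ≤ k) (δ' : ℝ) (G : (Fin 3 → ℕ) → ℝ) (v0 : Fin 3)
    (s : (Fin 3 → ℕ) → ℝ) (C δ : ℝ) (hδ : 0 < δ)
    (h : ∀ X : Fin 3 → ℕ, (∀ u, 1 ≤ X u) → Rg v0 k δ' v0 X →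
      |G X - s (Function.update X v0 0)| ≤ C * (X v0 : ℝ) ^ (-δ)) :
    ∃ C' : ℝ, ∀ X : Fin 3 → ℕ, (∀ u, 1 ≤ X u) → (∀ u, X u ≤ 2 * X v0) →
      |G X - s (Function.update X v0 0)| ≤ C' * (X v0 : ℝ) ^ (-δ) := by
  obtain ⟨M, hM0, hM⟩ := fin_bd (2 ^ (k + 1)) (fun X => G X - s (Function.update X v0 0))
  refine ⟨|C| + M * ((2 ^ k : ℕ) : ℝ) ^ δ, fun X hX1 hX => ?_⟩
  have hv : (1 : ℝ) ≤ X v0 := by exact_mod_cast hX1 v0
  have hvp : (0 : ℝ) < X v0 := by linarith
  have hp : 0 < (X v0 : ℝ) ^ (-δ) := Real.rpow_pos_of_pos hvp _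
  have h2k : (0 : ℝ) < ((2 ^ k : ℕ) : ℝ) ^ δ := Real.rpow_pos_of_pos (by positivity) _
  have hl2 : 0 < Real.log 2 := Real.log_pos (by norm_num)
  rcases le_or_gt (2 ^ k) (X v0) with hbig | hsmall
  · have hR : Rg v0 k δ' v0 X := by
      refine Or.inl ⟨rfl, fun u => ?_⟩
      have hu : (1 : ℝ) ≤ X u := by exact_mod_cast hX1 u
      refine le_rpow (by linarith) hvp ?_
      have h1 : Real.log (X u) ≤ Real.log 2 + Real.log (X v0) := by
        rw [← Real.log_mul (by norm_num) hvp.ne']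
        exact Real.log_le_log (by linarith) (by exact_mod_cast hX u)
      have h2 : k * Real.log 2 ≤ Real.log (X v0) := by
        rw [← Real.log_pow]
        exact Real.log_le_log (by positivity) (by exact_mod_cast hbig)
      have hk' : (0 : ℝ) < k := by exact_mod_cast hk
      have h3 : Real.log 2 ≤ 1 / (k : ℝ) * Real.log (X v0) := by
        rw [one_div, ← div_eq_inv_mul, le_div_iff₀ hk']
        linarith
      linarith
    have h1 := h X hX1 hR
    have h2 : C * (X v0 : ℝ) ^ (-δ) ≤ |C| * (X v0 : ℝ) ^ (-δ) :=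
      mul_le_mul_of_nonneg_right (le_abs_self C) hp.le
    have h3 : 0 ≤ M * ((2 ^ k : ℕ) : ℝ) ^ δ * (X v0 : ℝ) ^ (-δ) := by positivity
    rw [add_mul]
    linarith
  · have h1 := hM X fun u => (hX u).trans (by rw [pow_succ]; omega)
    have h2 := one_le_mul (x := (X v0 : ℝ)) (y := ((2 ^ k : ℕ) : ℝ)) hvp hδ
      (by exact_mod_cast hsmall.le)
    have h3 : M * 1 ≤ M * (((2 ^ k : ℕ) : ℝ) ^ δ * (X v0 : ℝ) ^ (-δ)) :=
      mul_le_mul_of_nonneg_left h2 hM0
    have h4 : 0 ≤ |C| * (X v0 : ℝ) ^ (-δ) := by positivity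
    rw [add_mul]
    linarith

theorem tri7 {g g1 g2 g3 α β γ σ e0 e1 e2 e3 e4 e5 e6 : ℝ} (q0 : |g - α| ≤ e0)
    (q1 : |g1 - α| ≤ e1) (w1 : |g1 - β| ≤ e2) (w2 : |g2 - β| ≤ e3) (q2 : |g2 - γ| ≤ e4)
    (q3 : |g3 - γ| ≤ e5) (w3 : |g3 - σ| ≤ e6) :
    |g - σ| ≤ e0 + e1 + e2 + e3 + e4 + e5 + e6 := by
  rw [abs_le] at *
  constructor <;> linarith [q0.1, q0.2, q1.1, q1.2, q2.1, q2.2, q3.1, q3.2, w1.1, w1.2,
        w2.1, w2.2, w3.1, w3.2]

theorem third : ∀ a b : Fin 3, b ≠ a → ∃ z : Fin 3, z ≠ a ∧ z ≠ b ∧ ∀ u, u = a ∨ u = b ∨ u = z := by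
  decide

theorem prod_erase (a b z : Fin 3) (hza : z ≠ a) (hba : b ≠ a) (hzb : z ≠ b)
    (hall : ∀ u, u = a ∨ u = b ∨ u = z) (f : Fin 3 → ℝ) :
    ∏ u ∈ univ.erase b, f u = f a * f z := by
  have h : (univ.erase b : Finset (Fin 3)) = {a, z} := by
    ext u
    simp only [mem_erase, mem_univ, and_true, mem_insert, mem_singleton]
    constructor
    · intro hu
      rcases hall u with h | h | h
      · exact Or.inl h
      · exact absurd h hu
      · exact Or.inr h
    · rintro (rfl | rfl)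
      · exact hba.symm
      · exact hzb
  rw [h, prod_pair hza.symm]

theorem caseb (k : ℕ) (hk : 1 ≤ k) (G : (Fin 3 → ℕ) → ℝ) (a b : Fin 3) (hba : b ≠ a)
    (sa : (Fin 3 → ℕ) → ℝ) (Ca δa : ℝ) (hδa : 0 < δa)
    (ha : ∀ X : Fin 3 → ℕ, (∀ u, 1 ≤ X u) → Rg a k (1 / (8 * k)) a X →
      |G X - sa (Function.update X a 0)| ≤ Ca * (X a : ℝ) ^ (-δa))
    (sb : (Fin 3 → ℕ) → ℝ) (Cb δb : ℝ) (hδb : 0 < δb)
    (hb : ∀ X : Fin 3 → ℕ, (∀ u, 1 ≤ X u) → Rg a k (1 / (8 * k)) b X →
      |G X - sb (Function.update X b 0)| ≤ Cb * (X b : ℝ) ^ (-δb)) :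
    ∃ C' : ℝ, ∀ X : Fin 3 → ℕ, (∀ u, 1 ≤ X u) → (∀ u, X u ≤ 2 * X b) →
      |G X - sb (Function.update X b 0)| ≤ C' * (X b : ℝ) ^ (-(min (δa / 2) δb)) := by
  obtain ⟨z, hza, hzb, hall⟩ := third a b hba
  obtain ⟨M, hM0, hM⟩ := fin_bd (2 * 2 ^ (64 * k)) (fun X => G X - sb (Function.update X b 0))
  set m := min (δa / 2) δb with hm
  have hm0 : 0 < m := lt_min (by linarith) hδb
  have hma : m ≤ δa / 2 := min_le_left _ _
  have hmb : m ≤ δb := min_le_right _ _
  refine ⟨4 * |Ca| + 3 * |Cb| + M * ((2 ^ (64 * k) : ℕ) : ℝ) ^ m, fun X hX1 hX => ?_⟩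
  have hB1 : (1 : ℝ) ≤ X b := by exact_mod_cast hX1 b
  have hA1 : (1 : ℝ) ≤ X a := by exact_mod_cast hX1 a
  have hZ1 : (1 : ℝ) ≤ X z := by exact_mod_cast hX1 z
  have hBp : (0 : ℝ) < X b := by linarith
  have hAp : (0 : ℝ) < X a := by linarith
  have hZp : (0 : ℝ) < X z := by linarith
  have hp : 0 < (X b : ℝ) ^ (-m) := Real.rpow_pos_of_pos hBp _
  have h2k : (0 : ℝ) < ((2 ^ (64 * k) : ℕ) : ℝ) ^ m := Real.rpow_pos_of_pos (by positivity) _
  obtain ⟨ℓ, hℓ⟩ : ∃ ℓ, ℓ = Real.log 2 := ⟨_, rfl⟩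
  have hl2 : 0 < ℓ := by rw [hℓ]; exact Real.log_pos (by norm_num)
  rcases lt_or_ge (X b) (2 ^ (64 * k)) with hsmall | hbig
  · have h1 := hM X fun u => (hX u).trans (by omega)
    have h2 := one_le_mul (x := (X b : ℝ)) (y := ((2 ^ (64 * k) : ℕ) : ℝ)) hBp hm0
      (by exact_mod_cast hsmall.le)
    have h3 : M * 1 ≤ M * (((2 ^ (64 * k) : ℕ) : ℝ) ^ m * (X b : ℝ) ^ (-m)) :=
      mul_le_mul_of_nonneg_left h2 hM0
    have h4 : 0 ≤ (4 * |Ca| + 3 * |Cb|) * (X b : ℝ) ^ (-m) := by positivity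
    rw [add_mul]
    linarith
  · -- logarithms
    have hkp : (0 : ℝ) < k := by exact_mod_cast hk
    have hk1 : (1 : ℝ) ≤ k := by exact_mod_cast hk
    obtain ⟨L, hL⟩ : ∃ L, L = Real.log (X b) := ⟨_, rfl⟩
    obtain ⟨D, hD⟩ : ∃ D, D = L / k := ⟨_, rfl⟩
    have hLD : L = k * D := by rw [hD]; field_simp
    have hL64 : 64 * k * ℓ ≤ L := by
      have : Real.log ((2 : ℝ) ^ (64 * k)) ≤ Real.log (X b) :=
        Real.log_le_log (by positivity) (by exact_mod_cast hbig)
      rw [Real.log_pow] at this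
      rw [hL, hℓ]
      push_cast at this
      linarith
    have hD64 : 64 * ℓ ≤ D := by
      rw [hD, le_div_iff₀ hkp]
      linarith
    have hD0 : 0 < D := by linarith
    have hLD' : D ≤ L := by rw [hLD]; nlinarith
    have hlA : Real.log (X a) ≤ L + ℓ := by
      rw [hL, hℓ, ← Real.log_mul hBp.ne' (by norm_num)]
      exact Real.log_le_log hAp (by have := hX a; rw [mul_comm]; exact_mod_cast this)
    have hlZ : Real.log (X z) ≤ L + ℓ := by
      rw [hL, hℓ, ← Real.log_mul hBp.ne' (by norm_num)]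
      exact Real.log_le_log hZp (by have := hX z; rw [mul_comm]; exact_mod_cast this)
    have hlA0 : 0 ≤ Real.log (X a) := Real.log_nonneg hA1
    have hlZ0 : 0 ≤ Real.log (X z) := Real.log_nonneg hZ1
    have hDk : D / k ≤ D := div_le_self hD0.le hk1
    have hℓk : ℓ / k ≤ ℓ := div_le_self hl2.le hk1
    have hDk0 : 0 ≤ D / k := by positivity
    -- regions through logarithms
    have hRb : ∀ Y : Fin 3 → ℕ, (∀ u, 1 ≤ Y u) →
        Real.log (Y a) + Real.log (Y z) ≤ (2 - 1 / (8 * k)) * Real.log (Y b) →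
        Rg a k (1 / (8 * k)) b Y := by
      intro Y hY h
      refine Or.inr ⟨hba, ?_⟩
      have h1 : (0 : ℝ) < Y a := by exact_mod_cast hY a
      have h2 : (0 : ℝ) < Y b := by exact_mod_cast hY b
      have h3 : (0 : ℝ) < Y z := by exact_mod_cast hY z
      rw [prod_erase a b z hza hba hzb hall]
      refine le_rpow (by positivity) h2 ?_
      rw [Real.log_mul h1.ne' h3.ne']
      exact h
    have hRa : ∀ Y : Fin 3 → ℕ, (∀ u, 1 ≤ Y u) →
        Real.log (Y b) ≤ (1 + 1 / k) * Real.log (Y a) →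
        Real.log (Y z) ≤ (1 + 1 / k) * Real.log (Y a) →
        Rg a k (1 / (8 * k)) a Y := by
      intro Y hY h h'
      refine Or.inl ⟨rfl, fun u => ?_⟩
      have h1 : (0 : ℝ) < Y a := by exact_mod_cast hY a
      have h1' : (1 : ℝ) ≤ Y a := by exact_mod_cast hY a
      have h2 : (0 : ℝ) < Y u := by exact_mod_cast hY u
      refine le_rpow h2 h1 ?_
      rcases hall u with rfl | rfl | rfl
      · have h3 : 0 ≤ Real.log (Y u) := Real.log_nonneg h1'
        have h4 : 0 ≤ 1 / (k : ℝ) * Real.log (Y u) := by positivity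
        linarith
      · exact h
      · exact h'
    have hfin : ∀ w : ℝ, 0 ≤ w → w ≤ (4 * |Ca| + 3 * |Cb|) * (X b : ℝ) ^ (-m) →
        w ≤ (4 * |Ca| + 3 * |Cb| + M * ((2 ^ (64 * k) : ℕ) : ℝ) ^ m) * (X b : ℝ) ^ (-m) := by
      intro w _ hw
      have h4 : 0 ≤ M * ((2 ^ (64 * k) : ℕ) : ℝ) ^ m * (X b : ℝ) ^ (-m) := by positivity
      rw [add_mul]
      linarith
    refine hfin _ (abs_nonneg _) ?_
    -- error bounds
    have erb : ∀ y : ℝ, 0 < y → L ≤ Real.log y → Cb * y ^ (-δb) ≤ |Cb| * (X b : ℝ) ^ (-m) := by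
      intro y hy hly
      have h1 : y ^ (-δb) ≤ (X b : ℝ) ^ (-m) := by
        refine rpow_le hy hBp ?_
        rw [← hL]
        have h2 : 0 ≤ (δb - m) * L := mul_nonneg (by linarith) (by linarith)
        have h3 : 0 ≤ δb * (Real.log y - L) := mul_nonneg hδb.le (by linarith)
        linarith
      have h2 : 0 < y ^ (-δb) := Real.rpow_pos_of_pos hy _
      calc Cb * y ^ (-δb) ≤ |Cb| * y ^ (-δb) := mul_le_mul_of_nonneg_right (le_abs_self _) h2.le
        _ ≤ _ := mul_le_mul_of_nonneg_left h1 (abs_nonneg _)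
    have era : ∀ y : ℝ, 0 < y → L / 2 ≤ Real.log y → Ca * y ^ (-δa) ≤ |Ca| * (X b : ℝ) ^ (-m) := by
      intro y hy hly
      have h1 : y ^ (-δa) ≤ (X b : ℝ) ^ (-m) := by
        refine rpow_le hy hBp ?_
        rw [← hL]
        have h2 : 0 ≤ (δa / 2 - m) * L := mul_nonneg (by linarith) (by linarith)
        have h3 : 0 ≤ δa * (Real.log y - L / 2) := mul_nonneg hδa.le (by linarith)
        linarith
      have h2 : 0 < y ^ (-δa) := Real.rpow_pos_of_pos hy _
      calc Ca * y ^ (-δa) ≤ |Ca| * y ^ (-δa) := mul_le_mul_of_nonneg_right (le_abs_self _) h2.le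
        _ ≤ _ := mul_le_mul_of_nonneg_left h1 (abs_nonneg _)
    rcases le_or_gt (Real.log (X a) + Real.log (X z)) ((2 - 1 / (8 * k)) * L) with hreg | hreg
    · have h1 := hb X hX1 (hRb X hX1 (by rw [← hL]; exact hreg))
      have h2 := erb (X b) hBp hL.le
      have h3 : 0 ≤ (4 * |Ca| + 2 * |Cb|) * (X b : ℝ) ^ (-m) := by positivity
      linarith
    · have e8 : 1 / (8 * (k : ℝ)) * L = D / 8 := by rw [hD]; field_simp
      have hAlow : L - D / 8 - ℓ ≤ Real.log (X a) := by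
        have : (2 - 1 / (8 * (k : ℝ))) * L = 2 * L - D / 8 := by rw [sub_mul, e8]
        linarith
      -- the auxiliary sides
      obtain ⟨A', hA'⟩ : ∃ A' : ℕ, A' = ⌊(X b : ℝ) ^ (1 - 1 / (4 * (k : ℝ)))⌋₊ := ⟨_, rfl⟩
      obtain ⟨B', hB'⟩ : ∃ B' : ℕ, B' = ⌈(X b : ℝ) ^ (1 + 1 / (4 * (k : ℝ)))⌉₊ := ⟨_, rfl⟩
      have e4 : 1 / (4 * (k : ℝ)) * L = D / 4 := by rw [hD]; field_simp
      have hx1 : (1 : ℝ) ≤ (X b : ℝ) ^ (1 - 1 / (4 * (k : ℝ))) := by
        refine Real.one_le_rpow hB1 ?_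
        rw [sub_nonneg, div_le_one (by positivity)]
        linarith
      have hlx : Real.log ((X b : ℝ) ^ (1 - 1 / (4 * (k : ℝ)))) = L - D / 4 := by
        rw [Real.log_rpow hBp, ← hL, sub_mul, e4, one_mul]
      have hly : Real.log ((X b : ℝ) ^ (1 + 1 / (4 * (k : ℝ)))) = L + D / 4 := by
        rw [Real.log_rpow hBp, ← hL, add_mul, e4, one_mul]
      have hA'1 : 1 ≤ A' := by
        rw [hA']
        exact (Nat.one_le_floor_iff _).2 hx1
      have hA'1r : (1 : ℝ) ≤ A' := by exact_mod_cast hA'1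
      have hA'up : Real.log A' ≤ L - D / 4 := by
        rw [← hlx]
        refine Real.log_le_log (by linarith) ?_
        rw [hA']
        exact Nat.floor_le (by linarith)
      have hA'low : L - D / 4 - ℓ ≤ Real.log A' := by
        have h1 : (X b : ℝ) ^ (1 - 1 / (4 * (k : ℝ))) ≤ A' * 2 := by
          have := Nat.lt_floor_add_one ((X b : ℝ) ^ (1 - 1 / (4 * (k : ℝ))))
          rw [← hA'] at this
          linarith
        have h2 := Real.log_le_log (by linarith) h1
        rw [hlx, Real.log_mul (by linarith) (by norm_num), ← hℓ] at h2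
        linarith
      have hy1 : (1 : ℝ) ≤ (X b : ℝ) ^ (1 + 1 / (4 * (k : ℝ))) :=
        Real.one_le_rpow hB1 (by positivity)
      have hB'ge : (X b : ℝ) ^ (1 + 1 / (4 * (k : ℝ))) ≤ B' := by
        rw [hB']
        exact Nat.le_ceil _
      have hB'1r : (1 : ℝ) ≤ B' := by linarith
      have hB'1 : 1 ≤ B' := by exact_mod_cast hB'1r
      have hB'low : L + D / 4 ≤ Real.log B' := by
        rw [← hly]
        exact Real.log_le_log (by linarith) hB'ge
      have hB'up : Real.log B' ≤ L + D / 4 + ℓ := by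
        have h1 : (B' : ℝ) ≤ (X b : ℝ) ^ (1 + 1 / (4 * (k : ℝ))) * 2 := by
          have := Nat.ceil_lt_add_one (a := (X b : ℝ) ^ (1 + 1 / (4 * (k : ℝ)))) (by linarith)
          rw [← hB'] at this
          linarith
        have h2 := Real.log_le_log (by linarith) h1
        rw [Real.log_mul (by linarith) (by norm_num), hly, ← hℓ] at h2
        linarith
      -- the four points
      have hab : a ≠ b := fun h => hba h.symm
      obtain ⟨X1, hX1d⟩ : ∃ X1, X1 = Function.update X a A' := ⟨_, rfl⟩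
      obtain ⟨X2, hX2d⟩ : ∃ X2, X2 = Function.update X1 b B' := ⟨_, rfl⟩
      obtain ⟨X3, hX3d⟩ : ∃ X3, X3 = Function.update X b B' := ⟨_, rfl⟩
      have v1a : X1 a = A' := by rw [hX1d]; simp
      have v1b : X1 b = X b := by rw [hX1d]; simp [hba]
      have v1z : X1 z = X z := by rw [hX1d]; simp [hza]
      have v2a : X2 a = A' := by rw [hX2d]; simp [hab, v1a]
      have v2b : X2 b = B' := by rw [hX2d]; simp
      have v2z : X2 z = X z := by rw [hX2d]; simp [hzb, v1z]
      have v3a : X3 a = X a := by rw [hX3d]; simp [hab]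
      have v3b : X3 b = B' := by rw [hX3d]; simp
      have v3z : X3 z = X z := by rw [hX3d]; simp [hzb]
      have p1 : ∀ u, 1 ≤ X1 u := by
        intro u
        rcases hall u with rfl | rfl | rfl
        · rw [v1a]; exact hA'1
        · rw [v1b]; exact hX1 _
        · rw [v1z]; exact hX1 _
      have p2 : ∀ u, 1 ≤ X2 u := by
        intro u
        rcases hall u with rfl | rfl | rfl
        · rw [v2a]; exact hA'1
        · rw [v2b]; exact hB'1
        · rw [v2z]; exact hX1 _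
      have p3 : ∀ u, 1 ≤ X3 u := by
        intro u
        rcases hall u with rfl | rfl | rfl
        · rw [v3a]; exact hX1 _
        · rw [v3b]; exact hB'1
        · rw [v3z]; exact hX1 _
      have f1 : Function.update X1 a 0 = Function.update X a 0 := by
        rw [hX1d]; simp
      have f2 : Function.update X2 b 0 = Function.update X1 b 0 := by
        rw [hX2d]; simp
      have f3 : Function.update X2 a 0 = Function.update X3 a 0 := by
        rw [hX2d, hX1d, hX3d, Function.update_comm hab]; simp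
      have f4 : Function.update X3 b 0 = Function.update X b 0 := by
        rw [hX3d]; simp
      -- a lower bound for the multiples
      have mul_low : ∀ w c : ℝ, 0 ≤ c → L - c - ℓ ≤ w → c ≤ D →
          L + D - 2 * c - 2 * ℓ ≤ (1 + 1 / (k : ℝ)) * w := by
        intro w c hc hw hcD
        have h1 : 1 / (k : ℝ) * L = D := by rw [hD]; field_simp
        have h2 : 1 / (k : ℝ) * (L - c - ℓ) ≤ 1 / (k : ℝ) * w :=
          mul_le_mul_of_nonneg_left hw (by positivity)
        have h3 : 1 / (k : ℝ) * c ≤ c := by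
          rw [one_div, ← div_eq_inv_mul]
          exact div_le_self hc hk1
        have h4 : 1 / (k : ℝ) * ℓ ≤ ℓ := by
          rw [one_div, ← div_eq_inv_mul]
          exact div_le_self hl2.le hk1
        have h5 : 1 / (k : ℝ) * (L - c - ℓ) = D - 1 / (k : ℝ) * c - 1 / (k : ℝ) * ℓ := by
          rw [mul_sub, mul_sub, h1]
        rw [add_mul, one_mul]
        linarith
      have mA := mul_low (Real.log (X a)) (D / 8) (by linarith only [hD0]) hAlow
        (by linarith only [hD0])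
      have mA' := mul_low (Real.log A') (D / 4) (by linarith only [hD0]) hA'low
        (by linarith only [hD0])
      -- regions
      have ra0 : Rg a k (1 / (8 * k)) a X :=
        hRa X hX1 (by rw [← hL]; linarith only [mA, hD64, hl2])
          (by linarith only [mA, hD64, hl2, hlZ])
      have ra1 : Rg a k (1 / (8 * k)) a X1 :=
        hRa X1 p1 (by rw [v1a, v1b, ← hL]; linarith only [mA', hD64, hl2])
          (by rw [v1a, v1z]; linarith only [mA', hD64, hl2, hlZ])
      have ra2 : Rg a k (1 / (8 * k)) a X2 :=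
        hRa X2 p2 (by rw [v2a, v2b]; linarith only [mA', hD64, hl2, hB'up])
          (by rw [v2a, v2z]; linarith only [mA', hD64, hl2, hlZ])
      have ra3 : Rg a k (1 / (8 * k)) a X3 :=
        hRa X3 p3 (by rw [v3a, v3b]; linarith only [mA, hD64, hl2, hB'up])
          (by rw [v3a, v3z]; linarith only [mA, hD64, hl2, hlZ])
      have two_low : ∀ w c : ℝ, 0 ≤ c → c ≤ D → L + c ≤ w →
          2 * L + 2 * c - D / 8 - c / 8 ≤ (2 - 1 / (8 * (k : ℝ))) * w := by
        intro w c hc hcD hw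
        have h0 : 0 ≤ 2 - 1 / (8 * (k : ℝ)) := by
          rw [sub_nonneg, div_le_iff₀ (by positivity)]
          linarith
        have h2 := mul_le_mul_of_nonneg_left hw h0
        have h3 : (2 - 1 / (8 * (k : ℝ))) * (L + c) =
            2 * L + 2 * c - D / 8 - 1 / (8 * (k : ℝ)) * c := by
          rw [← e8]; ring
        have h4 : 1 / (8 * (k : ℝ)) * c ≤ c / 8 := by
          rw [one_div, mul_inv, div_eq_inv_mul, mul_assoc]
          refine mul_le_mul_of_nonneg_left ?_ (by norm_num)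
          rw [← div_eq_inv_mul]
          exact div_le_self hc hk1
        linarith
      have rb1 : Rg a k (1 / (8 * k)) b X1 :=
        hRb X1 p1 (by
          rw [v1a, v1b, v1z, ← hL]
          have := two_low L 0 le_rfl hD0.le (by linarith only)
          linarith only [this, hA'up, hlZ, hD64, hl2])
      have rb2 : Rg a k (1 / (8 * k)) b X2 :=
        hRb X2 p2 (by
          rw [v2a, v2b, v2z]
          have := two_low (Real.log B') (D / 4) (by linarith only [hD0]) (by linarith only [hD0])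
            hB'low
          linarith only [this, hA'up, hlZ, hD64, hl2])
      have rb3 : Rg a k (1 / (8 * k)) b X3 :=
        hRb X3 p3 (by
          rw [v3a, v3b, v3z]
          have := two_low (Real.log B') (D / 4) (by linarith only [hD0]) (by linarith only [hD0])
            hB'low
          linarith only [this, hlA, hlZ, hD64, hl2])
      -- the estimates
      have q0 := ha X hX1 ra0
      have q1 := ha X1 p1 ra1
      have q2 := ha X2 p2 ra2
      have q3 := ha X3 p3 ra3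
      have w1 := hb X1 p1 rb1
      have w2 := hb X2 p2 rb2
      have w3 := hb X3 p3 rb3
      rw [f1, v1a] at q1
      rw [f3, v2a] at q2
      rw [v3a] at q3
      rw [v1b] at w1
      rw [f2, v2b] at w2
      rw [f4, v3b] at w3
      have hA'p : (0 : ℝ) < A' := by linarith
      have hB'p : (0 : ℝ) < B' := by linarith
      have b0 := era (X a) hAp (by linarith only [hAlow, hD64, hl2, hLD'])
      have b1 := era A' hA'p (by linarith only [hA'low, hD64, hl2, hLD'])
      have b2 := erb (X b) hBp hL.le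
      have b3 := erb B' hB'p (by linarith only [hB'low, hD0])
      have hfinal := tri7 q0 q1 w1 w2 q2 q3 w3
      linarith only [hfinal, b0, b1, b2, b3]

end RED

theorem rED : StmtRED := by
  intro k hk
  have hkp : (0 : ℝ) < k := by exact_mod_cast hk
  have hk1 : (1 : ℝ) ≤ k := by exact_mod_cast hk
  refine ⟨1 / (8 * k), by positivity, ?_, ?_⟩
  · exact one_div_le_one_div_of_le (by linarith) (by linarith)
  intro r F v0 H v
  classical
  -- normalisation
  have norm : ∀ (v : Fin 3) (S : (Fin 3 → ℕ) → ℝ) (X : Fin 3 → ℕ) (C e : ℝ), (∀ u, 1 ≤ X u) →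
      (|F X - S (Function.update X v 0) * (X v : ℝ) ^ r v| ≤
        C * (∏ u, (X u : ℝ) ^ r u) * (X v : ℝ) ^ (-e) ↔
      |F X / (∏ u, (X u : ℝ) ^ r u) - S (Function.update X v 0) /
        (∏ u ∈ univ.erase v, (Function.update X v 0 u : ℝ) ^ r u)| ≤
        C * (X v : ℝ) ^ (-e)) := by
    intro v S X C e hX
    have h1 : ∏ u ∈ univ.erase v, (Function.update X v 0 u : ℝ) ^ r u =
        ∏ u ∈ univ.erase v, (X u : ℝ) ^ r u := by
      refine Finset.prod_congr rfl fun u hu => ?_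
      rw [Function.update_of_ne (Finset.ne_of_mem_erase hu)]
    have h2 : (X v : ℝ) ^ r v * ∏ u ∈ univ.erase v, (X u : ℝ) ^ r u =
        ∏ u, (X u : ℝ) ^ r u :=
      Finset.mul_prod_erase univ (fun u => (X u : ℝ) ^ r u) (Finset.mem_univ v)
    have h3 : ∀ u, (0 : ℝ) < (X u : ℝ) ^ r u := fun u => by
      have : (0 : ℝ) < X u := by exact_mod_cast hX u
      positivity
    have h4 : (0 : ℝ) < ∏ u, (X u : ℝ) ^ r u := Finset.prod_pos fun u _ => h3 u
    have h5 : (0 : ℝ) < ∏ u ∈ univ.erase v, (X u : ℝ) ^ r u := Finset.prod_pos fun u _ => h3 u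
    rw [h1]
    have h6 : F X / (∏ u, (X u : ℝ) ^ r u) - S (Function.update X v 0) /
        (∏ u ∈ univ.erase v, (X u : ℝ) ^ r u) =
        (F X - S (Function.update X v 0) * (X v : ℝ) ^ r v) / (∏ u, (X u : ℝ) ^ r u) := by
      rw [← h2]
      have := (h3 v).ne'
      field_simp
    rw [h6, abs_div, abs_of_pos h4, div_le_iff₀ h4]
    constructor <;> intro h <;> linarith
  choose S C δ hδ hS using H
  obtain ⟨G, hG⟩ : ∃ G : (Fin 3 → ℕ) → ℝ, G = fun X => F X / (∏ u, (X u : ℝ) ^ r u) := ⟨_, rfl⟩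
  obtain ⟨s, hs⟩ : ∃ s : Fin 3 → (Fin 3 → ℕ) → ℝ, s = fun v Y => S v Y /
    (∏ u ∈ univ.erase v, (Y u : ℝ) ^ r u) := ⟨_, rfl⟩
  have key : ∀ v X, (∀ u, 1 ≤ X u) → Rg v0 k (1 / (8 * k)) v X →
      |G X - s v (Function.update X v 0)| ≤ C v * (X v : ℝ) ^ (-δ v) := by
    intro v X hX hR
    have := (norm v (S v) X (C v) (δ v) hX).1 (hS v X hX hR)
    rw [hG, hs]
    exact this
  have fin : ∃ C' e : ℝ, 0 < e ∧ ∀ X : Fin 3 → ℕ, (∀ u, 1 ≤ X u) → (∀ u, X u ≤ 2 * X v) →
      |G X - s v (Function.update X v 0)| ≤ C' * (X v : ℝ) ^ (-e) := by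
    by_cases hv : v = v0
    · subst hv
      obtain ⟨C', h⟩ := RED.case0 k hk (1 / (8 * k)) G v (s v) (C v) (δ v) (hδ v) (key v)
      exact ⟨C', δ v, hδ v, h⟩
    · obtain ⟨C', h⟩ := RED.caseb k hk G v0 v hv (s v0) (C v0) (δ v0) (hδ v0) (key v0)
        (s v) (C v) (δ v) (hδ v) (key v)
      exact ⟨C', _, lt_min (by linarith [hδ v0]) (hδ v), h⟩
  obtain ⟨C', e, he, h⟩ := fin
  refine ⟨S v, C', e, he, fun X hX hX2 => ?_⟩
  refine (norm v (S v) X C' e hX).2 ?_
  have := h X hX hX2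
  rw [hG, hs] at this
  exact this

end Pool.Agent.T6.H81.BI
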