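import Mathlib
import Pool.Agent.T6.H81.BI.Defs
import Pool.Agent.T6.H81.BH.CH3

/-! Module SP: a vector which is in the row spaces of all matrices. -/

set_option autoImplicit false

namespace Pool.Agent.T6.H81.BI

open Finset Module Matrix
open Pool.Agent.H548.TL (evz tf g1 g2 g3 s12 s23 Tx Sm InU InV tri)

namespace SP

open Polynomial Topology
open Pool.Agent.H548.TL (exists_ker first_order Tx_map Tx_mulVec vecMul_Tx Tx_add Tx_zero
  tf_g1 tf_g2 tf_g3)
open Pool.Agent.T6.H81.BH.CH3 (sep exists_minor rank_of_minor exists_rank')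

variable {N1 N3 : ℕ}

/-- The matrix with a row added. -/
def AV {R : Type*} (v : Fin N3 → R) (M : Matrix (Fin 3) (Fin N3) R) : Matrix (Fin 4) (Fin N3) R :=
  Matrix.of (Fin.cons v (fun j => M j) : Fin 4 → Fin N3 → R)

theorem AV_zero {R : Type*} (v : Fin N3 → R) (M : Matrix (Fin 3) (Fin N3) R) (k : Fin N3) :
    AV v M 0 k = v k := rfl

theorem AV_succ {R : Type*} (v : Fin N3 → R) (M : Matrix (Fin 3) (Fin N3) R) (j : Fin 3)
    (k : Fin N3) : AV v M j.succ k = M j k := rfl

theorem AV_map {R S : Type*} (φ : R → S) (v : Fin N3 → R) (M : Matrix (Fin 3) (Fin N3) R) :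
    (AV v M).map φ = AV (fun k => φ (v k)) (M.map φ) := by
  ext i k
  refine Fin.cases rfl (fun j => rfl) i

/-- The leading coefficients. -/
theorem top {A B : Matrix (Fin 3) (Fin N3) ℂ} (hB : ∀ w : Fin 3 → ℂ, w ᵥ* B = 0 → w = 0)
    (p : Fin 3 → ℂ[X]) (u : Fin N3 → ℂ)
    (h : ∀ k, ∑ j, p j * (C (A j k) + X * C (B j k)) = C (u k)) : p = 0 := by
  have key : ∀ m n : ℕ, (∀ j, (p j).natDegree < n + m) → ∀ j, (p j).coeff n = 0 := by
    intro m
    induction m with
    | zero =>
      intro n hn j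
      exact coeff_eq_zero_of_natDegree_lt (hn j)
    | succ m ih =>
      intro n hn
      have h1 := ih (n + 1) (fun j => by have := hn j; omega)
      have h2 : (fun j => (p j).coeff n) ᵥ* B = 0 := by
        funext k
        have h3 := congrArg (fun f : ℂ[X] => f.coeff (n + 1)) (h k)
        simp only [finset_sum_coeff, coeff_C_succ] at h3
        have h4 : ∀ j : Fin 3, (p j * (C (A j k) + X * C (B j k))).coeff (n + 1) =
            (p j).coeff n * B j k := by
          intro j
          rw [mul_add, coeff_add, coeff_mul_C, h1 j, zero_mul, zero_add, ← mul_assoc,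
            coeff_mul_C, coeff_mul_X]
        rw [Finset.sum_congr rfl fun j _ => h4 j] at h3
        exact h3
      exact fun j => congrFun (hB _ h2) j
  funext j
  ext n
  have := key ((∑ j, (p j).natDegree) + 1) n (fun j => by
    have := Finset.single_le_sum (f := fun j => (p j).natDegree) (fun _ _ => Nat.zero_le _)
      (Finset.mem_univ j)
    omega) j
  simpa using this

/-- Common roots are removed. -/
theorem reduce {A B : Matrix (Fin 3) (Fin N3) ℂ} (hB : ∀ w : Fin 3 → ℂ, w ᵥ* B = 0 → w = 0)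
    {v : Fin N3 → ℂ} (hv : v ≠ 0) : ∀ (n : ℕ) (p : Fin 3 → ℂ[X]) (q : ℂ[X]), q.natDegree = n →
    q ≠ 0 → (∀ k, ∑ j, p j * (C (A j k) + X * C (B j k)) = q * C (v k)) →
    ∃ (p' : Fin 3 → ℂ[X]) (q' : ℂ[X]) (t : ℂ), q' ≠ 0 ∧
      (∀ k, ∑ j, p' j * (C (A j k) + X * C (B j k)) = q' * C (v k)) ∧ q'.eval t = 0 ∧
      (fun j => (p' j).eval t) ≠ 0 := by
  intro n
  induction n using Nat.strong_induction_on with
  | _ n ih =>
    intro p q hqn hq0 h
    by_cases hn : n = 0
    · exfalso
      rw [hn] at hqn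
      obtain ⟨c, hc⟩ := natDegree_eq_zero.1 hqn
      have h1 : p = 0 := top hB p (fun k => c * v k) (fun k => by
        rw [h k, ← hc, ← C_mul])
      apply hv
      funext k
      have h2 := h k
      rw [h1] at h2
      simp only [Pi.zero_apply, zero_mul, Finset.sum_const_zero] at h2
      have h3 := (mul_eq_zero.1 h2.symm).resolve_left hq0
      simpa using h3
    · have hdeg : q.degree ≠ 0 := by
        intro h0
        apply hn
        rw [← hqn]
        exact natDegree_eq_of_degree_eq_some h0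
      obtain ⟨t, ht⟩ := IsAlgClosed.exists_root q hdeg
      by_cases hp : (fun j => (p j).eval t) = 0
      · have hd : ∀ j, (X - C t) ∣ p j := fun j => dvd_iff_isRoot.2 (congrFun hp j)
        choose p' hp' using hd
        obtain ⟨q', hq'⟩ := dvd_iff_isRoot.2 ht
        have hX : (X - C t : ℂ[X]) ≠ 0 := X_sub_C_ne_zero t
        have hq'0 : q' ≠ 0 := by
          rintro rfl
          apply hq0
          rw [hq', mul_zero]
        have hlt : q'.natDegree < n := by
          rw [← hqn, hq', natDegree_mul hX hq'0, natDegree_X_sub_C]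
          omega
        refine ih q'.natDegree hlt p' q' rfl hq'0 (fun k => ?_)
        apply mul_left_cancel₀ hX
        rw [Finset.mul_sum, ← mul_assoc, ← hq', ← h k]
        refine Finset.sum_congr rfl fun j _ => ?_
        rw [← mul_assoc, ← hp' j]
      · exact ⟨p, q, t, hq0, h, ht, hp⟩

/-- The polynomials. -/
theorem exists_pq {A B : Matrix (Fin 3) (Fin N3) ℂ} (hB : ∀ w : Fin 3 → ℂ, w ᵥ* B = 0 → w = 0)
    {v : Fin N3 → ℂ} (h : ∀ t : ℂ, (AV v (A + t • B)).rank < 4) :
    ∃ (p : Fin 3 → ℂ[X]) (q : ℂ[X]), q ≠ 0 ∧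
      ∀ k, ∑ j, p j * (C (A j k) + X * C (B j k)) = q * C (v k) := by
  set P : Matrix (Fin 4) (Fin N3) ℂ[X] :=
    AV (fun k => C (v k)) (Matrix.of fun j k => C (A j k) + X * C (B j k)) with hP
  set K := FractionRing ℂ[X] with hK
  set PK : Matrix (Fin 4) (Fin N3) K := P.map (algebraMap ℂ[X] K) with hPK
  have hnot : ¬ LinearIndependent K PK.row := by
    intro hli
    have hr : 4 ≤ PK.rank := by rw [hli.rank_matrix, Fintype.card_fin]
    obtain ⟨g, c, hgc⟩ := exists_minor PK hr
    have h1 : (P.submatrix g c).det ≠ 0 := by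
      intro h0
      apply hgc
      rw [hPK, submatrix_map, ← RingHom.mapMatrix_apply, ← RingHom.map_det, h0, map_zero]
    obtain ⟨t, ht⟩ : ∃ t : ℂ, ((P.submatrix g c).det).eval t ≠ 0 := by
      by_contra hcon
      push Not at hcon
      exact h1 (Polynomial.funext fun t => by rw [hcon t, eval_zero])
    have h2 : (P.map (evalRingHom t)) = AV v (A + t • B) := by
      rw [hP, AV_map]
      congr 1
      · funext k
        simp
      · ext j k
        simp
        ring
    have h3 : 4 ≤ (AV v (A + t • B)).rank := by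
      apply rank_of_minor (g := g) (c := c)
      rw [← h2, submatrix_map, ← RingHom.mapMatrix_apply, ← RingHom.map_det]
      exact ht
    have := h t
    omega
  rw [← LinearIndependent.iff_fractionRing ℂ[X] K, Fintype.not_linearIndependent_iff] at hnot
  obtain ⟨g, hg, i0, hi0⟩ := hnot
  have hinj : Function.Injective (algebraMap ℂ[X] K) := IsFractionRing.injective _ _
  have hrel : ∀ k, g 0 * C (v k) + ∑ j : Fin 3, g j.succ * (C (A j k) + X * C (B j k)) = 0 := by
    intro k
    have h1 := congrFun hg k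
    rw [Finset.sum_apply] at h1
    have h2 : algebraMap ℂ[X] K (∑ i, g i * P i k) = 0 := by
      rw [map_sum]
      refine Eq.trans ?_ h1
      refine Finset.sum_congr rfl fun i _ => ?_
      rw [Pi.smul_apply, map_mul, Algebra.smul_def]
      rfl
    have h3 : ∑ i, g i * P i k = 0 := hinj (by rw [h2, map_zero])
    rw [Fin.sum_univ_succ] at h3
    exact h3
  refine ⟨fun j => g j.succ, - g 0, ?_, fun k => ?_⟩
  · intro h0
    rw [neg_eq_zero] at h0
    have h1 : (fun j : Fin 3 => g j.succ) = 0 := top hB _ 0 (fun k => by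
      have := hrel k
      rw [h0, zero_mul, zero_add] at this
      rw [this]
      simp)
    apply hi0
    revert i0
    intro i0 _
    refine Fin.cases h0 (fun j => congrFun h1 j) i0
  · have := hrel k
    linear_combination this

/-- The matrix `Tx T x` with the row `v` added. -/
def PV {R : Type*} [CommRing R] (T : Fin N1 → Fin 3 → Fin N3 → ℤ) (v : Fin N3 → ℤ)
    (x : Fin N1 → R) : Matrix (Fin 4) (Fin N3) R :=
  AV (fun k => (v k : R)) (Tx T x)

theorem PV_map {R S : Type*} [CommRing R] [CommRing S] (φ : R →+* S)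
    (T : Fin N1 → Fin 3 → Fin N3 → ℤ) (v : Fin N3 → ℤ) (x : Fin N1 → R) :
    (PV T v x).map φ = PV T v (fun i => φ (x i)) := by
  unfold PV
  rw [AV_map, Tx_map]
  congr 1
  funext k
  simp

theorem PV_add {R : Type*} [CommRing R] (T : Fin N1 → Fin 3 → Fin N3 → ℤ) (v : Fin N3 → ℤ)
    (x h : Fin N1 → R) (s : R) :
    PV T v (x + s • h) = PV T v x + s • AV (0 : Fin N3 → R) (Tx T h) := by
  unfold PV
  ext i k
  refine Fin.cases ?_ (fun j => ?_) i
  · rw [Matrix.add_apply, Matrix.smul_apply, AV_zero, AV_zero, AV_zero]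
    simp
  · rw [Matrix.add_apply, Matrix.smul_apply, AV_succ, AV_succ, AV_succ, Tx_add]
    rfl

theorem near {f : ℂ[X]} (hf : f ≠ 0) (t₀ : ℂ) (ε : ℝ) (hε : 0 < ε) :
    ∃ t : ℂ, ‖t - t₀‖ < ε ∧ f.eval t ≠ 0 := by
  by_contra hcon
  push Not at hcon
  apply hf
  have h1 : (Metric.ball t₀ ε).Infinite := by
    have := (Metric.isOpen_ball (x := t₀) (ε := ε)).mem_nhds (Metric.mem_ball_self hε)
    exact infinite_of_mem_nhds t₀ this
  refine Polynomial.eq_zero_of_infinite_isRoot f (h1.mono fun t ht => ?_)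
  rw [Metric.mem_ball, dist_eq_norm] at ht
  exact hcon t ht

theorem exists_rank4 (h1 : 2 ≤ N1) (h3 : 4 ≤ N3) {T : Fin N1 → Fin 3 → Fin N3 → ℤ}
    (hs : Sm ℂ T) {v : Fin N3 → ℤ} (hv : v ≠ 0) : ∃ x : Fin N1 → ℂ, 4 ≤ (PV T v x).rank := by
  by_contra hcon
  push Not at hcon
  obtain ⟨b, hb0, hb⟩ := exists_rank' (r := 3) (by omega) le_rfl (by omega) hs
  obtain ⟨i, hi⟩ : ∃ i, b i ≠ 0 := by
    by_contra hc
    push Not at hc
    exact hb0 (funext hc)
  obtain ⟨i', hi'⟩ : ∃ i' : Fin N1, i' ≠ i := by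
    have : Nontrivial (Fin N1) := Fin.nontrivial_iff_two_le.2 h1
    exact exists_ne i
  set a : Fin N1 → ℂ := Pi.single i' 1 with ha
  have hab : ∀ t : ℂ, a + t • b ≠ 0 := by
    intro t h0
    have e1 := congrFun h0 i
    have e2 := congrFun h0 i'
    rw [Pi.add_apply, Pi.smul_apply, ha, Pi.single_eq_of_ne hi'.symm, zero_add, smul_eq_mul,
      Pi.zero_apply] at e1
    rw [Pi.add_apply, Pi.smul_apply, ha, Pi.single_eq_same, smul_eq_mul,
      (mul_eq_zero.1 e1).resolve_right hi, zero_mul, add_zero] at e2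
    exact one_ne_zero e2
  set A := Tx T a with hA
  set B := Tx T b with hB
  have hBr : LinearIndependent ℂ B.row := by
    rw [linearIndependent_iff_card_eq_finrank_span, Fintype.card_fin, Set.finrank,
      ← Matrix.rank_eq_finrank_span_row]
    have := B.rank_le_height
    omega
  have hBi : ∀ w : Fin 3 → ℂ, w ᵥ* B = 0 → w = 0 := by
    intro w hw
    have h5 := Matrix.vecMul_injective_iff.2 hBr
    exact h5 (by simp [hw])
  set vc : Fin N3 → ℂ := fun k => (v k : ℂ) with hvc
  have hvc0 : vc ≠ 0 := by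
    intro h0
    apply hv
    funext k
    have := congrFun h0 k
    rw [hvc] at this
    simpa using this
  have hlt : ∀ t : ℂ, (AV vc (A + t • B)).rank < 4 := by
    intro t
    have := hcon (a + t • b)
    unfold PV at this
    rwa [Tx_add] at this
  obtain ⟨p0, q0, hq0, hpq0⟩ := exists_pq hBi hlt
  obtain ⟨p, q, t₀, hq, hpq, hqt, hpt⟩ := reduce hBi hvc0 _ p0 q0 rfl hq0 hpq0
  -- the relation at a point
  have hrel : ∀ t : ℂ, (fun j => (p j).eval t) ᵥ* Tx T (a + t • b) = q.eval t • vc := by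
    intro t
    funext k
    have h5 := congrArg (fun f : ℂ[X] => f.eval t) (hpq k)
    simp only [eval_finset_sum, eval_mul, eval_add, eval_C, eval_X] at h5
    rw [Tx_add, Pi.smul_apply, smul_eq_mul, ← h5]
    rfl
  -- a minor
  obtain ⟨g, c, hc⟩ := exists_minor B hb
  set d : ℂ[X] := det ((X : ℂ[X]) • (B.submatrix g c).map C + (A.submatrix g c).map C) with hd
  have hd0 : d ≠ 0 := by
    intro h0
    apply hc
    have := coeff_det_X_add_C_card (B.submatrix g c) (A.submatrix g c)
    rw [← hd, h0, coeff_zero] at this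
    exact this.symm
  have hdt : ∀ t : ℂ, d.eval t = ((Tx T (a + t • b)).submatrix g c).det := by
    intro t
    have e1 : d.eval t = evalRingHom t d := rfl
    rw [e1, hd, RingHom.map_det, RingHom.mapMatrix_apply]
    congr 1
    ext i k
    rw [Tx_add]
    simp only [map_apply, Matrix.add_apply, Matrix.smul_apply, submatrix_apply, smul_eq_mul,
      coe_evalRingHom, eval_add, eval_mul, eval_X, eval_C]
    ring
  -- good points
  have hgood : ∀ t : ℂ, (q * d).eval t ≠ 0 → ∃ ζ : Fin N3 → ℂ, ‖ζ‖ = 1 ∧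
      g2 T (a + t • b) ζ = 0 ∧ g1 T (fun j => (p j).eval t) ζ = 0 := by
    intro t ht
    rw [eval_mul] at ht
    have hq' := left_ne_zero_of_mul ht
    have hd' := right_ne_zero_of_mul ht
    rw [hdt] at hd'
    set P := PV T v (a + t • b) with hP
    have hr3 : 3 ≤ P.rank := by
      apply rank_of_minor (g := fun s => (g s).succ) (c := c)
      exact hd'
    have hr4 : P.rank < 4 := hcon (a + t • b)
    obtain ⟨η, hη0, hη⟩ := exists_ker P (hr4.trans_le h3)
    have hη1 : g2 T (a + t • b) η = 0 := by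
      rw [← Tx_mulVec]
      funext j
      exact congrFun hη j.succ
    have hξ : (Fin.cons (-(q.eval t)) (fun j => (p j).eval t) : Fin 4 → ℂ) ᵥ* P = 0 := by
      funext k
      have h5 := congrFun (hrel t) k
      rw [Pi.smul_apply, smul_eq_mul] at h5
      unfold vecMul dotProduct at h5 ⊢
      rw [Fin.sum_univ_succ]
      simp only [Fin.cons_zero, Fin.cons_succ]
      rw [Pi.zero_apply]
      have e1 : (fun i => P i k) 0 = vc k := rfl
      have e2 : ∀ j : Fin 3, (fun i => P i k) j.succ = Tx T (a + t • b) j k := fun j => rfl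
      simp only [] at e1 e2
      rw [e1]
      simp only [e2]
      rw [h5]
      ring
    have hg1 : g1 T (fun j => (p j).eval t) η = 0 := by
      have hr : ∀ h : Fin N1 → ℂ, g1 T (fun j => (p j).eval t) η ⬝ᵥ h = 0 := by
        intro h
        have h4 := first_order P (AV (0 : Fin N3 → ℂ) (Tx T h))
          (Filter.Eventually.of_forall fun s => by
            rw [hP, ← PV_add]
            exact (Nat.lt_succ_iff.1 (hcon (a + t • b + s • h))).trans hr3) hξ hη
        rw [dotProduct_comm, ← tf_g1, tf_g2, ← Tx_mulVec]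
        unfold dotProduct at h4 ⊢
        rw [Fin.sum_univ_succ] at h4
        simp only [Fin.cons_zero, Fin.cons_succ] at h4
        have e1 : (AV (0 : Fin N3 → ℂ) (Tx T h) *ᵥ η) 0 = 0 := by
          show (fun k => (0 : Fin N3 → ℂ) k) ⬝ᵥ η = 0
          simp [dotProduct]
        have e2 : ∀ j : Fin 3, (AV (0 : Fin N3 → ℂ) (Tx T h) *ᵥ η) j.succ = (Tx T h *ᵥ η) j :=
          fun j => rfl
        rw [e1, mul_zero, zero_add] at h4
        simp only [e2] at h4
        exact h4
      exact dotProduct_eq_zero _ hr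
    have hn : (‖η‖ : ℂ) ≠ 0 := by
      have := norm_ne_zero_iff.2 hη0
      exact_mod_cast this
    refine ⟨((‖η‖ : ℂ))⁻¹ • η, ?_, ?_, ?_⟩
    · rw [norm_smul, norm_inv, Complex.norm_real, norm_norm,
        inv_mul_cancel₀ (norm_ne_zero_iff.2 hη0)]
    · rw [← Tx_mulVec, mulVec_smul, Tx_mulVec, hη1, smul_zero]
    · have e3 : g1 T (fun j => (p j).eval t) (((‖η‖ : ℂ))⁻¹ • η) =
          ((‖η‖ : ℂ))⁻¹ • g1 T (fun j => (p j).eval t) η := by
        funext i
        rw [Pi.smul_apply, smul_eq_mul]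
        unfold Pool.Agent.H548.TL.g1
        rw [Finset.mul_sum]
        refine Finset.sum_congr rfl fun j _ => ?_
        rw [Finset.mul_sum]
        refine Finset.sum_congr rfl fun k _ => ?_
        rw [Pi.smul_apply, smul_eq_mul]
        ring
      rw [e3, hg1, smul_zero]
  -- the sequence
  have hseq : ∀ n : ℕ, ∃ (t : ℂ) (ζ : Fin N3 → ℂ), ‖t - t₀‖ < 1 / ((n : ℝ) + 1) ∧ ‖ζ‖ = 1 ∧
      g2 T (a + t • b) ζ = 0 ∧ g1 T (fun j => (p j).eval t) ζ = 0 := by
    intro n
    obtain ⟨t, ht1, ht2⟩ := near (mul_ne_zero hq hd0) t₀ (1 / ((n : ℝ) + 1)) (by positivity)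
    obtain ⟨ζ, h5⟩ := hgood t ht2
    exact ⟨t, ζ, ht1, h5⟩
  choose t ζ ht hζ1 hζ2 hζ3 using hseq
  have htl : Filter.Tendsto t Filter.atTop (𝓝 t₀) := by
    rw [tendsto_iff_norm_sub_tendsto_zero]
    exact squeeze_zero (fun n => norm_nonneg _) (fun n => (ht n).le)
      tendsto_one_div_add_atTop_nhds_zero_nat
  obtain ⟨ζ₀, hζ₀, φ, hφ, hlim⟩ := (isCompact_sphere (0 : Fin N3 → ℂ) 1).tendsto_subseq
    (x := ζ) (fun n => by rw [mem_sphere_zero_iff_norm]; exact hζ1 n)
  rw [mem_sphere_zero_iff_norm] at hζ₀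
  have hlim2 : Filter.Tendsto (fun n => (t (φ n), ζ (φ n))) Filter.atTop (𝓝 (t₀, ζ₀)) :=
    (htl.comp hφ.tendsto_atTop).prodMk_nhds hlim
  have c2 : Continuous (fun u : ℂ × (Fin N3 → ℂ) => g2 T (a + u.1 • b) u.2) := by
    unfold Pool.Agent.H548.TL.g2
    fun_prop
  have c1 : Continuous (fun u : ℂ × (Fin N3 → ℂ) => g1 T (fun j => (p j).eval u.1) u.2) := by
    unfold Pool.Agent.H548.TL.g1
    fun_prop
  have l2 : g2 T (a + t₀ • b) ζ₀ = 0 := by
    have h5 := (c2.tendsto (t₀, ζ₀)).comp hlim2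
    refine tendsto_nhds_unique h5 ?_
    refine Filter.Tendsto.congr (fun n => ?_) tendsto_const_nhds
    exact (hζ2 (φ n)).symm
  have l1 : g1 T (fun j => (p j).eval t₀) ζ₀ = 0 := by
    have h5 := (c1.tendsto (t₀, ζ₀)).comp hlim2
    refine tendsto_nhds_unique h5 ?_
    refine Filter.Tendsto.congr (fun n => ?_) tendsto_const_nhds
    exact (hζ3 (φ n)).symm
  refine hs (a + t₀ • b) (fun j => (p j).eval t₀) ζ₀ (hab t₀) hpt ?_ ⟨l1, l2, ?_⟩
  · intro h0
    rw [h0, norm_zero] at hζ₀
    exact zero_ne_one hζ₀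
  · rw [← vecMul_Tx, hrel t₀, hqt, zero_smul]

end SP

open SP in
open Pool.Agent.T6.H81.BH.CH3 (sep exists_minor rank_of_minor) in
theorem sP : StmtSP := by
  intro N1 N3 T v h1 h3 hs hv
  obtain ⟨x, hx⟩ := exists_rank4 h1 h3 hs hv
  obtain ⟨g, c, hgc⟩ := exists_minor _ hx
  have key : ∀ (R : Type) [CommRing R] (x : Fin N1 → R),
      evz ((PV T v (fun i => (MvPolynomial.X i : MvPolynomial (Fin N1) ℤ))).submatrix g c).det x =
        ((PV T v x).submatrix g c).det := by
    intro R _ x
    have e1 : evz ((PV T v (fun i => (MvPolynomial.X i : MvPolynomial (Fin N1) ℤ))).submatrix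
        g c).det x = MvPolynomial.eval₂Hom (Int.castRingHom R) x
        ((PV T v (fun i => (MvPolynomial.X i : MvPolynomial (Fin N1) ℤ))).submatrix g c).det := rfl
    rw [e1, RingHom.map_det, RingHom.mapMatrix_apply, ← submatrix_map, PV_map]
    simp only [MvPolynomial.eval₂Hom_X']
  refine ⟨((PV T v (fun i => (MvPolynomial.X i : MvPolynomial (Fin N1) ℤ))).submatrix g c).det,
    ?_, fun x' hx' => ?_⟩
  · intro h0
    apply hgc
    rw [← key ℂ x, h0]
    unfold Pool.Agent.H548.TL.evz
    simp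
  · rw [key ℤ x'] at hx'
    have hr := rank_of_minor _ hx'
    obtain ⟨z, hz1, hz2⟩ := sep (PV T v x') (Tx T x') (by omega)
    refine ⟨z, hz1, fun h0 => hz2 ?_⟩
    funext i
    refine Fin.cases ?_ (fun j => ?_) i
    · show (fun k => ((v k : ℤ) : ℤ)) ⬝ᵥ z = 0
      simpa using h0
    · exact congrFun hz1 j

end Pool.Agent.T6.H81.BI
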