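import Mathlib
import Pool.Agent.T6.H81.BI.Defs
import Pool.Agent.T6.H81.BH.CH3

/-! Module W0: the span of all vectors `T i j`. -/

set_option autoImplicit false

namespace Pool.Agent.T6.H81.BI

open Finset Module Matrix
open Pool.Agent.H548.TL (evz tf g1 g2 g3 s12 s23 Tx Sm InU InV tri)

namespace W0

open Pool.Agent.H548.TL (exists_ker Tx_mulVec vecMul_Tx Tx_add g1_s12 g2_s12)

/-- The matrix of all vectors `T i j`. -/
def MM {N1 N2 N3 : ℕ} (T : Fin N1 → Fin N2 → Fin N3 → ℤ) : Matrix (Fin N1 × Fin N2) (Fin N3) ℂ :=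
  Matrix.of fun p k => (T p.1 p.2 k : ℂ)

theorem rows_int {ι : Type*} {n : ℕ} (w : ι → Fin n → ℤ)
    (h : LinearIndependent ℂ (fun a k => ((w a k : ℤ) : ℂ))) : LinearIndependent ℤ w := by
  have h1 : LinearIndependent ℤ (fun a k => ((w a k : ℤ) : ℂ)) := h.restrict_scalars (by
    intro a b hab
    simpa using hab)
  let φ : (Fin n → ℤ) →ₗ[ℤ] (Fin n → ℂ) :=
    { toFun := fun v k => ((v k : ℤ) : ℂ)
      map_add' := by intro a b; funext k; simp
      map_smul' := by intro a b; funext k; simp }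
  have h2 : (fun a k => ((w a k : ℤ) : ℂ)) = φ ∘ w := rfl
  rw [h2] at h1
  exact LinearIndependent.of_comp φ h1

theorem exists_rows' {K : Type*} [Field K] {ι : Type*} [Fintype ι] {n r : ℕ}
    (M : Matrix ι (Fin n) K) (h : r ≤ M.rank) :
    ∃ g : Fin r → ι, LinearIndependent K (fun a => M (g a)) := by
  rw [Matrix.rank_eq_finrank_span_row] at h
  obtain ⟨f, hf, -, hli⟩ := Submodule.exists_fun_fin_finrank_span_eq K (Set.range M.row)
  have hf' : ∀ s : Fin r, ∃ j, M.row j = f (Fin.castLE h s) := fun s => hf _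
  choose g hg using hf'
  refine ⟨g, ?_⟩
  have h2 := hli.comp (Fin.castLE h) (Fin.castLE_injective h)
  have h3 : (fun a => M (g a)) = f ∘ (Fin.castLE h) := by
    funext s
    exact hg s
  rw [h3]
  exact h2

theorem row_mem {N1 N2 N3 : ℕ} (T : Fin N1 → Fin N2 → Fin N3 → ℤ) (x : Fin N1 → ℂ) (j : Fin N2) :
    (Tx T x) j ∈ Submodule.span ℂ (Set.range (MM T).row) := by
  have h : (Tx T x) j = ∑ i, x i • (MM T).row (i, j) := by
    funext k
    unfold Tx MM
    simp only [of_apply, Finset.sum_apply, Pi.smul_apply, smul_eq_mul, Matrix.row]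
    refine Finset.sum_congr rfl fun i _ => ?_
    ring
  rw [h]
  exact Submodule.sum_mem _ fun i _ => Submodule.smul_mem _ _ (Submodule.subset_span ⟨_, rfl⟩)

theorem exists_xy {N1 N2 N3 : ℕ} (T : Fin N1 → Fin N2 → Fin N3 → ℤ) (h1 : 2 ≤ N1) (h2 : 3 ≤ N2)
    (hr : (MM T).rank ≤ 3) :
    ∃ (x : Fin N1 → ℂ) (y : Fin N2 → ℂ), x ≠ 0 ∧ y ≠ 0 ∧ g3 T x y = 0 := by
  by_cases hlow : ∃ x : Fin N1 → ℂ, x ≠ 0 ∧ (Tx T x).rank < N2
  · obtain ⟨x, hx, hlt⟩ := hlow
    obtain ⟨y, hy0, hy⟩ := exists_ker (Tx T x)ᵀ (by rw [rank_transpose]; omega)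
    rw [mulVec_transpose, vecMul_Tx] at hy
    exact ⟨x, y, hx, hy0, hy⟩
  · push Not at hlow
    set b : Fin N1 → ℂ := Pi.single ⟨0, by omega⟩ 1 with hb
    set a : Fin N1 → ℂ := Pi.single ⟨1, by omega⟩ 1 with ha
    have hb0 : b ≠ 0 := by
      intro h
      have := congrFun h ⟨0, by omega⟩
      simp [hb] at this
    have hB := hlow b hb0
    have hle : Submodule.span ℂ (Set.range (Tx T b).row) ≤
        Submodule.span ℂ (Set.range (MM T).row) := by
      rw [Submodule.span_le]
      rintro _ ⟨j, rfl⟩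
      exact row_mem T b j
    have heq : Submodule.span ℂ (Set.range (Tx T b).row) =
        Submodule.span ℂ (Set.range (MM T).row) := by
      apply Submodule.eq_of_le_of_finrank_le hle
      rw [← Matrix.rank_eq_finrank_span_row, ← Matrix.rank_eq_finrank_span_row]
      omega
    have hC : ∀ j : Fin N2, ∃ c : Fin N2 → ℂ, ∑ i, c i • (Tx T b).row i = (Tx T a) j := by
      intro j
      have h5 := row_mem T a j
      rw [← heq, Submodule.mem_span_range_iff_exists_fun] at h5
      exact h5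
    choose c hc using hC
    have hAB : Tx T a = (Matrix.of c) * Tx T b := by
      ext j k
      rw [← hc j, Matrix.mul_apply]
      simp [Matrix.row, Finset.sum_apply]
    have : Nontrivial (Fin N2 → ℂ) := by
      have : Nonempty (Fin N2) := ⟨⟨0, by omega⟩⟩
      infer_instance
    obtain ⟨l, hl⟩ := Module.End.exists_eigenvalue ((Matrix.of c)ᵀ.mulVecLin)
    obtain ⟨y, hy⟩ := hl.exists_hasEigenvector
    have hy1 := hy.apply_eq_smul
    rw [Matrix.mulVecLin_apply, mulVec_transpose] at hy1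
    refine ⟨a + (-l) • b, y, ?_, hy.2, ?_⟩
    · intro h
      have h6 := congrFun h ⟨1, by omega⟩
      simp [ha, hb] at h6
    · rw [← vecMul_Tx, Tx_add, hAB, vecMul_add, ← vecMul_vecMul, hy1, vecMul_smul, smul_vecMul,
        neg_smul, add_neg_cancel]

end W0

open W0 in
open Pool.Agent.H548.TL (exists_ker Tx_mulVec vecMul_Tx Tx_add g1_s12 g2_s12) in
theorem w0 : StmtW0 := by
  intro N1 N2 N3 T h1 h2 h3 hs
  by_cases hr : 4 ≤ (MM T).rank
  · obtain ⟨g, hg⟩ := exists_rows' (MM T) hr
    exact ⟨g, rows_int _ hg⟩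
  · exfalso
    obtain ⟨x, y, hx, hy, hxy⟩ := exists_xy T h1 h2 (by omega)
    have hker : ∃ z : Fin N3 → ℂ, z ≠ 0 ∧ MM T *ᵥ z = 0 := by
      by_contra hcon
      push Not at hcon
      have hinj : Function.Injective (MM T).mulVecLin := by
        rw [← LinearMap.ker_eq_bot, LinearMap.ker_eq_bot']
        intro z hz
        by_contra hz0
        exact hcon z hz0 hz
      have h5 := LinearMap.finrank_range_of_inj hinj
      have h6 : finrank ℂ (LinearMap.range (MM T).mulVecLin) = (MM T).rank := rfl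
      rw [h6, Module.finrank_fintype_fun_eq_card, Fintype.card_fin] at h5
      omega
    obtain ⟨z, hz0, hz⟩ := hker
    have hT : ∀ i j, ∑ k, (T i j k : ℂ) * z k = 0 := fun i j => congrFun hz (i, j)
    refine hs x y z hx hy hz0 ⟨?_, ?_, hxy⟩
    · funext i
      unfold g1
      apply Finset.sum_eq_zero
      intro j _
      have : ∑ k, (T i j k : ℂ) * y j * z k = y j * ∑ k, (T i j k : ℂ) * z k := by
        rw [Finset.mul_sum]
        refine Finset.sum_congr rfl fun k _ => ?_
        ring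
      rw [this, hT, mul_zero]
    · funext j
      unfold g2
      apply Finset.sum_eq_zero
      intro i _
      have : ∑ k, (T i j k : ℂ) * x i * z k = x i * ∑ k, (T i j k : ℂ) * z k := by
        rw [Finset.mul_sum]
        refine Finset.sum_congr rfl fun k _ => ?_
        ring
      rw [this, hT, mul_zero]

end Pool.Agent.T6.H81.BI
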