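import Mathlib
import Pool.Agent.T6.H81.BI.Defs

/-!
The common form of the theorems on smooth divisors of type `(1, 1, 1)`.
-/

set_option autoImplicit false

namespace Pool.Agent.T6.H81.BI

open Filter Topology
open Pool.Agent.H548.WM (Rep ht)
open Pool.Agent.H548.TL (evz)
open Pool.Agent.T6.H5.TW (MultiDeg fl)
open Pool.Agent.T6.H81.BG (Pt Zr cf mf LFs Phs)

/-- The asymptotic formula for all smooth divisors of type `(1, 1, 1)` and all adelic heights, for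
the polynomials `G` in `GG`. -/
def Asy (n : Fin 3 → ℕ) (GG : MvPolynomial (Σ i, Fin (n i)) ℤ → Prop) : Prop :=
  ∀ F : Fin 1 → MvPolynomial (Σ i, Fin (n i)) ℤ, MultiDeg (F 0) (fun _ => 1) →
    (∀ z : ∀ v, Fin (n v) → ℂ, (∀ v, z v ≠ 0) → Zr F z → ∃ v, cf F 0 v z ≠ 0) →
    ∀ (ψ : (∀ v, Fin (n v) → ℝ) → ℝ) (S : Finset Nat.Primes)
      (φ : ∀ p : Nat.Primes, (∀ v, Fin (n v) → ℚ_[p]) → ℝ), LFs {x | Zr F x} ψ →
      (∀ p ∈ S, LFs {x | Zr F x} (φ p)) →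
      ∃ c : ℝ, 0 < c ∧ ∀ G : MvPolynomial (Σ i, Fin (n i)) ℤ, GG G →
        (∃ z : ∀ i, Fin (n i) → ℂ, Zr F z ∧ (∀ v, cf F 0 v z ≠ 0) ∧ evz G (fl z) ≠ 0) →
        Tendsto (fun B : ℝ => ({x : Pt n | (∀ v, Rep (x v)) ∧ Zr F x ∧ (∀ v, cf F 0 v x ≠ 0) ∧
          (∀ u v, u ≠ v → 3 ≤ ((mf F 0 u v x).map (Int.cast : ℤ → ℚ)).rank) ∧
          evz G (fl x) ≠ 0 ∧
          (∏ v, (ht (x v) : ℝ) ^ (n v - 1)) * Phs ψ S φ x ≤ B}.ncard : ℝ) /
            (B * Real.log B ^ 2)) atTop (𝓝 c)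

/-- Three projective planes, without a further condition on the points. -/
def Stmt222 : Prop := Asy (fun _ => 3) (fun G => G = 1)

/-- Three projective planes, every dense open subset. -/
def Stmt222G : Prop := Asy (fun _ => 3) (fun _ => True)

end Pool.Agent.T6.H81.BI
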