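import Mathlib
import Pool.Agent.T6.H81.BI.Fin6
import Pool.Agent.T6.H81.BI.Uni

/-!
Smooth divisors of type `(1, 1, 1)`: all dimensions at least two.
-/

set_option autoImplicit false

namespace Pool.Agent.T6.H81.BI

open Filter Topology
open Pool.Agent.H548.WM (Rep ht)
open Pool.Agent.H548.TL (evz)
open Pool.Agent.T6.H5.TW (MultiDeg fl)
open Pool.Agent.T6.H81.BG
open Pool.Agent.T6.H81.BH (StmtPert StmtZ0 StmtPol StmtTR)

namespace Fin8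

theorem not4 {n : Fin 3 → ℕ} (hn : ∀ v, 3 ≤ n v) (h : ¬ ∃ v, 4 ≤ n v) : n = fun _ => 3 := by
  funext v
  have h1 := hn v
  have h2 : ¬ 4 ≤ n v := fun h3 => h ⟨v, h3⟩
  omega

/-- **Smooth divisors of type `(1, 1, 1)`.** -/
theorem main (hP : StmtP3) (hH : StmtH3) (hW : StmtW3) (hR3 : StmtR3)
    (hZ : StmtZ3) (hS8 : StmtS8) (hZ0 : StmtZ0) (hPol : StmtPol) (hTR : StmtTR)
    (hPert : StmtPert) (hRED : StmtRED) (hPR : StmtPR) (hW0 : StmtW0) (hCH4 : StmtCH4)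
    (h222 : Stmt222) {n : Fin 3 → ℕ} (hn : ∀ v, 3 ≤ n v) :
    Asy n (fun G => G = 1 ∨ ∃ v, 4 ≤ n v) := by
  by_cases h : ∃ v, 4 ≤ n v
  · obtain ⟨v0, hv0⟩ := h
    intro F hF hsm ψ S φ hψ hφ
    obtain ⟨c, hc, h1⟩ := Fin6.main hP hH hW hR3 hZ hS8 hZ0 hPol hTR hPert hRED hPR hW0 hCH4 hn hv0 F
      hF hsm ψ S φ hψ hφ
    exact ⟨c, hc, fun G _ hG => h1 G hG⟩
  · obtain rfl := not4 hn h
    intro F hF hsm ψ S φ hψ hφ
    obtain ⟨c, hc, h1⟩ := h222 F hF hsm ψ S φ hψ hφ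
    exact ⟨c, hc, fun G hG' hG => h1 G (hG'.resolve_right h) hG⟩

end Fin8

end Pool.Agent.T6.H81.BI
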